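import Mathlib
import Pool.Agent.Lib.H16C.Stm
import Pool.Agent.Lib.H16C.D1

/-!
# H35Q: the Tate-Shafarevich groups of y^2 = x^3 - d^2 and y^2 = x^3 + 27 d^2 and the 3-isogeny Selmer groups

Definitions. See PROOF.md.
-/

open NumberField IsDedekindDomain

namespace H35Q

open H16C

/-! ## Coordinates -/

/-- p + q T is a cube in k[T]/(T^2 - D). -/
def Cub {k : Type*} [Field k] (D p q : k) : Prop :=
  ∃ α β : k, p = α ^ 3 + 3 * D * α * β ^ 2 ∧ q = 3 * α ^ 2 * β + D * β ^ 3

/-- Local images: (p + q T)(y - T) is a cube in k[T]/(T^2 - D) for a point (x, y) of y^2 = x^3 + D with x nonzero. -/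
def LIm (k : Type*) [Field k] (D p q : k) : Prop :=
  ∃ x y : k, y ^ 2 = x ^ 3 + D ∧ x ≠ 0 ∧ Cub D (p * y - D * q) (q * y - p)

/-- The Selmer group in coordinates is trivial. -/
def SelT (K : Type) [Field K] [NumberField K] (D : K) : Prop :=
  ∀ p q n : K, p ^ 2 - D * q ^ 2 = n ^ 3 → n ≠ 0 →
    (∀ w : HeightOneSpectrum (𝓞 K), LIm (w.adicCompletion K) (algebraMap K (w.adicCompletion K) D)
      (algebraMap K (w.adicCompletion K) p) (algebraMap K (w.adicCompletion K) q)) → Cub D p q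

/-- y^2 = x^3 + D has finitely many solutions in k. -/
def FinE (k : Type*) [Field k] (D : k) : Prop := {q : k × k | q.2 ^ 2 = q.1 ^ 3 + D}.Finite

/-! ## Multiplication by the cube roots of unity -/

section Geo

variable {F : Type*} [Field F] [DecidableEq F] {V : WeierstrassCurve.Affine F}

/-- φ(x, y) = (ω x, y). -/
structure IsOm (ω : F) (φ : V.Point →+ V.Point) : Prop where
  x : ∀ P, xc (φ P) = ω * xc P
  y : ∀ P, yc (φ P) = yc P
  ne : ∀ P, φ P = 0 → P = 0

/-- 1 + 2 φ -/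
noncomputable def pim {A : Type*} [AddCommGroup A] (φ : A →+ A) : A →+ A := AddMonoidHom.id A + φ + φ

variable (V) in
/-- V is y^2 = x^3 + δ^2, ω a primitive cube root of unity, φ(x, y) = (ω x, y), T = (0, δ). -/
structure Geo (ω δ : F) (φ : V.Point →+ V.Point) (T : V.Point) : Prop where
  a4 : V.a₄ = 0
  om : ω ^ 2 + ω + 1 = 0
  sq : δ ^ 2 = V.a₆
  phi : IsOm ω φ
  ne : T ≠ 0
  xT : xc T = 0
  yT : yc T = δ

end Geo

open Classical in
/-- the sign of g on t (t^2 rational) -/
noncomputable def sg {K Ω : Type*} [Field K] [Field Ω] [Algebra K Ω] (t : Ω) (g : Ω ≃ₐ[K] Ω) : ℤ :=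
  if g t = t then 1 else -1

open Classical in
/-- Locally trivial cocycles with values in the 3-torsion are coboundaries. -/
def CocZ {K : Type*} [Field K] [NumberField K] (W : WeierstrassCurve.Affine K) (Ω : Type*) [Field Ω]
    [Algebra K Ω] : Prop :=
  ∀ c : (Ω ≃ₐ[K] Ω) → (WeierstrassCurve.Affine.baseChange W Ω).Point, IsCocycle W Ω c →
    EverywhereTriv W Ω c → (∀ g, (3 : ℕ) • c g = 0) → IsCoboundary W Ω c

end H35Q
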