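import Mathlib
import Pool.Agent.Lib.H35Q.Defs

/-! Chunk G0 (S): small algebra. val_add: a, b in ZMod 3 with values 0, 1, 2 (fin_cases or decide on the nine cases); (a + b).val is a.val + b.val or a.val + b.val - 3. val_zsmul: both sides
are additive in n; n = 3 k + r: (n : ZMod 3) = r, n • (..) = r • (..) + k • (3 • ..); or ZMod.lift: define f = ZMod.lift 3 (zmultiplesHom A T, with 3 • T = 0) : ZMod 3 →+ A, f a = a.val • T, and f ((n : ZMod 3) * a) = f (n • a) = n • f a.
val_inj: T nonzero, 3 • T = 0, a.val • T = b.val • T implies a = b: addOrderOf T = 3, or f (a - b) = 0 and check the cases 0, 1, 2 (2 • T = 0 and 3 • T = 0 give T = 0). om_cube: ω^3 - 1 = (ω - 1)(ω^2 + ω + 1).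
om_pow_add: ω^3 = 1, nine cases. theta_sq: (2 ω + 1)^2 = 4 (ω^2 + ω + 1) - 3. -/

namespace H35Q

theorem g0_mod {A : Type*} [AddCommGroup A] {T : A} (h : (3 : ℕ) • T = 0) (n : ℕ) :
    (n % 3) • T = n • T := by
  conv_rhs => rw [← Nat.mod_add_div n 3, add_nsmul, mul_comm, mul_nsmul', h, nsmul_zero, add_zero]

theorem val_add {A : Type*} [AddCommGroup A] {T : A} (h : (3 : ℕ) • T = 0) (a b : ZMod 3) :
    (a + b).val • T = a.val • T + b.val • T := by
  rw [ZMod.val_add, g0_mod h, add_nsmul]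

theorem g0_val_nat {A : Type*} [AddCommGroup A] {T : A} (h : (3 : ℕ) • T = 0) (n : ℕ) :
    ((n : ZMod 3)).val • T = n • T := by
  rw [ZMod.val_natCast, g0_mod h]

/-- the additive map ZMod 3 -> A with value T at 1 -/
def g0_hom {A : Type*} [AddCommGroup A] {T : A} (h : (3 : ℕ) • T = 0) : ZMod 3 →+ A where
  toFun a := a.val • T
  map_zero' := by simp
  map_add' a b := val_add h a b

theorem val_zsmul {A : Type*} [AddCommGroup A] {T : A} (h : (3 : ℕ) • T = 0) (n : ℤ) (a : ZMod 3) :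
    ((n : ZMod 3) * a).val • T = n • (a.val • T) := by
  have h1 := map_zsmul (g0_hom h) n a
  rw [zsmul_eq_mul] at h1
  exact h1

theorem val_inj {A : Type*} [AddCommGroup A] {T : A} (h : (3 : ℕ) • T = 0) (h0 : T ≠ 0) {a b : ZMod 3}
    (hab : a.val • T = b.val • T) : a = b := by
  have h1 : ∀ c : ZMod 3, c.val • T = 0 → c = 0 := by
    intro c hc
    have h2 : (2 : ℕ) • T ≠ 0 := by
      intro h2
      apply h0
      have : (3 : ℕ) • T = (2 : ℕ) • T + T := by
        rw [show (3 : ℕ) = 2 + 1 from rfl, add_nsmul, one_nsmul]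
      rw [h, h2, zero_add] at this
      exact this.symm
    fin_cases c
    · rfl
    · exact absurd ((one_nsmul T).symm.trans hc) h0
    · exact absurd hc h2
  have h3 : (a - b).val • T = 0 := by
    have := map_sub (g0_hom h) a b
    rw [show g0_hom h (a - b) = (a - b).val • T from rfl, show g0_hom h a = a.val • T from rfl,
      show g0_hom h b = b.val • T from rfl, hab, sub_self] at this
    exact this
  exact sub_eq_zero.1 (h1 _ h3)

theorem val_three {A : Type*} [AddCommGroup A] {T : A} (h : (3 : ℕ) • T = 0) (a : ZMod 3) :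
    (3 : ℕ) • (a.val • T) = 0 := by
  rw [smul_comm, h, smul_zero]

theorem om_cube {F : Type*} [Field F] {ω : F} (h : ω ^ 2 + ω + 1 = 0) : ω ^ 3 = 1 := by
  linear_combination (ω - 1) * h

theorem om_ne {F : Type*} [Field F] {ω : F} (h : ω ^ 2 + ω + 1 = 0) : ω ≠ 0 := by
  rintro rfl
  simp at h

theorem om_ne_one {F : Type*} [Field F] [CharZero F] {ω : F} (h : ω ^ 2 + ω + 1 = 0) : ω ≠ 1 := by
  rintro rfl
  norm_num at h

theorem om_pow_add {F : Type*} [Field F] {ω : F} (h : ω ^ 2 + ω + 1 = 0) (a b : ZMod 3) :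
    ω ^ (a + b).val = ω ^ a.val * ω ^ b.val := by
  rw [ZMod.val_add, ← pow_add]
  conv_rhs => rw [← Nat.mod_add_div (a.val + b.val) 3, pow_add, pow_mul, om_cube h, one_pow, mul_one]

/-- a cube root of unity is a power of ω -/
theorem om_root {F : Type*} [Field F] {ω : F} (h : ω ^ 2 + ω + 1 = 0) {z : F} (hz : z ^ 3 = 1) :
    ∃ a : ZMod 3, z = ω ^ a.val := by
  have h1 : (z - 1) * ((z - ω) * (z - ω ^ 2)) = 0 := by
    have h2 : (z - 1) * ((z - ω) * (z - ω ^ 2)) =
        (z ^ 3 - 1) - (ω ^ 2 + ω + 1) * z ^ 2 + (ω ^ 3 - 1) * z + (ω ^ 2 + ω + 1) * z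
          - (ω ^ 3 - 1) := by
      ring
    rw [h2, hz, h, om_cube h]
    ring
  rcases mul_eq_zero.1 h1 with h2 | h2
  · exact ⟨0, by rw [sub_eq_zero.1 h2]; simp⟩
  · rcases mul_eq_zero.1 h2 with h3 | h3
    · refine ⟨1, ?_⟩
      rw [sub_eq_zero.1 h3, show (1 : ZMod 3).val = 1 from rfl, pow_one]
    · refine ⟨2, ?_⟩
      rw [sub_eq_zero.1 h3, show (2 : ZMod 3).val = 2 from rfl]

theorem om_inj {F : Type*} [Field F] [CharZero F] {ω : F} (h : ω ^ 2 + ω + 1 = 0) {a b : ZMod 3}
    (hab : ω ^ a.val = ω ^ b.val) : a = b := by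
  have h1 := om_ne_one h
  have h0 := om_ne h
  have h2 : ω ^ 2 ≠ 1 := by
    intro h2
    apply h1
    have h3 := om_cube h
    rw [pow_succ, h2, one_mul] at h3
    exact h3
  have h3 : ω ^ 2 ≠ ω := by
    intro h3
    apply h1
    have h4 : ω * ω = ω * 1 := by rw [mul_one, ← sq, h3]
    exact mul_left_cancel₀ h0 h4
  fin_cases a <;> fin_cases b <;> first
    | rfl
    | exfalso
      simp only [Fin.mk_one, Fin.isValue, Fin.zero_eta, Fin.reduceFinMk] at hab
      first
      | exact h1 (by simpa [ZMod.val] using hab)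
      | exact h1 (by simpa [ZMod.val] using hab.symm)
      | exact h2 (by simpa [ZMod.val] using hab)
      | exact h2 (by simpa [ZMod.val] using hab.symm)
      | exact h3 (by simpa [ZMod.val] using hab)
      | exact h3 (by simpa [ZMod.val] using hab.symm)

theorem theta_sq {F : Type*} [Field F] {ω : F} (h : ω ^ 2 + ω + 1 = 0) : (2 * ω + 1) ^ 2 = -3 := by
  linear_combination 4 * h

theorem theta_ne {F : Type*} [Field F] [CharZero F] {ω : F} (h : ω ^ 2 + ω + 1 = 0) : 2 * ω + 1 ≠ 0 := by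
  intro h1
  have h2 := theta_sq h
  rw [h1] at h2
  norm_num at h2

end H35Q
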