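import Mathlib
import Pool.Agent.Lib.H35Q.G0

/-! Chunk G1 (M): existence of φ. The map φ(x, y) = (ω x, y), φ(0) = 0, is additive: it is the isomorphism given by the change of variables with u = ω^2 (u^2 = ω, u^3 = 1), see ZL1_iso in Lib/H19Z/L1.lean
(ZL1_D V V (ω^2) 0 0 0: the coefficients a1 = a2 = a3 = a4 = 0 and u^6 a6 = a6; import Pool.Agent.Lib.H19Z.L1; V as WeierstrassCurve, V.toAffine = V, look at the formula of ZL1_iso on coordinates), or directly (copy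
the proof of PS4_iso / ZL1_f_add: slopes: slope(ω x1, ω x2, y1, y2) = ω^(-1) slope = ω^2 slope when x1 <> x2, and 3 (ω x)^2/(2 y) = ω^2 slope). exists_geo: T = (0, δ) by exists_pt (H16C.D1), V.a₄ = 0. -/

namespace H35Q

open H16C

variable {F : Type*} [Field F] [DecidableEq F] {V : WeierstrassCurve.Affine F} [V.IsShortNF] [V.IsElliptic]

omit [DecidableEq F] [V.IsElliptic] in
theorem g1_eqn (h4 : V.a₄ = 0) {ω : F} (h3 : ω ^ 3 = 1) (x y : F) :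
    V.Equation x y ↔ V.Equation (ω * x) y := by
  rw [D1_equation, D1_equation, h4]
  have h : (ω * x) ^ 3 = x ^ 3 := by rw [mul_pow, h3, one_mul]
  rw [h, zero_mul, zero_mul]

omit [DecidableEq F] in
theorem g1_ns (h4 : V.a₄ = 0) {ω : F} (h3 : ω ^ 3 = 1) (x y : F) :
    V.Nonsingular x y ↔ V.Nonsingular (ω * x) y := by
  rw [← WeierstrassCurve.Affine.equation_iff_nonsingular,
    ← WeierstrassCurve.Affine.equation_iff_nonsingular]
  exact g1_eqn h4 h3 x y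

/-- the map on points -/
noncomputable def g1_f (h4 : V.a₄ = 0) {ω : F} (h3 : ω ^ 3 = 1) : V.Point → V.Point
  | 0 => 0
  | .some x y h => .some (ω * x) y ((g1_ns h4 h3 x y).1 h)

omit [DecidableEq F] [V.IsElliptic] in
theorem g1_cond {ω : F} (h3 : ω ^ 3 = 1) (x₁ y₁ x₂ y₂ : F) :
    (ω * x₁ = ω * x₂ ∧ y₁ = V.negY (ω * x₂) y₂) ↔ (x₁ = x₂ ∧ y₁ = V.negY x₂ y₂) := by
  have hω : ω ≠ 0 := by
    rintro rfl
    norm_num at h3
  rw [D1_negY, D1_negY]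
  constructor
  · rintro ⟨h1, h2⟩
    exact ⟨mul_left_cancel₀ hω h1, h2⟩
  · rintro ⟨h1, h2⟩
    exact ⟨by rw [h1], h2⟩

omit [V.IsElliptic] in
theorem g1_slope (h4 : V.a₄ = 0) {ω : F} (h3 : ω ^ 3 = 1) {x₁ y₁ x₂ y₂ : F}
    (E₁ : V.Equation x₁ y₁) (E₂ : V.Equation x₂ y₂) (hxy : ¬(x₁ = x₂ ∧ y₁ = V.negY x₂ y₂)) :
    V.slope (ω * x₁) (ω * x₂) y₁ y₂ = ω ^ 2 * V.slope x₁ x₂ y₁ y₂ := by
  have hω : ω ≠ 0 := by
    rintro rfl
    norm_num at h3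
  by_cases hx : x₁ = x₂
  · have hy : y₁ ≠ V.negY x₂ y₂ := fun h => hxy ⟨hx, h⟩
    have hy' : y₁ ≠ V.negY (ω * x₂) y₂ := by
      rw [D1_negY] at hy ⊢
      exact hy
    have hyy : y₁ = y₂ := WeierstrassCurve.Affine.Y_eq_of_Y_ne E₁ E₂ hx hy
    rw [WeierstrassCurve.Affine.slope_of_Y_ne (by rw [hx]) hy',
      WeierstrassCurve.Affine.slope_of_Y_ne hx hy, D1_negY, D1_negY, h4,
      WeierstrassCurve.a₂_of_isShortNF, WeierstrassCurve.a₁_of_isShortNF]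
    ring
  · have hx' : ω * x₁ ≠ ω * x₂ := fun h => hx (mul_left_cancel₀ hω h)
    have h0 : x₁ - x₂ ≠ 0 := sub_ne_zero.2 hx
    rw [WeierstrassCurve.Affine.slope_of_X_ne hx', WeierstrassCurve.Affine.slope_of_X_ne hx,
      ← mul_sub, div_eq_iff (mul_ne_zero hω h0)]
    have e : ω ^ 2 * ((y₁ - y₂) / (x₁ - x₂)) * (ω * (x₁ - x₂)) = ω ^ 3 * (y₁ - y₂) := by
      field_simp
    rw [e, h3, one_mul]

omit [DecidableEq F] [V.IsElliptic] in
theorem g1_addX {ω : F} (h3 : ω ^ 3 = 1) (x₁ x₂ l : F) :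
    V.addX (ω * x₁) (ω * x₂) (ω ^ 2 * l) = ω * V.addX x₁ x₂ l := by
  rw [WeierstrassCurve.Affine.addX, WeierstrassCurve.Affine.addX,
    WeierstrassCurve.a₂_of_isShortNF, WeierstrassCurve.a₁_of_isShortNF]
  linear_combination ω * l ^ 2 * h3

omit [DecidableEq F] [V.IsElliptic] in
theorem g1_addY {ω : F} (h3 : ω ^ 3 = 1) (x₁ x₂ y₁ l : F) :
    V.addY (ω * x₁) (ω * x₂) y₁ (ω ^ 2 * l) = V.addY x₁ x₂ y₁ l := by
  rw [WeierstrassCurve.Affine.addY, WeierstrassCurve.Affine.addY, D1_negY, D1_negY,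
    WeierstrassCurve.Affine.negAddY, WeierstrassCurve.Affine.negAddY, g1_addX h3]
  linear_combination -(l * (V.addX x₁ x₂ l - x₁)) * h3

theorem g1_f_add (h4 : V.a₄ = 0) {ω : F} (h3 : ω ^ 3 = 1) (P Q : V.Point) :
    g1_f h4 h3 (P + Q) = g1_f h4 h3 P + g1_f h4 h3 Q := by
  rcases P with _ | ⟨x₁, y₁, h₁⟩
  · change g1_f h4 h3 (0 + Q) = 0 + g1_f h4 h3 Q
    rw [zero_add, zero_add]
  rcases Q with _ | ⟨x₂, y₂, h₂⟩
  · change g1_f h4 h3 (_ + 0) = _ + 0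
    rw [add_zero, add_zero]
  by_cases hxy : x₁ = x₂ ∧ y₁ = V.negY x₂ y₂
  · rw [WeierstrassCurve.Affine.Point.add_of_Y_eq hxy.1 hxy.2]
    have h := (g1_cond (V := V) h3 x₁ y₁ x₂ y₂).2 hxy
    exact (WeierstrassCurve.Affine.Point.add_of_Y_eq (h₁ := (g1_ns h4 h3 x₁ y₁).1 h₁)
      (h₂ := (g1_ns h4 h3 x₂ y₂).1 h₂) h.1 h.2).symm
  · have hxy' := fun h => hxy ((g1_cond (V := V) h3 x₁ y₁ x₂ y₂).1 h)
    have e1 := WeierstrassCurve.Affine.Point.add_some hxy' (h₁ := (g1_ns h4 h3 x₁ y₁).1 h₁)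
      (h₂ := (g1_ns h4 h3 x₂ y₂).1 h₂)
    rw [WeierstrassCurve.Affine.Point.add_some hxy]
    refine Eq.trans ?_ e1.symm
    change WeierstrassCurve.Affine.Point.some _ _ _ = WeierstrassCurve.Affine.Point.some _ _ _
    rw [WeierstrassCurve.Affine.Point.some.injEq]
    rw [g1_slope h4 h3 h₁.1 h₂.1 hxy, g1_addX h3, g1_addY h3]
    exact ⟨rfl, rfl⟩

theorem exists_om (h4 : V.a₄ = 0) {ω : F} (hω : ω ^ 2 + ω + 1 = 0) : ∃ φ : V.Point →+ V.Point, IsOm ω φ := by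
  have h3 := om_cube hω
  refine ⟨{ toFun := g1_f h4 h3, map_zero' := rfl, map_add' := g1_f_add h4 h3 }, ?_, ?_, ?_⟩
  · intro P
    rcases P with _ | ⟨x, y, h⟩
    · change (0 : F) = ω * 0
      rw [mul_zero]
    · rfl
  · intro P
    rcases P with _ | ⟨x, y, h⟩
    · rfl
    · rfl
  · intro P hP
    rcases P with _ | ⟨x, y, h⟩
    · rfl
    · exact absurd hP (WeierstrassCurve.Affine.Point.some_ne_zero _)

theorem exists_geo (h4 : V.a₄ = 0) {ω δ : F} (hω : ω ^ 2 + ω + 1 = 0) (hδ : δ ^ 2 = V.a₆) :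
    ∃ (φ : V.Point →+ V.Point) (T : V.Point), Geo V ω δ φ T := by
  obtain ⟨φ, hφ⟩ := exists_om h4 hω
  obtain ⟨T, h1, h2, h3⟩ := exists_pt (W := V) 0 δ (by rw [hδ, h4]; ring)
  exact ⟨φ, T, h4, hω, hδ, hφ, h1, h2, h3⟩

end H35Q
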