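import Mathlib
import Pool.Agent.Lib.H35Q.G0

/-! Chunk G2 (M): G : Geo V ω δ φ T.
delta_ne: δ = 0 would give V.a₆ = 0, V.a₄ = 0, Δ = 0, contradiction with IsElliptic (V.isUnit_Δ; Δ_of_isShortNF).
rel: φ (φ P) + φ P + P = 0. P = 0: clear. P = (x, y) with x = 0: φ P = P (pt_ext, ω 0 = 0), so the claim is 3 P = 0: y = ± δ is nonzero, D1_dbl: slope (3 x^2 + a4)/(2 y) = 0, x(2P) = 0, y(2P) = -y, 2 P = -P.
x nonzero: φ P = (ω x, y), ω x <> x, slope 0, D1_xc_add: x(P + φ P) = 0 - x - ω x = ω^2 x; y(P + φ P) = -y (H16C.D1 has yc_add or use Affine.Point.add_of_X_ne, addY; or: the y coordinate squared is known, and the points P, φ P,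
-(P + φ P) are on the line Y = y) so P + φ P = -(φ (φ P)) by pt_ext, xc_neg, yc_neg.
phi_T: φ T = T (pt_ext: xc = ω 0 = 0, yc = δ). three_T: rel for T. pim_apply: definition. pim_pim: algebra from rel: pim (pim P) = P + 4 φ P + 4 φ φ P = P - 4 P = -3 P (expand, use rel P and φ of rel is not needed; abel after
writing φ (φ P) = -P - φ P). pim_T: 3 T = 0.
xzero: P nonzero with xc P = 0: yc P ^ 2 = a₆ = δ^2, so yc P = ± δ, P = T or P = -T (pt_ext). -/

namespace H35Q

open H16C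

variable {F : Type*} [Field F] [CharZero F] [DecidableEq F] {V : WeierstrassCurve.Affine F} [V.IsShortNF]
  [V.IsElliptic] {ω δ : F} {φ : V.Point →+ V.Point} {T : V.Point}

theorem pim_apply {A : Type*} [AddCommGroup A] (φ : A →+ A) (P : A) : pim φ P = P + φ P + φ P := rfl

omit [CharZero F] [V.IsElliptic] in
/-- the second coordinate of the sum -/
theorem g2_yc_add {P Q : V.Point} (hP : P ≠ 0) (hQ : Q ≠ 0) (h : xc P ≠ xc Q) :
    yc (P + Q) = -((yc P - yc Q) / (xc P - xc Q) * (xc (P + Q) - xc P) + yc P) := by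
  rcases P with _ | ⟨x, y, h1⟩
  · exact absurd rfl hP
  rcases Q with _ | ⟨x', y', h2⟩
  · exact absurd rfl hQ
  change x ≠ x' at h
  rw [WeierstrassCurve.Affine.Point.add_of_X_ne h]
  change V.addY x x' y (V.slope x x' y y') =
    -((y - y') / (x - x') * (V.addX x x' (V.slope x x' y y') - x) + y)
  rw [WeierstrassCurve.Affine.addY, WeierstrassCurve.Affine.negAddY, D1_negY,
    WeierstrassCurve.Affine.slope_of_X_ne h]

omit [CharZero F] [DecidableEq F] in
theorem g2_a6_ne (h4 : V.a₄ = 0) : V.a₆ ≠ 0 := by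
  intro h6
  have h1 : V.Δ ≠ 0 := V.isUnit_Δ.ne_zero
  apply h1
  rw [WeierstrassCurve.Δ_of_isShortNF, h4, h6]
  ring

theorem Geo.delta_ne (G : Geo V ω δ φ T) : δ ≠ 0 := by
  intro h
  apply g2_a6_ne G.a4
  rw [← G.sq, h]
  ring

omit [CharZero F] [V.IsShortNF] [V.IsElliptic] in
theorem g2_phi_ne (G : Geo V ω δ φ T) {P : V.Point} (h0 : P ≠ 0) : φ P ≠ 0 :=
  fun h => h0 (G.phi.ne P h)

omit [CharZero F] [V.IsElliptic] in
theorem g2_fix (G : Geo V ω δ φ T) {P : V.Point} (h0 : P ≠ 0) (hx : xc P = 0) : φ P = P := by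
  apply pt_ext (g2_phi_ne G h0) h0
  · rw [G.phi.x, hx, mul_zero]
  · rw [G.phi.y]

theorem g2_three (G : Geo V ω δ φ T) {P : V.Point} (h0 : P ≠ 0) (hx : xc P = 0) :
    (2 : ℕ) • P = -P := by
  have h2 : (2 : F) ≠ 0 := two_ne_zero
  have hy2 : yc P ^ 2 = V.a₆ := by
    rw [eqn h0, hx, G.a4]
    ring
  have hy : yc P ≠ 0 := by
    intro h
    apply g2_a6_ne (V := V) G.a4
    rw [← hy2, h]
    ring
  have h2P : (2 : ℕ) • P ≠ 0 := by
    intro h
    exact hy ((two_smul_eq_zero_iff h2 h0).mp h)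
  obtain ⟨e1, e2⟩ := D1_dbl h2 h0 hy
  have e0 : (3 * xc P ^ 2 + V.a₄) / (2 * yc P) = 0 := by
    rw [hx, G.a4]
    simp
  rw [e0, hx] at e1
  rw [e0] at e2
  apply pt_ext h2P (neg_ne_zero.mpr h0)
  · rw [e1, xc_neg, hx]
    ring
  · rw [e2, yc_neg]
    ring

theorem Geo.rel (G : Geo V ω δ φ T) (P : V.Point) : φ (φ P) + φ P + P = 0 := by
  by_cases h0 : P = 0
  · rw [h0, map_zero, map_zero, add_zero, add_zero]
  by_cases hx : xc P = 0
  · have h1 := g2_fix G h0 hx
    have h2 := g2_three G h0 hx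
    rw [h1, h1]
    rw [two_nsmul] at h2
    rw [h2, neg_add_cancel]
  · have hφ := g2_phi_ne G h0
    have hφφ := g2_phi_ne G hφ
    have hne1 : ω ≠ 1 := om_ne_one G.om
    have hxne : xc P ≠ xc (φ P) := by
      rw [G.phi.x]
      intro h
      apply hne1
      have h3 : (ω - 1) * xc P = 0 := by linear_combination -h
      rcases mul_eq_zero.mp h3 with h4 | h4
      · linear_combination h4
      · exact absurd h4 hx
    have hs : (yc P - yc (φ P)) / (xc P - xc (φ P)) = 0 := by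
      rw [G.phi.y, sub_self, zero_div]
    have e1 := D1_xc_add h0 hφ hxne
    have e2 := g2_yc_add h0 hφ hxne
    rw [hs] at e1 e2
    have hS := (ne_zero_of_xc_ne h0 hφ hxne).1
    have hE : P + φ P = -(φ (φ P)) := by
      apply pt_ext hS (neg_ne_zero.mpr hφφ)
      · rw [e1, xc_neg, G.phi.x (φ P), G.phi.x P]
        linear_combination -xc P * G.om
      · rw [e2, yc_neg, G.phi.y (φ P), G.phi.y P]
        ring
    have : φ (φ P) + φ P + P = φ (φ P) + (P + φ P) := by abel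
    rw [this, hE, add_neg_cancel]

theorem Geo.phi_T (G : Geo V ω δ φ T) : φ T = T := g2_fix G G.ne G.xT

theorem Geo.three_T (G : Geo V ω δ φ T) : (3 : ℕ) • T = 0 := by
  have h2 := g2_three G G.ne G.xT
  rw [show (3 : ℕ) = 2 + 1 from rfl, add_nsmul, h2, one_nsmul, neg_add_cancel]

theorem Geo.pim_pim (G : Geo V ω δ φ T) (P : V.Point) : pim φ (pim φ P) = -((3 : ℕ) • P) := by
  have h1 := G.rel P
  have h2 : φ (φ P) = -P - φ P := by
    rw [sub_eq_add_neg, ← neg_add, eq_neg_iff_add_eq_zero, add_comm P, ← add_assoc]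
    exact h1
  rw [pim_apply, pim_apply, map_add, map_add, h2]
  abel

theorem Geo.pim_T (G : Geo V ω δ φ T) : pim φ T = 0 := by
  have h3 := G.three_T
  rw [pim_apply, G.phi_T, ← h3]
  abel

theorem Geo.xzero (G : Geo V ω δ φ T) {P : V.Point} (h0 : P ≠ 0) (hx : xc P = 0) : P = T ∨ P = -T :=
  xc_eq h0 G.ne (by rw [hx, G.xT])

end H35Q
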