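import Mathlib
import Pool.Agent.Lib.H35Q.Defs

/-! Chunk G5 (S): signs. t in Ω with t^2 = c in K. (g t)^2 = g (t^2) = t^2, so g t = t or g t = -t; sg_spec. If t is nonzero then t <> -t (char 0), so sg t g is determined by g t = ± t; sg_mul, sg_prod, sg_smul follow from
sg_spec (compare the factors; use sg_eq). exists_neg: t^2 = c is not a square in K: some g moves t: otherwise t is fixed by all g, so t is in K (IsGalois.mem_bot / InfiniteGalois; IsAlgClosure, char 0: Galois; or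
H16C.SE3 Setup.mem_L as a model), t = algebraMap x, x^2 = c. fix_mem: an element fixed by all g is in K. -/

namespace H35Q

variable {K Ω : Type*} [Field K] [Field Ω] [Algebra K Ω] [CharZero Ω]

omit [CharZero Ω] in
theorem sg_cases (t : Ω) (g : Ω ≃ₐ[K] Ω) : sg t g = 1 ∨ sg t g = -1 := by
  unfold sg
  split_ifs
  · exact Or.inl rfl
  · exact Or.inr rfl

omit [CharZero Ω] in
theorem sg_sq (t : Ω) (g : Ω ≃ₐ[K] Ω) : sg t g * sg t g = 1 := by
  rcases sg_cases t g with h | h <;> rw [h] <;> norm_num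

theorem sg_spec {t : Ω} (h : ∃ c : K, t ^ 2 = algebraMap K Ω c) (g : Ω ≃ₐ[K] Ω) : g t = (sg t g : Ω) * t := by
  obtain ⟨c, hc⟩ := h
  have h1 : (g t) ^ 2 = t ^ 2 := by
    rw [← map_pow, hc, AlgEquiv.commutes]
  unfold sg
  split_ifs with h2
  · rw [Int.cast_one, one_mul, h2]
  · rcases sq_eq_sq_iff_eq_or_eq_neg.1 h1 with h3 | h3
    · exact absurd h3 h2
    · rw [Int.cast_neg, Int.cast_one, neg_one_mul, h3]

theorem sg_eq {t : Ω} (h0 : t ≠ 0) (g : Ω ≃ₐ[K] Ω) {n : ℤ} (hn : n = 1 ∨ n = -1) (h : g t = (n : Ω) * t) :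
    sg t g = n := by
  unfold sg
  rcases hn with rfl | rfl
  · rw [if_pos]
    rw [h, Int.cast_one, one_mul]
  · rw [if_neg]
    intro h1
    rw [h, Int.cast_neg, Int.cast_one, neg_one_mul] at h1
    have h2 : (2 : Ω) * t = 0 := by
      linear_combination -h1
    rcases mul_eq_zero.1 h2 with h3 | h3
    · exact two_ne_zero h3
    · exact h0 h3

omit [CharZero Ω] in
theorem sg_one_iff (t : Ω) (g : Ω ≃ₐ[K] Ω) : sg t g = 1 ↔ g t = t := by
  unfold sg
  split_ifs with h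
  · exact ⟨fun _ => h, fun _ => rfl⟩
  · exact ⟨fun h1 => absurd h1 (by norm_num), fun h1 => absurd h1 h⟩

theorem sg_mul {t : Ω} (h : ∃ c : K, t ^ 2 = algebraMap K Ω c) (h0 : t ≠ 0) (g g' : Ω ≃ₐ[K] Ω) :
    sg t (g * g') = sg t g * sg t g' := by
  refine sg_eq h0 _ ?_ ?_
  · rcases sg_cases t g with h1 | h1 <;> rcases sg_cases t g' with h2 | h2 <;> rw [h1, h2] <;> norm_num
  · rw [AlgEquiv.mul_apply, sg_spec h g', map_mul, map_intCast, sg_spec h g]
    push_cast
    ring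

theorem sg_prod {s t : Ω} (hs : ∃ c : K, s ^ 2 = algebraMap K Ω c) (ht : ∃ c : K, t ^ 2 = algebraMap K Ω c)
    (hs0 : s ≠ 0) (ht0 : t ≠ 0) (g : Ω ≃ₐ[K] Ω) : sg (s * t) g = sg s g * sg t g := by
  refine sg_eq (mul_ne_zero hs0 ht0) _ ?_ ?_
  · rcases sg_cases s g with h1 | h1 <;> rcases sg_cases t g with h2 | h2 <;> rw [h1, h2] <;> norm_num
  · rw [map_mul, sg_spec hs g, sg_spec ht g]
    push_cast
    ring

theorem sg_smul {t : Ω} (ht : ∃ c : K, t ^ 2 = algebraMap K Ω c) (h0 : t ≠ 0) {c : K} (hc : c ≠ 0)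
    (g : Ω ≃ₐ[K] Ω) : sg (algebraMap K Ω c * t) g = sg t g := by
  have hc' : algebraMap K Ω c ≠ 0 := by
    rwa [Ne, FaithfulSMul.algebraMap_eq_zero_iff]
  refine sg_eq (mul_ne_zero hc' h0) _ (sg_cases t g) ?_
  rw [map_mul, AlgEquiv.commutes, sg_spec ht g]
  ring

variable [IsAlgClosure K Ω]

theorem fix_mem {x : Ω} (h : ∀ g : Ω ≃ₐ[K] Ω, g x = x) : ∃ y : K, algebraMap K Ω y = x := by
  have h0 : CharZero K := ((algebraMap K Ω).charZero_iff (algebraMap K Ω).injective).mpr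
    inferInstance
  have h3 : IsGalois K Ω := inferInstance
  have h4 : x ∈ (⊥ : IntermediateField K Ω) := by
    rw [← InfiniteGalois.fixedField_fixingSubgroup (⊥ : IntermediateField K Ω),
      IntermediateField.mem_fixedField_iff]
    exact fun g _ => h g
  exact IntermediateField.mem_bot.1 h4

theorem exists_neg {t : Ω} {c : K} (ht : t ^ 2 = algebraMap K Ω c) (hc : ∀ x : K, x ^ 2 ≠ c) :
    ∃ g : Ω ≃ₐ[K] Ω, sg t g = -1 := by
  by_contra hno
  have h1 : ∀ g : Ω ≃ₐ[K] Ω, g t = t := by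
    intro g
    rcases sg_cases t g with h2 | h2
    · exact (sg_one_iff t g).1 h2
    · exact absurd ⟨g, h2⟩ hno
  obtain ⟨y, hy⟩ := fix_mem h1
  apply hc y
  apply (algebraMap K Ω).injective
  rw [map_pow, hy, ht]

end H35Q
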