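import Mathlib
import Pool.Agent.Lib.H35Q.G0
import Pool.Agent.Lib.H35Q.G1
import Pool.Agent.Lib.H35Q.G2
import Pool.Agent.Lib.H35Q.G5

/-! Chunk G6 (S/M): Galois action and embeddings. rx, ry, rne: coordinates of rho W g P (cases P, rfl; compare SE3_xc in H16C/SE3.lean). om_sq: ω is a root of X^2 + X + 1, (2 ω + 1)^2 = -3, so theta is a square root of a rational
number (hypothesis of sg_spec). rho_pim: g ω = ω (sg θ g = 1, θ = 2 ω + 1): rho (φ P) = φ (rho P) (both 0 or pt_ext: xc: g (ω x) = ω g x). sg θ g = -1: g θ = -θ, g ω = -1 - ω = ω^2: rho (φ P) = φ (φ (rho P)) by pt_ext, and by rel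
φ φ R = -R - φ R: rho (pim P) = R + 2 (-R - φ R) = -pim R, R = rho P. rho_T: δ^2 = a₆ rational; coordinates of rho T: 0, g δ = ± δ; -T has coordinates 0, -δ (pt_ext; delta_ne is not needed).
rho_aT: rho (a • T) = a • rho T = a • (sg δ g • T) and val_zsmul. map: mx, my, mne coordinates of Point.map ι P. exists_geo_map: exists_om for the curve over Ω' with ι ω (import G1; ι is a ring homomorphism) gives φ'; T' = map ι T; map ι (φ P) = φ' (map ι P) by
coordinates. (baseChange W Ω).a₆ = algebraMap K Ω W.a₆ is rfl. DecidableEq: classical. -/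

namespace H35Q

open H16C

open Classical in
theorem rx {K Ω : Type*} [Field K] [Field Ω] [Algebra K Ω] {W : WeierstrassCurve.Affine K} (g : Ω ≃ₐ[K] Ω)
    (P : Pt W Ω) : xc (rho W g P) = g (xc P) := by
  cases P with
  | zero => exact (map_zero g).symm
  | some x y h => rfl

open Classical in
theorem ry {K Ω : Type*} [Field K] [Field Ω] [Algebra K Ω] {W : WeierstrassCurve.Affine K} (g : Ω ≃ₐ[K] Ω)
    (P : Pt W Ω) : yc (rho W g P) = g (yc P) := by
  cases P with
  | zero => exact (map_zero g).symm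
  | some x y h => rfl

open Classical in
theorem rne {K Ω : Type*} [Field K] [Field Ω] [Algebra K Ω] {W : WeierstrassCurve.Affine K} (g : Ω ≃ₐ[K] Ω)
    {P : Pt W Ω} (h : P ≠ 0) : rho W g P ≠ 0 := by
  cases P with
  | zero => exact absurd rfl h
  | some x y h1 => exact WeierstrassCurve.Affine.Point.some_ne_zero _

theorem theta_rat (K : Type*) {Ω : Type*} [Field K] [Field Ω] [Algebra K Ω] {ω : Ω} (h : ω ^ 2 + ω + 1 = 0) :
    ∃ c : K, (2 * ω + 1) ^ 2 = algebraMap K Ω c := by
  refine ⟨-3, ?_⟩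
  rw [theta_sq h, map_neg, map_ofNat]

section

variable {K Ω : Type*} [Field K] [Field Ω] [Algebra K Ω] [CharZero Ω] {W : WeierstrassCurve.Affine K}
  [W.IsShortNF] [W.IsElliptic]

open Classical in
theorem rho_pim {ω δ : Ω} {φ : Pt W Ω →+ Pt W Ω} {T : Pt W Ω}
    (G : Geo (WeierstrassCurve.Affine.baseChange W Ω) ω δ φ T) (g : Ω ≃ₐ[K] Ω) (P : Pt W Ω) :
    rho W g (pim φ P) = sg (2 * ω + 1) g • pim φ (rho W g P) := by
  have hsp := sg_spec (theta_rat K G.om) g
  have hgθ : g (2 * ω + 1) = 2 * g ω + 1 := by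
    rw [map_add, map_mul, map_ofNat, map_one]
  rw [hgθ] at hsp
  rcases sg_cases (2 * ω + 1) g with h1 | h1
  · rw [h1, Int.cast_one, one_mul] at hsp
    have hω : g ω = ω := by
      have h2 : (2 : Ω) * (g ω - ω) = 0 := by linear_combination hsp
      rcases mul_eq_zero.1 h2 with h3 | h3
      · exact absurd h3 two_ne_zero
      · exact sub_eq_zero.1 h3
    have hφ : ∀ Q : Pt W Ω, rho W g (φ Q) = φ (rho W g Q) := by
      intro Q
      by_cases hQ : Q = 0
      · rw [hQ, map_zero, map_zero, map_zero]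
      · have h2 : φ Q ≠ 0 := fun h => hQ (G.phi.ne Q h)
        have h3 : φ (rho W g Q) ≠ 0 := fun h => rne g hQ (G.phi.ne _ h)
        apply pt_ext (rne g h2) h3
        · rw [rx, G.phi.x, G.phi.x, rx, map_mul, hω]
        · rw [ry, G.phi.y, G.phi.y, ry]
    rw [h1, one_smul, pim_apply, pim_apply, map_add, map_add, hφ]
  · rw [h1, Int.cast_neg, Int.cast_one, neg_one_mul] at hsp
    have hω : g ω = ω * ω := by
      have h2 : (2 : Ω) * (g ω - ω * ω) = 0 := by linear_combination hsp - 2 * G.om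
      rcases mul_eq_zero.1 h2 with h3 | h3
      · exact absurd h3 two_ne_zero
      · exact sub_eq_zero.1 h3
    have hφ : rho W g (φ P) = φ (φ (rho W g P)) := by
      by_cases hQ : P = 0
      · rw [hQ, map_zero, map_zero, map_zero, map_zero]
      · have h2 : φ P ≠ 0 := fun h => hQ (G.phi.ne P h)
        have h3 : φ (φ (rho W g P)) ≠ 0 := fun h => rne g hQ (G.phi.ne _ (G.phi.ne _ h))
        apply pt_ext (rne g h2) h3
        · rw [rx, G.phi.x, G.phi.x, G.phi.x, rx, map_mul, hω, mul_assoc]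
        · rw [ry, G.phi.y, G.phi.y, G.phi.y, ry]
    have hrel : φ (φ (rho W g P)) = -rho W g P - φ (rho W g P) := by
      have h2 := G.rel (rho W g P)
      rw [sub_eq_add_neg, ← neg_add, eq_neg_iff_add_eq_zero, add_comm (rho W g P), ← add_assoc]
      exact h2
    rw [h1, pim_apply, pim_apply, map_add, map_add, hφ, hrel]
    rw [neg_one_zsmul]
    abel

open Classical in
theorem rho_T {ω δ : Ω} {φ : Pt W Ω →+ Pt W Ω} {T : Pt W Ω}
    (G : Geo (WeierstrassCurve.Affine.baseChange W Ω) ω δ φ T) (g : Ω ≃ₐ[K] Ω) :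
    rho W g T = sg δ g • T := by
  have hsp := sg_spec (K := K) ⟨W.a₆, G.sq⟩ g
  rcases sg_cases δ g with h1 | h1
  · rw [h1, Int.cast_one, one_mul] at hsp
    rw [h1, one_smul]
    apply pt_ext (rne g G.ne) G.ne
    · rw [rx, G.xT, map_zero]
    · rw [ry, G.yT, hsp]
  · rw [h1, Int.cast_neg, Int.cast_one, neg_one_mul] at hsp
    rw [h1, neg_one_zsmul]
    apply pt_ext (rne g G.ne) (neg_ne_zero.mpr G.ne)
    · rw [rx, xc_neg, G.xT, map_zero]
    · rw [ry, yc_neg, G.yT, hsp]

open Classical in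
theorem rho_aT {ω δ : Ω} {φ : Pt W Ω →+ Pt W Ω} {T : Pt W Ω}
    (G : Geo (WeierstrassCurve.Affine.baseChange W Ω) ω δ φ T) (g : Ω ≃ₐ[K] Ω) (a : ZMod 3) :
    rho W g (a.val • T) = ((sg δ g : ZMod 3) * a).val • T := by
  rw [map_nsmul, rho_T G, val_zsmul G.three_T, smul_comm]

end

section

variable {K Ω : Type*} [Field K] [Field Ω] [Algebra K Ω] {W : WeierstrassCurve.Affine K}
variable {Ω' : Type*} [Field Ω'] [Algebra K Ω'] (ι : Ω →ₐ[K] Ω')

open Classical in
theorem mx (P : Pt W Ω) : xc (WeierstrassCurve.Affine.Point.map ι P : Pt W Ω') = ι (xc P) := by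
  cases P with
  | zero => exact (map_zero ι).symm
  | some x y h => rfl

open Classical in
theorem my (P : Pt W Ω) : yc (WeierstrassCurve.Affine.Point.map ι P : Pt W Ω') = ι (yc P) := by
  cases P with
  | zero => exact (map_zero ι).symm
  | some x y h => rfl

open Classical in
theorem mne {P : Pt W Ω} (h : P ≠ 0) : (WeierstrassCurve.Affine.Point.map ι P : Pt W Ω') ≠ 0 := by
  cases P with
  | zero => exact absurd rfl h
  | some x y h1 => exact WeierstrassCurve.Affine.Point.some_ne_zero _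

open Classical in
theorem geo_map [CharZero Ω] [CharZero Ω'] [W.IsShortNF] [W.IsElliptic] {ω δ : Ω} {φ : Pt W Ω →+ Pt W Ω} {T : Pt W Ω}
    (G : Geo (WeierstrassCurve.Affine.baseChange W Ω) ω δ φ T) :
    ∃ φ' : Pt W Ω' →+ Pt W Ω', Geo (WeierstrassCurve.Affine.baseChange W Ω') (ι ω) (ι δ) φ'
      (WeierstrassCurve.Affine.Point.map ι T : Pt W Ω') ∧
      ∀ P, (WeierstrassCurve.Affine.Point.map ι (pim φ P) : Pt W Ω') =
        pim φ' (WeierstrassCurve.Affine.Point.map ι P : Pt W Ω') := by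
  have h4 : (WeierstrassCurve.Affine.baseChange W Ω').a₄ = 0 := by
    have h1 : algebraMap K Ω W.a₄ = 0 := G.a4
    have h2 : W.a₄ = 0 := (algebraMap K Ω).injective (by rw [h1, map_zero])
    show algebraMap K Ω' W.a₄ = 0
    rw [h2, map_zero]
  have hω : (ι ω) ^ 2 + ι ω + 1 = 0 := by
    have h1 := congrArg ι G.om
    rw [map_add, map_add, map_pow, map_one, map_zero] at h1
    exact h1
  have hsq : (ι δ) ^ 2 = (WeierstrassCurve.Affine.baseChange W Ω').a₆ := by
    have h1 : δ ^ 2 = algebraMap K Ω W.a₆ := G.sq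
    show (ι δ) ^ 2 = algebraMap K Ω' W.a₆
    rw [← map_pow, h1, AlgHom.commutes]
  obtain ⟨φ', hφ'⟩ := exists_om h4 hω
  refine ⟨φ', ⟨h4, hω, hsq, hφ', mne ι G.ne, ?_, ?_⟩, ?_⟩
  · rw [mx, G.xT, map_zero]
  · rw [my, G.yT]
  · have hφ : ∀ P : Pt W Ω, (WeierstrassCurve.Affine.Point.map ι (φ P) : Pt W Ω') =
        φ' (WeierstrassCurve.Affine.Point.map ι P : Pt W Ω') := by
      intro P
      by_cases hP : P = 0
      · rw [hP, map_zero, map_zero, map_zero]
      · have h2 : φ P ≠ 0 := fun h => hP (G.phi.ne P h)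
        have h3 : φ' (WeierstrassCurve.Affine.Point.map ι P : Pt W Ω') ≠ 0 :=
          fun h => mne ι hP (hφ'.ne _ h)
        apply pt_ext (mne ι h2) h3
        · rw [mx, G.phi.x, hφ'.x, mx, map_mul]
        · rw [my, G.phi.y, hφ'.y, my]
    intro P
    rw [pim_apply, pim_apply, map_add, map_add, hφ]

end

end H35Q
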