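import Mathlib
import Pool.Agent.Lib.H16C.T1
import Pool.Agent.Lib.H35Q.G6

/-! Chunk S1 (M): coboundaries are in ZSha; 3-torsion of Sha. cob_coc: g ↦ g R - R is a cocycle (act is a homomorphism in g: cases R, rfl / rho) and vanishes on the g fixing the coordinates of R (F = K(xc R, yc R), finite: algebraic elements).
cob_loc: it is locally trivial over every L: Q = map ι R (copy TR3_loc in H16C/TR3.lean: Point.map_map, the two embeddings ι ∘ g and σ ∘ ι are equal). sha_iff: Sha = ZSha / (BSha inside ZSha); z = class of c (Quotient.out or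
QuotientAddGroup.mk_surjective), z = 0 iff c in BSha (QuotientAddGroup.eq_zero_iff, AddSubgroup.mem_addSubgroupOf, see sha_hom in H16C/TR3.lean). (left to right) 3 c = 0 implies 3 z = 0, z = 0. (right to left) 3 z = 0: 3 c(g) = g Q - Q;
divisible (H16C.T1, n = 3, the curve over Ω is short and elliptic): 3 R = Q; c' = c - (g R - R) is in ZSha (cob_coc, cob_loc), 3 c' = 0, so c' and c are coboundaries. -/

open NumberField IsDedekindDomain

namespace H35Q

open H16C

theorem s1_some {F : Type*} [Field F] {V : WeierstrassCurve.Affine F} {x y x' y' : F}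
    {h : V.Nonsingular x y} {h' : V.Nonsingular x' y'} (hx : x = x') (hy : y = y') :
    WeierstrassCurve.Affine.Point.some x y h = WeierstrassCurve.Affine.Point.some x' y' h' := by
  subst hx hy
  rfl

open Classical in
theorem act_eq {K Ω : Type*} [Field K] [Field Ω] [Algebra K Ω] (W : WeierstrassCurve.Affine K) (g : Ω ≃ₐ[K] Ω)
    (P : Pt W Ω) : act W Ω g P = rho W g P := rfl

open Classical in
theorem cob_coc {K Ω : Type*} [Field K] [Field Ω] [Algebra K Ω] [Algebra.IsAlgebraic K Ω]
    (W : WeierstrassCurve.Affine K) (R : Pt W Ω) : IsCocycle W Ω (fun g => rho W g R - R) := by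
  refine ⟨fun g h => ?_, ?_⟩
  · have h1 : rho W (g * h) R = rho W g (rho W h R) := by
      rw [map_mul]
      rfl
    show rho W (g * h) R - R = (rho W g R - R) + act W Ω g (rho W h R - R)
    rw [h1, map_sub, act_eq, act_eq]
    abel
  · rcases R with _ | ⟨x, y, hxy⟩
    · refine ⟨⊥, inferInstance, fun g _ => ?_⟩
      show rho W g 0 - 0 = 0
      rw [map_zero, sub_zero]
    · refine ⟨IntermediateField.adjoin K ({x, y} : Set Ω), ?_, fun g hg => ?_⟩
      · exact IntermediateField.finiteDimensional_adjoin fun z _ =>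
          Algebra.IsIntegral.isIntegral z
      · rw [IntermediateField.mem_fixingSubgroup_iff] at hg
        have hx : g x = x := hg x (IntermediateField.subset_adjoin K _ (by simp))
        have hy : g y = y := hg y (IntermediateField.subset_adjoin K _ (by simp))
        have h2 : rho W g (WeierstrassCurve.Affine.Point.some x y hxy : Pt W Ω) =
            (WeierstrassCurve.Affine.Point.some x y hxy : Pt W Ω) := by
          exact s1_some hx hy
        show rho W g (WeierstrassCurve.Affine.Point.some x y hxy : Pt W Ω) - _ = 0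
        rw [h2, sub_self]

open Classical in
theorem cob_loc {K Ω : Type*} [Field K] [Field Ω] [Algebra K Ω] (W : WeierstrassCurve.Affine K) (R : Pt W Ω)
    (L : Type*) [Field L] [Algebra K L] : LocTriv W Ω L (fun g => rho W g R - R) := by
  intro ι
  refine ⟨WeierstrassCurve.Affine.Point.map ι R, fun σ g h => ?_⟩
  show WeierstrassCurve.Affine.Point.map ι (rho W g R - R) = _
  rw [map_sub, ← act_eq]
  congr 1
  unfold act
  rw [WeierstrassCurve.Affine.Point.map_map, WeierstrassCurve.Affine.Point.map_map]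
  have h1 : ι.comp (g : Ω →ₐ[K] Ω) =
      ((σ.restrictScalars K : AlgebraicClosure L ≃ₐ[K] AlgebraicClosure L) :
        AlgebraicClosure L →ₐ[K] AlgebraicClosure L).comp ι := AlgHom.ext h
  rw [h1]

open Classical in
theorem sha_iff {K Ω : Type*} [Field K] [NumberField K] [Field Ω] [Algebra K Ω] [IsAlgClosure K Ω] [CharZero Ω]
    (W : WeierstrassCurve.Affine K) [W.IsShortNF] [W.IsElliptic] :
    (∀ z : Sha W Ω, (3 : ℕ) • z = 0 → z = 0) ↔ CocZ W Ω := by
  let π : ZSha W Ω →+ Sha W Ω := QuotientAddGroup.mk' ((BSha W Ω).addSubgroupOf (ZSha W Ω))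
  have hπ : ∀ z : ZSha W Ω, π z = 0 ↔ IsCoboundary W Ω z.1 := by
    intro z
    refine (QuotientAddGroup.eq_zero_iff (N := (BSha W Ω).addSubgroupOf (ZSha W Ω)) z).trans ?_
    exact AddSubgroup.mem_addSubgroupOf
  have hsurj : Function.Surjective π := QuotientAddGroup.mk'_surjective _
  have : IsAlgClosed Ω := IsAlgClosure.isAlgClosed K
  constructor
  · intro H c hc1 hc2 hc3
    have h1 : (3 : ℕ) • π ⟨c, hc1, hc2⟩ = 0 := by
      rw [← map_nsmul]
      have h2 : (3 : ℕ) • (⟨c, hc1, hc2⟩ : ZSha W Ω) = 0 := by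
        apply Subtype.ext
        funext g
        exact hc3 g
      rw [h2, map_zero]
    exact (hπ _).1 (H _ h1)
  · intro H z hz
    obtain ⟨c, rfl⟩ := hsurj z
    rw [← map_nsmul, hπ] at hz
    obtain ⟨Q, hQ⟩ := hz
    obtain ⟨R, hR⟩ := divisible (W := WeierstrassCurve.Affine.baseChange W Ω) 3 (by norm_num) Q
    rw [hπ]
    let d : ZSha W Ω := ⟨fun g => rho W g R - R, cob_coc W R,
      ⟨fun v => cob_loc W R _, fun v => cob_loc W R _⟩⟩
    have hd : ∀ g, d.1 g = act W Ω g R - R := fun g => rfl
    have h1 : IsCoboundary W Ω (c - d).1 := by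
      refine H _ (c - d).2.1 (c - d).2.2 fun g => ?_
      have h2 : (3 : ℕ) • c.1 g = act W Ω g Q - Q := hQ g
      have h3 : (c - d).1 g = c.1 g - d.1 g := rfl
      rw [h3, nsmul_sub, h2, hd, nsmul_sub, ← map_nsmul, hR, sub_self]
    have h4 : IsCoboundary W Ω ((c - d).1 + d.1) :=
      isCoboundary_add W Ω h1 ⟨R, fun g => hd g⟩
    have h5 : (c - d).1 + d.1 = c.1 := by
      funext g
      exact sub_add_cancel (c.1 g) (d.1 g)
    rw [h5] at h4
    exact h4

end H35Q
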