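import Mathlib
import Pool.Agent.Lib.H16C.TR2
import Pool.Agent.Lib.H35Q.G6

/-! Chunk L5 (M): infinite places. c a cocycle with 3 c = 0, v an infinite place, ι : Ω → AlgebraicClosure v.Completion, I a square root of -1 in Ω. If some τ in Gal(AlgebraicClosure v.Completion / v.Completion) has restriction h (exists_restrict) with h I <> I (so h I = -I), put
Q = map ι (c h); otherwise Q = 0. For σ with restriction g: if g I = I then g = 1 (place_inf) and σ is the identity on the image of ι; c 1 = 0; claim 0 = σ Q - Q (Q is in the image of ι: map ι (act g P) = act σ (map ι P), see TR3_loc in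
H16C/TR3.lean; or: place_inf type argument gives σ = 1, TR2_real, TR2_complex). If g I <> I, then h is defined, h^-1 g fixes I so g = h (place_inf for τ^-1 σ); h h fixes I so h h = 1, 0 = c(h h) = c h + h (c h), so h (c h) - c h = -2 c h = c h (3 c h = 0), map ι. -/

open NumberField IsDedekindDomain

namespace H35Q

open H16C

open Classical in
theorem act_map {K Ω : Type*} [Field K] [Field Ω] [Algebra K Ω] (W : WeierstrassCurve.Affine K) {L : Type*}
    [Field L] [Algebra K L] (ι : Ω →ₐ[K] AlgebraicClosure L) (P : Pt W Ω)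
    (σ : AlgebraicClosure L ≃ₐ[L] AlgebraicClosure L) (g : Ω ≃ₐ[K] Ω) (h : ∀ x, ι (g x) = σ (ι x)) :
    act W (AlgebraicClosure L) (σ.restrictScalars K)
        (WeierstrassCurve.Affine.Point.map ι P : Pt W (AlgebraicClosure L)) =
      WeierstrassCurve.Affine.Point.map ι (act W Ω g P) := by
  unfold act
  rw [WeierstrassCurve.Affine.Point.map_map, WeierstrassCurve.Affine.Point.map_map]
  have h1 : ι.comp (g : Ω →ₐ[K] Ω) =
      ((σ.restrictScalars K : AlgebraicClosure L ≃ₐ[K] AlgebraicClosure L) :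
        AlgebraicClosure L →ₐ[K] AlgebraicClosure L).comp ι := AlgHom.ext h
  rw [h1]

open Classical in
theorem loc_inf {K Ω : Type*} [Field K] [NumberField K] [Field Ω] [Algebra K Ω] [IsAlgClosure K Ω] [CharZero Ω]
    (W : WeierstrassCurve.Affine K) (c : (Ω ≃ₐ[K] Ω) → Pt W Ω) (hc : IsCocycle W Ω c)
    (h3 : ∀ g, (3 : ℕ) • c g = 0) (v : InfinitePlace K) : LocTriv W Ω v.Completion c := by
  intro ι
  have hcl : IsAlgClosed Ω := IsAlgClosure.isAlgClosed K
  obtain ⟨I, hI⟩ := IsAlgClosed.exists_pow_nat_eq (-1 : Ω) (n := 2) (by norm_num)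
  have hneg : ∀ g : Ω ≃ₐ[K] Ω, g I ≠ I → g I = -I := by
    intro g hg
    have h1 : (g I) ^ 2 = I ^ 2 := by rw [← map_pow, hI, map_neg, map_one]
    exact (sq_eq_sq_iff_eq_or_eq_neg.1 h1).resolve_left hg
  have h10 : c 1 = 0 := by
    have h := hc.1 1 1
    have e : act W Ω (1 : Ω ≃ₐ[K] Ω) (c 1) = c 1 := by
      change rho W (1 : Ω ≃ₐ[K] Ω) (c 1) = c 1
      rw [map_one]
      rfl
    rw [mul_one, e] at h
    exact left_eq_add.1 h
  by_cases hex : ∃ (τ : AlgebraicClosure v.Completion ≃ₐ[v.Completion] AlgebraicClosure v.Completion)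
      (h : Ω ≃ₐ[K] Ω), (∀ x, ι (h x) = τ (ι x)) ∧ h I ≠ I
  · obtain ⟨τ, h, hτ, hhI⟩ := hex
    refine ⟨WeierstrassCurve.Affine.Point.map ι (c h), fun σ g hσ => ?_⟩
    rw [act_map W ι (c h) σ g hσ]
    by_cases hg : g I = I
    · have hg1 : g = 1 := place_inf v ι I hI σ g hσ hg
      subst hg1
      have e : act W Ω (1 : Ω ≃ₐ[K] Ω) (c h) = c h := by
        change rho W (1 : Ω ≃ₐ[K] Ω) (c h) = c h
        rw [map_one]
        rfl
      rw [h10, e, map_zero, sub_self]
    · have hinv : ∀ x, ι ((h⁻¹ * g) x) = (τ⁻¹ * σ) (ι x) := by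
        intro x
        apply τ.injective
        have e1 : τ ((τ⁻¹ * σ) (ι x)) = σ (ι x) := τ.apply_symm_apply _
        have e2 : h ((h⁻¹ * g) x) = g x := h.apply_symm_apply _
        rw [e1, ← hτ, e2, hσ]
      have hfix : (h⁻¹ * g) I = I := by
        apply h.injective
        have e2 : h ((h⁻¹ * g) I) = g I := h.apply_symm_apply _
        rw [e2, hneg h hhI, hneg g hg]
      have h1 := place_inf v ι I hI (τ⁻¹ * σ) (h⁻¹ * g) hinv hfix
      have hgh : g = h := (inv_mul_eq_one.1 h1).symm
      subst hgh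
      have hgg : g * g = 1 := by
        refine place_inf v ι I hI (τ * τ) (g * g) (fun x => ?_) ?_
        · change ι (g (g x)) = τ (τ (ι x))
          rw [hτ, hτ]
        · change g (g I) = I
          rw [hneg g hg, map_neg, hneg g hg, neg_neg]
      have h2 := hc.1 g g
      rw [hgg, h10] at h2
      have h4 : act W Ω g (c g) = -(c g) := (neg_eq_of_add_eq_zero_right h2.symm).symm
      rw [h4, ← map_sub]
      congr 1
      have h5 := h3 g
      rw [show (3 : ℕ) = 2 + 1 from rfl, add_nsmul, one_nsmul, two_nsmul] at h5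
      rw [eq_sub_iff_add_eq, eq_neg_iff_add_eq_zero]
      exact h5
  · push Not at hex
    refine ⟨0, fun σ g hσ => ?_⟩
    have hg1 : g = 1 := place_inf v ι I hI σ g hσ (hex σ g hσ)
    subst hg1
    rw [h10, map_zero, map_zero, sub_zero]

end H35Q
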