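import Mathlib
import Pool.Agent.Lib.H35X.L2
import Pool.Agent.Lib.H35Q.Defs

/-! Chunk F1 (M): y^2 = x^3 + D has infinitely many points over the completion K_w. Points near infinity: for z in K_w nonzero with v(z) small, 1 - D z^6 is close to 1, so it is a cube r^3 (Hensel: elements with v(x - 1) <= v(27) or so are cubes; there are lemmas in
Lib/H35X/L2.lean (and H16A/C1, C2, H55B/D1); or squares: 1 + D z^6 = r^2, x = z^-2, y = r z^-3). Cubes: x = r z^-2, y = z^-3: x^3 + D = (1 - D z^6) z^-6 + D = z^-6 = y^2. Different z with different y = z^-3: z = p^m, p a uniformizer (w.valuation_exists_uniformizer K, valuedAdicCompletion_eq_valuation'), m large: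
the valuations of y are different, so the points are different. Infinite.of_injective from ℕ. exists_pt (H16C.D1) gives the point; the curve over K_w is short and elliptic (instances short_baseChange, elliptic_baseChange). -/

open NumberField IsDedekindDomain

namespace H35Q

open H16C

theorem f1_small {K : Type} [Field K] [NumberField K] (w : HeightOneSpectrum (𝓞 K)) (π c : w.adicCompletion K)
    (hπ : Valued.v π = WithZero.exp (-1 : ℤ)) :
    ∃ N : ℕ, ∀ m : ℕ, N ≤ m → Valued.v (c * π ^ (6 * m)) < 1 := by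
  by_cases hc : Valued.v c = 0
  · refine ⟨0, fun m _ => ?_⟩
    rw [map_mul, hc, zero_mul]
    exact zero_lt_one
  · obtain ⟨k, hk⟩ : ∃ k : ℤ, Valued.v c = WithZero.exp k := ⟨WithZero.log (Valued.v c), (WithZero.exp_log hc).symm⟩
    refine ⟨k.toNat + 1, fun m hm => ?_⟩
    rw [map_mul, map_pow, hπ, hk, ← WithZero.exp_nsmul, ← WithZero.exp_add, ← WithZero.exp_zero, WithZero.exp_lt_exp]
    have h1 : k ≤ k.toNat := Int.self_le_toNat k
    rw [nsmul_eq_mul]
    push_cast
    have h2 : ((k.toNat + 1 : ℕ) : ℤ) ≤ m := by exact_mod_cast hm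
    push_cast at h2
    linarith [Int.natCast_nonneg m]

theorem f1_cube {K : Type} [Field K] [NumberField K] (w : HeightOneSpectrum (𝓞 K)) (x : w.adicCompletion K)
    (hx : Valued.v (x - 1) < Valued.v (9 : w.adicCompletion K)) : ∃ s : w.adicCompletion K, s ^ 3 = x := by
  have h3 : Valued.v (3 : w.adicCompletion K) ≤ 1 := by
    have h1 : ((3 : w.adicCompletionIntegers K) : w.adicCompletion K) = 3 := rfl
    rw [← h1]
    exact (3 : w.adicCompletionIntegers K).2
  have h9 : Valued.v (9 : w.adicCompletion K) ≤ 1 := by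
    have e : (9 : w.adicCompletion K) = 3 * 3 := by norm_num
    rw [e, map_mul]
    exact mul_le_one₀ h3 zero_le h3
  rcases lt_or_eq_of_le h3 with h | h
  · exact H35X.cube_nine w h x hx.le
  · obtain ⟨s, hs, -⟩ := H35X.cube_one w h x (hx.trans_le h9)
    exact ⟨s, hs⟩

open Classical in
theorem inf_loc {K : Type} [Field K] [NumberField K] (W : WeierstrassCurve.Affine K) [W.IsShortNF] [W.IsElliptic]
    (h4 : W.a₄ = 0) (w : HeightOneSpectrum (𝓞 K)) : Infinite (Pt W (w.adicCompletion K)) := by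
  obtain ⟨π0, hπ0⟩ := w.valuation_exists_uniformizer K
  obtain ⟨π, hπd⟩ : ∃ π : w.adicCompletion K, π = algebraMap K (w.adicCompletion K) π0 := ⟨_, rfl⟩
  have hπ : Valued.v π = WithZero.exp (-1 : ℤ) := by
    rw [hπd, ← hπ0]
    exact HeightOneSpectrum.valuedAdicCompletion_eq_valuation' w π0
  have hπne : π ≠ 0 := by
    intro h
    rw [h, map_zero] at hπ
    exact WithZero.exp_ne_zero hπ.symm
  have h9 : (9 : w.adicCompletion K) ≠ 0 := by
    have h1 : (algebraMap K (w.adicCompletion K)) 9 = 9 := map_ofNat _ 9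
    rw [← h1]
    exact (_root_.map_ne_zero _).2 (by norm_num)
  obtain ⟨D, hD⟩ : ∃ D : w.adicCompletion K, D = algebraMap K (w.adicCompletion K) W.a₆ := ⟨_, rfl⟩
  obtain ⟨N, hN⟩ := f1_small w π (D / 9) hπ
  have hpt : ∀ m : ℕ, ∃ P : Pt W (w.adicCompletion K), P ≠ 0 ∧ yc P = (π ^ (N + m))⁻¹ ^ 3 := by
    intro m
    have h1 := hN (N + m) (Nat.le_add_right _ _)
    have h2 : Valued.v ((1 - D * π ^ (6 * (N + m))) - 1) < Valued.v (9 : w.adicCompletion K) := by
      have e : (1 - D * π ^ (6 * (N + m))) - 1 = -(9 * (D / 9 * π ^ (6 * (N + m)))) := by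
        field_simp
        ring
      rw [e, Valuation.map_neg, map_mul]
      have hv9 : 0 < Valued.v (9 : w.adicCompletion K) := zero_lt_iff.2 ((Valuation.ne_zero_iff _).2 h9)
      calc Valued.v (9 : w.adicCompletion K) * Valued.v (D / 9 * π ^ (6 * (N + m))) <
          Valued.v (9 : w.adicCompletion K) * 1 := (mul_lt_mul_iff_right₀ hv9).2 h1
        _ = Valued.v (9 : w.adicCompletion K) := mul_one _
    obtain ⟨r, hr⟩ := f1_cube w _ h2
    have h0 : π ^ (N + m) ≠ 0 := pow_ne_zero _ hπne
    have hE : ((π ^ (N + m))⁻¹ ^ 3) ^ 2 = (r * (π ^ (N + m))⁻¹ ^ 2) ^ 3 +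
        (WeierstrassCurve.Affine.baseChange W (w.adicCompletion K)).a₄ * (r * (π ^ (N + m))⁻¹ ^ 2) +
        (WeierstrassCurve.Affine.baseChange W (w.adicCompletion K)).a₆ := by
      have e4 : (WeierstrassCurve.Affine.baseChange W (w.adicCompletion K)).a₄ = 0 := by
        change algebraMap K (w.adicCompletion K) W.a₄ = 0
        rw [h4, map_zero]
      have e6 : (WeierstrassCurve.Affine.baseChange W (w.adicCompletion K)).a₆ = D := hD.symm
      rw [e4, e6, mul_pow, hr, show π ^ (6 * (N + m)) = (π ^ (N + m)) ^ 6 by rw [← pow_mul, mul_comm]]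
      field_simp
      ring
    obtain ⟨P, hP, -, hy⟩ := exists_pt _ _ hE
    exact ⟨P, hP, hy⟩
  choose P hP hy using hpt
  apply Infinite.of_injective P
  intro m n hmn
  have h1 : (π ^ (N + m))⁻¹ ^ 3 = (π ^ (N + n))⁻¹ ^ 3 := by
    rw [← hy, ← hy, hmn]
  have h2 : (Valued.v π) ^ (3 * (N + m)) = (Valued.v π) ^ (3 * (N + n)) := by
    rw [← map_pow, ← map_pow]
    congr 1
    rw [inv_pow, inv_pow, inv_inj, ← pow_mul, ← pow_mul] at h1
    rw [mul_comm 3, mul_comm 3]
    exact h1
  have h3 : (0 : WithZero (Multiplicative ℤ)) < Valued.v π := zero_lt_iff.2 ((Valuation.ne_zero_iff _).2 hπne)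
  have h4' : Valued.v π ≠ 1 := by
    rw [hπ]
    intro h
    rw [← WithZero.exp_zero, WithZero.exp_inj] at h
    omega
  have h5 := pow_right_injective₀ h3 h4' h2
  omega

end H35Q
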