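import Mathlib
import Pool.Agent.Lib.H35Q.G2

/-! Chunk G3 (M): coordinates of pim P = P + 2 φ P. By rel: P + φ P = -φ (φ P), so pim φ P = φ P - φ (φ P) = (ω x, y) - (ω^2 x, y); x nonzero, ω x <> ω^2 x, the slope of (ω x, y) and (ω^2 x, -y) is
l = 2 y/(ω x - ω^2 x) = 2 y/((2 ω + 1) x) (ω - ω^2 = 2 ω + 1), X = l^2 - ω x - ω^2 x = l^2 + x (D1_xc_sub), Y = -(l (X - ω x) + y). With (2 ω + 1)^2 = -3 and y^2 = x^3 + a₆: 3 x^2 X = -(x^3 + 4 a₆),
3 (2 ω + 1) x^3 Y = -y (x^3 - 8 a₆). (Y: use Affine.Point.add_of_X_ne or the lemmas of H35Z/P1.lean p1_add as a model; or a formula in H16C.D1 for yc.) pim φ P is nonzero because ω x <> ω^2 x (ne_zero_of_xc_ne).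
cube: with the two formulas, θ = 2 ω + 1, θ^3 = -3 θ, δ^2 = a₆: (y - θ δ)^3 = y (x^3 - 8 a₆) - 3 θ δ x^3 (expand: y^3 - 3 θ δ y^2 - 9 a₆ y + 3 θ a₆ δ, y^2 = x^3 + a₆), and θ^3 x^3 (Y + δ) = -3 θ x^3 Y - 3 θ δ x^3.
ker: if pim φ P = 0 and P <> 0 then xc P = 0 by coord, so P = T or -T = 2 T (val 1, 2) by xzero; conversely pim_T. -/

namespace H35Q

open H16C

variable {F : Type*} [Field F] [CharZero F] [DecidableEq F] {V : WeierstrassCurve.Affine F} [V.IsShortNF]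
  [V.IsElliptic] {ω δ : F} {φ : V.Point →+ V.Point} {T : V.Point}

theorem g3_data (G : Geo V ω δ φ T) {P : V.Point} (h0 : P ≠ 0) (hx : xc P ≠ 0) :
    pim φ P ≠ 0 ∧ 3 * xc P ^ 2 * xc (pim φ P) = -(xc P ^ 3 + 4 * V.a₆) ∧
      3 * (2 * ω + 1) * xc P ^ 3 * yc (pim φ P) = -(yc P * (xc P ^ 3 - 8 * V.a₆)) := by
  have hrel := G.rel P
  have hφ : φ P ≠ 0 := g2_phi_ne G h0
  have hφφ : φ (φ P) ≠ 0 := g2_phi_ne G hφ
  have hn : -(φ (φ P)) ≠ 0 := neg_ne_zero.mpr hφφ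
  have hω := G.om
  have hθ : (2 : F) * ω + 1 ≠ 0 := theta_ne hω
  have hpi : pim φ P = φ P + -(φ (φ P)) := by
    have h1 : P = -(φ (φ P)) - φ P := by
      rw [eq_sub_iff_add_eq, eq_neg_iff_add_eq_zero]
      rw [← hrel]
      abel
    rw [pim_apply]
    nth_rewrite 1 [h1]
    abel
  have xx : xc (-(φ (φ P))) = ω ^ 2 * xc P := by
    rw [xc_neg, G.phi.x (φ P), G.phi.x P]
    ring
  have yy : yc (-(φ (φ P))) = -yc P := by
    rw [yc_neg, G.phi.y (φ P), G.phi.y P]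
  have hne : xc (φ P) ≠ xc (-(φ (φ P))) := by
    rw [xx, G.phi.x P]
    intro h
    have h3 : (2 * ω + 1) * xc P = 0 := by linear_combination h + xc P * hω
    rcases mul_eq_zero.mp h3 with h4 | h4
    · exact hθ h4
    · exact hx h4
  have hS := (ne_zero_of_xc_ne hφ hn hne).1
  have e1 := D1_xc_add hφ hn hne
  have e2 := g2_yc_add hφ hn hne
  rw [← hpi] at hS e1 e2
  rw [xx, yy, G.phi.x P, G.phi.y P] at e1 e2
  have hE : yc P ^ 2 = xc P ^ 3 + V.a₆ := by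
    rw [eqn h0, G.a4]
    ring
  refine ⟨hS, ?_⟩
  generalize xc (pim φ P) = X at *
  generalize yc (pim φ P) = Y at *
  generalize xc P = x at *
  generalize yc P = y at *
  have hd : ω * x - ω ^ 2 * x = (2 * ω + 1) * x := by linear_combination -x * hω
  rw [hd] at e1 e2
  have ht := theta_sq hω
  generalize ht' : 2 * ω + 1 = t at *
  have e1' : 3 * x ^ 2 * X = -(x ^ 3 + 4 * V.a₆) := by
    have h6 : t ^ 2 * x ^ 2 * X = 4 * y ^ 2 - (ω + ω ^ 2) * x * (t ^ 2 * x ^ 2) := by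
      rw [e1]
      field_simp
      ring
    rw [ht] at h6
    linear_combination -h6 - 4 * hE - 3 * x ^ 3 * hω
  have e2' : t * x * Y = -(2 * y * (X - ω * x) + t * x * y) := by
    rw [e2]
    field_simp
    ring
  refine ⟨e1', ?_⟩
  linear_combination 3 * x ^ 2 * e2' - 2 * y * e1' + 3 * x ^ 3 * y * ht'

theorem Geo.coord (G : Geo V ω δ φ T) {P : V.Point} (h0 : P ≠ 0) (hx : xc P ≠ 0) :
    pim φ P ≠ 0 ∧ 3 * xc P ^ 2 * xc (pim φ P) = -(xc P ^ 3 + 4 * V.a₆) ∧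
      3 * (2 * ω + 1) * xc P ^ 3 * yc (pim φ P) = -(yc P * (xc P ^ 3 - 8 * V.a₆)) :=
  g3_data G h0 hx

theorem Geo.cube (G : Geo V ω δ φ T) {P : V.Point} (h0 : P ≠ 0) (hx : xc P ≠ 0) :
    (yc P - (2 * ω + 1) * δ) ^ 3 = (2 * ω + 1) ^ 3 * xc P ^ 3 * (yc (pim φ P) + δ) := by
  obtain ⟨-, -, h3⟩ := G.coord h0 hx
  have hE : yc P ^ 2 = xc P ^ 3 + V.a₆ := by
    rw [eqn h0, G.a4]
    ring
  have hs := G.sq
  have ht := theta_sq G.om
  rw [← hs] at hE h3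
  generalize yc (pim φ P) = Y at *
  generalize xc P = x at *
  generalize yc P = y at *
  generalize 2 * ω + 1 = t at *
  linear_combination h3 + (y - 3 * t * δ) * hE +
    (3 * y * δ ^ 2 - t * δ ^ 3 - t * x ^ 3 * (Y + δ)) * ht

theorem Geo.ker (G : Geo V ω δ φ T) (P : V.Point) : pim φ P = 0 ↔ ∃ a : ZMod 3, P = a.val • T := by
  constructor
  · intro h
    by_cases h0 : P = 0
    · exact ⟨0, by rw [h0]; simp⟩
    by_cases hx : xc P = 0
    · rcases G.xzero h0 hx with h1 | h1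
      · refine ⟨1, ?_⟩
        rw [h1]
        have : (1 : ZMod 3).val = 1 := rfl
        rw [this, one_nsmul]
      · refine ⟨2, ?_⟩
        have : (2 : ZMod 3).val = 2 := rfl
        rw [h1, this, neg_eq_iff_add_eq_zero, ← G.three_T]
        abel
    · exact absurd h (G.coord h0 hx).1
  · rintro ⟨a, rfl⟩
    rw [map_nsmul, G.pim_T, nsmul_zero]

end H35Q
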