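import Mathlib
import Pool.Agent.Lib.H16C.T1
import Pool.Agent.Lib.H35Q.G3
import Pool.Agent.Lib.H35Q.G6

/-! Chunk L1 (M): avoid. L a field over K, Ω' an algebraic closure of L, the curve has infinitely many points over L. Take S₀ in Pt W L and S = its image in Pt W Ω' (Point.map of IsScalarTower.toAlgHom K L Ω', injective: WeierstrassCurve.Affine.Point.map_injective); S is fixed by
all σ in Gal(Ω'/L) (coordinates, rx ry). The set of R with R = 0 or xc R = 0 is finite (H16C.T1_fiber / T1_fin, or xzero), and for given R the set of the S with 3 • (Q + S) = R is finite (two of them differ by an element killed by 3: tors_finite in H16C/T1.lean).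
So only finitely many S₀ are bad; infinitely many S₀.
desc: a point R of Pt W Ω' fixed by all σ in Gal(Ω'/L) with R nonzero has coordinates in L (fix_mem). -/

namespace H35Q

open H16C

open Classical in
theorem l1_fix {K : Type*} [Field K] (W : WeierstrassCurve.Affine K) [W.IsShortNF]
    {L Ω' : Type*} [Field L] [Algebra K L] [Field Ω'] [Algebra L Ω'] [Algebra K Ω'] [IsScalarTower K L Ω']
    (S : Pt W L) (σ : Ω' ≃ₐ[L] Ω') :
    rho W (σ.restrictScalars K) (WeierstrassCurve.Affine.Point.map (IsScalarTower.toAlgHom K L Ω') S : Pt W Ω') =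
      WeierstrassCurve.Affine.Point.map (IsScalarTower.toAlgHom K L Ω') S := by
  by_cases h : S = 0
  · rw [h, map_zero, map_zero]
  · have hne : (WeierstrassCurve.Affine.Point.map (IsScalarTower.toAlgHom K L Ω') S : Pt W Ω') ≠ 0 := by
      cases S with
      | zero => exact absurd rfl h
      | some x y h1 => exact WeierstrassCurve.Affine.Point.some_ne_zero _
    have hx : xc (WeierstrassCurve.Affine.Point.map (IsScalarTower.toAlgHom K L Ω') S : Pt W Ω') =
        algebraMap L Ω' (xc S) := by
      cases S with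
      | zero => exact absurd rfl h
      | some x y h1 => rfl
    have hy : yc (WeierstrassCurve.Affine.Point.map (IsScalarTower.toAlgHom K L Ω') S : Pt W Ω') =
        algebraMap L Ω' (yc S) := by
      cases S with
      | zero => exact absurd rfl h
      | some x y h1 => rfl
    apply pt_ext (rne _ hne) hne
    · rw [rx, hx]
      exact σ.commutes _
    · rw [ry, hy]
      exact σ.commutes _

open Classical in
theorem avoid {K : Type*} [Field K] [CharZero K] (W : WeierstrassCurve.Affine K) [W.IsShortNF] [W.IsElliptic]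
    {L Ω' : Type*} [Field L] [Algebra K L] [Field Ω'] [Algebra L Ω'] [Algebra K Ω'] [IsScalarTower K L Ω']
    [IsAlgClosure L Ω'] [CharZero Ω'] [Infinite (Pt W L)] (Q : Pt W Ω') :
    ∃ S : Pt W Ω', (∀ σ : Ω' ≃ₐ[L] Ω', rho W (σ.restrictScalars K) S = S) ∧ (3 : ℕ) • (Q + S) ≠ 0 ∧
      xc ((3 : ℕ) • (Q + S)) ≠ 0 := by
  let f : Pt W L →+ Pt W Ω' := WeierstrassCurve.Affine.Point.map (IsScalarTower.toAlgHom K L Ω')
  have hf : Function.Injective f := WeierstrassCurve.Affine.Point.map_injective _
  have hB : {R : Pt W Ω' | R = 0 ∨ xc R = 0}.Finite := by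
    apply Set.Finite.subset ((Set.finite_singleton (0 : Pt W Ω')).union (T1_fiber (0 : Ω')))
    rintro R hR
    by_cases h0 : R = 0
    · exact Or.inl h0
    · rcases hR with hR | hR
      · exact Or.inl hR
      · exact Or.inr ⟨h0, hR⟩
  have hfib : ∀ R : Pt W Ω', {S : Pt W L | (3 : ℕ) • (Q + f S) = R}.Finite := by
    intro R
    by_cases hn : ∃ S₁ : Pt W L, (3 : ℕ) • (Q + f S₁) = R
    · obtain ⟨S₁, h1⟩ := hn
      have ht : {P : Pt W Ω' | (3 : ℕ) • P = 0}.Finite := tors_finite _ 3 (by norm_num)
      have hinj : Function.Injective (fun S : Pt W L => f S - f S₁) := by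
        intro a b hab
        exact hf (sub_left_injective hab)
      apply (ht.preimage hinj.injOn).subset
      intro S hS
      show (3 : ℕ) • (f S - f S₁) = 0
      have h2 : (3 : ℕ) • (Q + f S) = R := hS
      rw [← h1, smul_add, smul_add, add_right_inj] at h2
      rw [smul_sub, h2, sub_self]
    · have he : {S : Pt W L | (3 : ℕ) • (Q + f S) = R} = ∅ := by
        ext S
        constructor
        · intro hS
          exact absurd ⟨S, hS⟩ hn
        · intro hS
          exact absurd hS (Set.notMem_empty _)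
      rw [he]
      exact Set.finite_empty
  have hbad : {S : Pt W L | (3 : ℕ) • (Q + f S) = 0 ∨ xc ((3 : ℕ) • (Q + f S)) = 0}.Finite := by
    apply (hB.biUnion (fun R _ => hfib R)).subset
    intro S hS
    rw [Set.mem_iUnion₂]
    exact ⟨(3 : ℕ) • (Q + f S), hS, rfl⟩
  obtain ⟨S, hS⟩ := hbad.exists_notMem
  have hS' : ¬ ((3 : ℕ) • (Q + f S) = 0 ∨ xc ((3 : ℕ) • (Q + f S)) = 0) := hS
  rw [not_or] at hS'
  exact ⟨f S, fun σ => l1_fix W S σ, hS'.1, hS'.2⟩

end H35Q
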