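import Mathlib
import Pool.Agent.Lib.H35Q.G0
import Pool.Agent.Lib.H35Q.G5
import Pool.Agent.Lib.H35Q.G6

/-! Chunk K0 (M): fixed elements. Coc t a: a is a continuous cocycle with values in Z/3 twisted by the sign of t.
om_act: sg θ g = 1 (θ = 2 ω + 1): g ω = ω; sg θ g = -1: g θ = -θ, g ω = -1 - ω = ω^2 = ω^(-1); check a = 0, 1, 2 ((-1) * a in ZMod 3).
fixs: s^2 = B, x fixed by all g with g s = s; then x = p + q s with p, q in K. If g s = s for all g: x is fixed by all g, fix_mem. Otherwise choose t with t s = -s; for g with g s = -s, t^-1 g fixes s, so g x = t x; t x is fixed by the g with g s = s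
(t^-1 g t fixes s) and g t x = x for g s = -s. So x + t x and (x - t x)/s are fixed by all g: fix_mem; divide by 2. (B nonzero, so s nonzero.)
cub_of_fix: κ^3 = P + Q s, P^2 - B Q^2 = N^3, κ fixed by all g with g s = s. fixs: κ = α + β s. If s is not in K: (α + β s)^3 = P + Q s, compare coefficients (1, s independent over K): α^3 + 3 B α β^2 = P, 3 α^2 β + B β^3 = Q.
If s = algebraMap s₀: κ is in K, κ' = N/κ is in K (N nonzero, κ nonzero), κ'^3 = P - Q s (the product of P + Q s and P - Q s is N^3): α = (κ + κ')/2, β = (κ - κ')/(2 s₀): (α + β s)^3 = κ^3 = P + Q s,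
(α - β s)^3 = κ'^3 = P - Q s: add and subtract. coc_one: a 1 = 0. -/

namespace H35Q

/-- continuous cocycles with values in Z/3 twisted by the sign of t -/
structure Coc {K Ω : Type*} [Field K] [Field Ω] [Algebra K Ω] (t : Ω) (a : (Ω ≃ₐ[K] Ω) → ZMod 3) : Prop where
  mul : ∀ g h, a (g * h) = a g + (sg t g : ZMod 3) * a h
  cont : ∃ F : IntermediateField K Ω, FiniteDimensional K F ∧ ∀ g ∈ F.fixingSubgroup, a g = 0

variable {K Ω : Type*} [Field K] [Field Ω] [Algebra K Ω] [CharZero Ω]

theorem om_act {ω : Ω} (hω : ω ^ 2 + ω + 1 = 0) (g : Ω ≃ₐ[K] Ω) (a : ZMod 3) :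
    g (ω ^ a.val) = ω ^ ((sg (2 * ω + 1) g : ZMod 3) * a).val := by
  have hsp := sg_spec (theta_rat K hω) g
  have h3 : ω ^ 3 = 1 := om_cube hω
  have h2 : g (2 * ω + 1) = 2 * g ω + 1 := by
    rw [map_add, map_mul, map_one, map_ofNat]
  rw [h2] at hsp
  rcases sg_cases (2 * ω + 1) g with h | h
  · rw [h] at hsp ⊢
    have h4 : g ω = ω := by
      have h5 : (2 : Ω) * g ω = 2 * ω := by
        push_cast at hsp
        linear_combination hsp
      exact mul_left_cancel₀ two_ne_zero h5
    rw [map_pow, h4, Int.cast_one, one_mul]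
  · rw [h] at hsp ⊢
    have h4 : g ω = ω ^ 2 := by
      have h5 : (2 : Ω) * g ω = 2 * ω ^ 2 := by
        push_cast at hsp
        linear_combination hsp - 2 * hω
      exact mul_left_cancel₀ two_ne_zero h5
    have key : ∀ a : ZMod 3, (((-1 : ℤ) : ZMod 3) * a).val = (3 - a.val) % 3 := by decide
    rw [map_pow, h4, key a]
    have hlt : a.val < 3 := ZMod.val_lt a
    generalize a.val = n at hlt
    interval_cases n
    · simp
    · simp
    · show (ω ^ 2) ^ 2 = ω ^ 1
      linear_combination ω * h3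

variable [IsAlgClosure K Ω]

theorem fixs {s : Ω} {B : K} (hs : s ^ 2 = algebraMap K Ω B) (hB : B ≠ 0) {x : Ω}
    (hx : ∀ g : Ω ≃ₐ[K] Ω, g s = s → g x = x) : ∃ p q : K, x = algebraMap K Ω p + algebraMap K Ω q * s := by
  have hs0 : s ≠ 0 := by
    rintro rfl
    apply hB
    have h0 : algebraMap K Ω B = 0 := by
      rw [← hs]
      simp
    exact (map_eq_zero _).1 h0
  have hrat : ∃ c : K, s ^ 2 = algebraMap K Ω c := ⟨B, hs⟩
  by_cases hall : ∀ g : Ω ≃ₐ[K] Ω, g s = s
  · obtain ⟨p, hp⟩ := fix_mem (fun g => hx g (hall g))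
    exact ⟨p, 0, by rw [hp]; simp⟩
  · rw [not_forall] at hall
    obtain ⟨t, ht⟩ := hall
    have hneg : ∀ g : Ω ≃ₐ[K] Ω, g s ≠ s → g s = -s := by
      intro g hg
      have h1 := sg_spec hrat g
      rcases sg_cases s g with h | h
      · rw [sg_one_iff] at h
        exact absurd h hg
      · rw [h] at h1
        simpa using h1
    have hts := hneg t ht
    have htinv : t⁻¹ s = -s := by
      have h0 : t (-s) = s := by rw [map_neg, hts, neg_neg]
      have h1 : (t⁻¹ * t) (-s) = t⁻¹ s := by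
        rw [AlgEquiv.mul_apply, h0]
      rw [inv_mul_cancel, AlgEquiv.one_apply] at h1
      exact h1.symm
    have h1 : ∀ g : Ω ≃ₐ[K] Ω, g s = -s → g x = t x := by
      intro g hg
      have h0 : (t⁻¹ * g) s = s := by
        rw [AlgEquiv.mul_apply, hg, map_neg, htinv, neg_neg]
      have h2 := hx _ h0
      rw [AlgEquiv.mul_apply] at h2
      have h3 := congrArg t h2
      rwa [← AlgEquiv.mul_apply, mul_inv_cancel, AlgEquiv.one_apply] at h3
    have h2 : ∀ g : Ω ≃ₐ[K] Ω, g s = s → g (t x) = t x := by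
      intro g hg
      have h0 := h1 (g * t) (by rw [AlgEquiv.mul_apply, hts, map_neg, hg])
      rwa [AlgEquiv.mul_apply] at h0
    have h3 : ∀ g : Ω ≃ₐ[K] Ω, g s = -s → g (t x) = x := by
      intro g hg
      have h0 := hx (g * t) (by rw [AlgEquiv.mul_apply, hts, map_neg, hg, neg_neg])
      rwa [AlgEquiv.mul_apply] at h0
    obtain ⟨p, hp⟩ := fix_mem (K := K) (x := x + t x) (by
      intro g
      by_cases hg : g s = s
      · rw [map_add, hx g hg, h2 g hg]
      · rw [map_add, h1 g (hneg g hg), h3 g (hneg g hg), add_comm])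
    obtain ⟨q, hq⟩ := fix_mem (K := K) (x := (x - t x) / s) (by
      intro g
      by_cases hg : g s = s
      · rw [map_div₀, map_sub, hx g hg, h2 g hg, hg]
      · rw [map_div₀, map_sub, h1 g (hneg g hg), h3 g (hneg g hg), hneg g hg]
        rw [div_neg, ← neg_div, neg_sub])
    refine ⟨p / 2, q / 2, ?_⟩
    rw [map_div₀, map_div₀, hp, hq, map_ofNat]
    field_simp
    ring

theorem cub_of_fix {s : Ω} {B : K} (hs : s ^ 2 = algebraMap K Ω B) (hB : B ≠ 0) {κ : Ω} {P Q N : K}
    (hκ : κ ^ 3 = algebraMap K Ω P + algebraMap K Ω Q * s) (hN : P ^ 2 - B * Q ^ 2 = N ^ 3) (hN0 : N ≠ 0)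
    (hfix : ∀ g : Ω ≃ₐ[K] Ω, g s = s → g κ = κ) : Cub B P Q := by
  have : CharZero K := (algebraMap K Ω).charZero_iff (algebraMap K Ω).injective |>.2 inferInstance
  obtain ⟨α, β, hab⟩ := fixs hs hB hfix
  by_cases hK : ∃ s₀ : K, algebraMap K Ω s₀ = s
  · obtain ⟨s₀, hs₀⟩ := hK
    have hsq : s₀ ^ 2 = B := by
      apply (algebraMap K Ω).injective
      rw [map_pow, hs₀, hs]
    have hs₀0 : s₀ ≠ 0 := by
      rintro rfl
      apply hB
      rw [← hsq]
      ring
    obtain ⟨k, hk⟩ : ∃ k : K, k = α + β * s₀ := ⟨_, rfl⟩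
    have hk3 : k ^ 3 = P + Q * s₀ := by
      apply (algebraMap K Ω).injective
      rw [map_pow, map_add, map_mul, hs₀, ← hκ, hab, hk, map_add, map_mul, hs₀]
    have hN' : (P + Q * s₀) * (P - Q * s₀) = N ^ 3 := by
      rw [← hN, ← hsq]
      ring
    have hk0 : k ≠ 0 := by
      intro h0
      rw [h0] at hk3
      rw [← hk3] at hN'
      apply hN0
      have h1 : N ^ 3 = 0 := by
        rw [← hN']
        ring
      exact pow_eq_zero_iff (by norm_num) |>.1 h1
    have hk3' : (N / k) ^ 3 = P - Q * s₀ := by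
      rw [div_pow, div_eq_iff (pow_ne_zero 3 hk0), ← hN', hk3]
      ring
    have h2 : (2 : K) ≠ 0 := two_ne_zero
    refine ⟨(k + N / k) / 2, (k - N / k) / (2 * s₀), ?_, ?_⟩
    · generalize N / k = k' at hk3'
      rw [← hsq]
      field_simp
      linear_combination (-4) * hk3 - 4 * hk3'
    · generalize N / k = k' at hk3'
      rw [← hsq]
      field_simp
      linear_combination (-4) * hk3 + 4 * hk3'
  · have h1 : algebraMap K Ω (α ^ 3 + 3 * B * α * β ^ 2 - P) +
        algebraMap K Ω (3 * α ^ 2 * β + B * β ^ 3 - Q) * s = 0 := by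
      rw [hab] at hκ
      simp only [map_sub, map_add, map_mul, map_pow, map_ofNat]
      rw [← hs]
      linear_combination hκ
    have h2 : 3 * α ^ 2 * β + B * β ^ 3 - Q = 0 := by
      by_contra h0
      apply hK
      refine ⟨-(α ^ 3 + 3 * B * α * β ^ 2 - P) / (3 * α ^ 2 * β + B * β ^ 3 - Q), ?_⟩
      have h3 : algebraMap K Ω (3 * α ^ 2 * β + B * β ^ 3 - Q) ≠ 0 := by
        intro h4
        exact h0 ((map_eq_zero _).1 h4)
      rw [map_div₀, map_neg, div_eq_iff h3]
      linear_combination -h1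
    rw [h2, map_zero, zero_mul, add_zero] at h1
    have h3 := (map_eq_zero _).1 h1
    exact ⟨α, β, (sub_eq_zero.1 h3).symm, (sub_eq_zero.1 h2).symm⟩

end H35Q
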