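import Mathlib
import Pool.Agent.Lib.H16F.K1
import Pool.Agent.Lib.H35Q.K0

/-! Chunk K1 (M): Hilbert 90. Group G_s = the g with g s = s = Gal(Ω/K(s)). u(g) = ω^(a g): for g, h in G_s: sg ((2 ω + 1) s) g = sg (2 ω + 1) g (sg_prod, sg s g = 1), so by om_act and om_pow_add u(g h) = u(g) g(u(h)).
k1_h90 (H16F.K1) with k = K(s) = IntermediateField.adjoin K {s} (k⟮s⟯), Ω, u(g) for g in Gal(Ω/K(s)) restricted to K (AlgEquiv.restrictScalars K); Normal (K(s)) Ω by inference or IsAlgClosure; the finite set S: generators of the finite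
extension F of Coc.cont (a basis) and the three numbers ω^j. An automorphism g over K with g s = s lifts to an automorphism over K(s): copy TR3_fix, TR3_lift of H16C/TR3.lean (or IntermediateField.fixingSubgroupEquiv). -/

namespace H35Q

open IntermediateField

section

variable {K Ω : Type*} [Field K] [Field Ω] [Algebra K Ω]

/-- restriction of scalars from `L` to `K` -/
def k1_res (L : IntermediateField K Ω) : (Ω ≃ₐ[L] Ω) →* (Ω ≃ₐ[K] Ω) where
  toFun g := g.restrictScalars K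
  map_one' := rfl
  map_mul' _ _ := rfl

theorem k1_res_apply (L : IntermediateField K Ω) (g : Ω ≃ₐ[L] Ω) (x : Ω) :
    k1_res L g x = g x := rfl

theorem k1_fix {δ : Ω} (g : Ω ≃ₐ[K] Ω) (hg : g δ = δ) (x : Ω) (hx : x ∈ K⟮δ⟯) : g x = x := by
  have h1 : K⟮δ⟯ ≤ IntermediateField.fixedField (Subgroup.zpowers g) := by
    rw [IntermediateField.adjoin_simple_le_iff, IntermediateField.mem_fixedField_iff]
    intro f hf
    obtain ⟨j, rfl⟩ := Subgroup.mem_zpowers_iff.1 hf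
    have h2 : g ∈ MulAction.stabilizer (Ω ≃ₐ[K] Ω) δ := hg
    exact (MulAction.stabilizer (Ω ≃ₐ[K] Ω) δ).zpow_mem h2 j
  exact (IntermediateField.mem_fixedField_iff _ _).1 (h1 hx) g (Subgroup.mem_zpowers g)

theorem k1_lift {δ : Ω} (g : Ω ≃ₐ[K] Ω) (hg : g δ = δ) :
    ∃ g' : Ω ≃ₐ[K⟮δ⟯] Ω, k1_res K⟮δ⟯ g' = g := by
  refine ⟨AlgEquiv.ofRingEquiv (f := (g : Ω ≃+* Ω)) fun r => k1_fix g hg _ r.2, ?_⟩
  ext x
  rfl

theorem k1_field (L F : IntermediateField K Ω) [FiniteDimensional K F] (g : Ω ≃ₐ[L] Ω)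
    (hg : ∀ i, g ((Module.finBasis K F i : F) : Ω) = ((Module.finBasis K F i : F) : Ω)) :
    k1_res L g ∈ F.fixingSubgroup := by
  rw [IntermediateField.mem_fixingSubgroup_iff]
  intro x hx
  have h1 := congrArg (algebraMap F Ω) ((Module.finBasis K F).sum_repr ⟨x, hx⟩)
  rw [map_sum] at h1
  have h2 : x = ∑ i, (Module.finBasis K F).repr ⟨x, hx⟩ i • ((Module.finBasis K F i : F) : Ω) := by
    refine Eq.trans ?_ (h1.symm.trans ?_)
    · rfl
    · rfl
  rw [h2, map_sum]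
  refine Finset.sum_congr rfl fun i _ => ?_
  rw [map_smul]
  congr 1
  exact hg i

end

variable {K Ω : Type*} [Field K] [Field Ω] [Algebra K Ω] [CharZero Ω] [IsAlgClosure K Ω]

theorem k_h90 {ω s : Ω} (hω : ω ^ 2 + ω + 1 = 0) (hs : ∃ B : K, B ≠ 0 ∧ s ^ 2 = algebraMap K Ω B)
    (a : (Ω ≃ₐ[K] Ω) → ZMod 3) (ha : Coc ((2 * ω + 1) * s) a) :
    ∃ w : Ω, w ≠ 0 ∧ ∀ g : Ω ≃ₐ[K] Ω, g s = s → g w = ω ^ (a g).val * w := by
  classical
  obtain ⟨B, hB0, hB⟩ := hs
  have hs0 : s ≠ 0 := by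
    rintro rfl
    have h1 : algebraMap K Ω B = 0 := by rw [← hB]; ring
    exact hB0 ((map_eq_zero _).1 h1)
  have hθ0 := theta_ne hω
  have hn0 : Normal K Ω := IsAlgClosure.normal K Ω
  have hn : Normal K⟮s⟯ Ω := Normal.tower_top_of_normal K K⟮s⟯ Ω
  obtain ⟨F, hFfin, hF⟩ := ha.cont
  have hsg : ∀ g : Ω ≃ₐ[K⟮s⟯] Ω, sg ((2 * ω + 1) * s) (k1_res K⟮s⟯ g) =
      sg (2 * ω + 1) (k1_res K⟮s⟯ g) := by
    intro g
    have h1 : k1_res K⟮s⟯ g s = s := by
      rw [k1_res_apply]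
      exact g.commutes ⟨s, IntermediateField.mem_adjoin_simple_self K s⟩
    rw [sg_prod (theta_rat K hω) ⟨B, hB⟩ hθ0 hs0, (sg_one_iff s _).2 h1, mul_one]
  set b := Module.finBasis K F with hb
  obtain ⟨y, hy0, hy⟩ := H16F.k1_h90 (k := K⟮s⟯) (fun g => ω ^ (a (k1_res K⟮s⟯ g)).val)
    (fun g => pow_ne_zero _ (om_ne hω)) (by
      intro g h
      show ω ^ (a (k1_res K⟮s⟯ (g * h))).val = ω ^ (a (k1_res K⟮s⟯ g)).val *
        g (ω ^ (a (k1_res K⟮s⟯ h)).val)
      rw [map_mul, ha.mul, hsg, om_pow_add hω]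
      congr 1
      rw [← om_act hω]
      rfl)
    ((({1, ω, ω ^ 2} : Finset Ω) : Set Ω) ∪ Set.range fun i => ((b i : F) : Ω))
    (by
      intro g
      left
      have h3 : (a (k1_res K⟮s⟯ g)).val < 3 := ZMod.val_lt _
      simp only [Finset.coe_insert, Finset.coe_singleton, Set.mem_insert_iff,
        Set.mem_singleton_iff]
      interval_cases h : (a (k1_res K⟮s⟯ g)).val
      · left
        exact pow_zero _
      · right; left
        exact pow_one _
      · right; right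
        rfl)
    (by
      intro g hg
      have h1 : k1_res K⟮s⟯ g ∈ F.fixingSubgroup :=
        k1_field _ F g fun i => hg _ (Or.inr ⟨i, rfl⟩)
      show ω ^ (a (k1_res K⟮s⟯ g)).val = 1
      rw [hF _ h1, ZMod.val_zero, pow_zero])
  refine ⟨y, hy0, fun g hg => ?_⟩
  obtain ⟨g', hg'⟩ := k1_lift g hg
  have h := hy g'
  rw [hg'] at h
  rw [← h, ← hg']
  rfl

end H35Q
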