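import Mathlib
import Pool.Agent.Lib.H35Q.K0

/-! Chunk K2 (M): the norm. θ = 2 ω + 1. w^3 is fixed by all g with g s = s (ω^3 = 1), so w^3 = p + q s (fixs). Choose t with t s = -s (exists_neg, sg_spec). w' = t^-1 (ω^(a t) w): w'^3 = t^-1 (w^3) = p - q s. n0 = w w'. Claim: g n0 = n0 for g s = s:
t g t^-1 fixes s; g w' = t^-1 (t g t^-1) (ω^(a t) w) = t^-1 (ω^(sg θ g a(t) + a(t g t^-1)) w) (om_act; sg θ (t g t^-1) = sg θ g). Cocycle: a(t g) = a(t) + sg(θ s) t a(g) = a(t g t^-1) + sg(θ s)(g) a(t), sg(θ s) g = sg θ g, so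
a(t g t^-1) = a(t) + sg(θ s)(t) a(g) - sg θ g a(t), sg(θ s)(t) = -sg θ t. Hence g w' = t^-1 (ω^(a(t) - sg θ t a(g)) w) = ω^(-a(g)) w' (om_act for t^-1, sg θ t^-1 = sg θ t). So g n0 = n0; n0 = α + β s (fixs). n0^3 = (p + q s)(p - q s) =
p^2 - B q^2 =: M in K, nonzero. t n0 = α - β s has the same cube, so ν = n0 t(n0) = α^2 - B β^2 in K satisfies ν^3 = M^2 and M = (M/ν)^3. n = M/ν. -/

namespace H35Q

variable {K Ω : Type*} [Field K] [Field Ω] [Algebra K Ω] [CharZero Ω] [IsAlgClosure K Ω]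

theorem k_norm {ω s : Ω} (hω : ω ^ 2 + ω + 1 = 0) {B : K} (hs : s ^ 2 = algebraMap K Ω B)
    (hB : ∀ x : K, x ^ 2 ≠ B) (a : (Ω ≃ₐ[K] Ω) → ZMod 3) (ha : Coc ((2 * ω + 1) * s) a)
    {w : Ω} (hw0 : w ≠ 0) (hw : ∀ g : Ω ≃ₐ[K] Ω, g s = s → g w = ω ^ (a g).val * w) :
    ∃ p q n : K, w ^ 3 = algebraMap K Ω p + algebraMap K Ω q * s ∧ p ^ 2 - B * q ^ 2 = n ^ 3 ∧ n ≠ 0 := by
  have hB0 : B ≠ 0 := by
    rintro rfl
    exact hB 0 (by ring)
  have hs0 : s ≠ 0 := by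
    rintro rfl
    apply hB0
    have h0 : algebraMap K Ω B = 0 := by
      rw [← hs]
      simp
    exact (map_eq_zero _).1 h0
  have hθ0 : 2 * ω + 1 ≠ 0 := theta_ne hω
  have hsr : ∃ c : K, s ^ 2 = algebraMap K Ω c := ⟨B, hs⟩
  have hθr := theta_rat K hω
  have hω3 : ω ^ 3 = 1 := om_cube hω
  have hcube : ∀ c : ZMod 3, (ω ^ c.val) ^ 3 = 1 := fun c => by
    rw [← pow_mul, mul_comm, pow_mul, hω3, one_pow]
  -- the cube of w
  obtain ⟨p, q, hpq⟩ := fixs hs hB0 (x := w ^ 3) (by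
    intro g hg
    rw [map_pow, hw g hg, mul_pow, hcube, one_mul])
  obtain ⟨t, ht⟩ := exists_neg hs hB
  have hts : t s = -s := by
    have h0 := sg_spec hsr t
    rw [ht] at h0
    simpa using h0
  have htinv : t⁻¹ s = -s := by
    have h0 : t (-s) = s := by rw [map_neg, hts, neg_neg]
    have h1 : (t⁻¹ * t) (-s) = t⁻¹ s := by
      rw [AlgEquiv.mul_apply, h0]
    rw [inv_mul_cancel, AlgEquiv.one_apply] at h1
    exact h1.symm
  have htt : ∀ x : Ω, t (t⁻¹ x) = x := fun x => by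
    rw [← AlgEquiv.mul_apply, mul_inv_cancel, AlgEquiv.one_apply]
  have htt' : ∀ x : Ω, t⁻¹ (t x) = x := fun x => by
    rw [← AlgEquiv.mul_apply, inv_mul_cancel, AlgEquiv.one_apply]
  -- signs
  have hmul := sg_mul hθr hθ0
  have hinv : sg (2 * ω + 1) t⁻¹ = sg (2 * ω + 1) t := by
    have h0 := hmul t⁻¹ t
    rw [inv_mul_cancel] at h0
    have h1 : sg (2 * ω + 1) (1 : Ω ≃ₐ[K] Ω) = 1 := (sg_one_iff _ _).2 rfl
    rw [h1] at h0
    rcases sg_cases (2 * ω + 1) t⁻¹ with h | h <;> rcases sg_cases (2 * ω + 1) t with h' | h' <;>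
      rw [h, h'] at h0 ⊢ <;> norm_num at h0
  obtain ⟨w', hw'⟩ : ∃ w' : Ω, w' = t⁻¹ (ω ^ (a t).val * w) := ⟨_, rfl⟩
  have hw'0 : w' ≠ 0 := by
    rw [hw']
    intro h0
    rw [map_eq_zero] at h0
    exact mul_ne_zero (pow_ne_zero _ (om_ne hω)) hw0 h0
  have hw'3 : w' ^ 3 = algebraMap K Ω p - algebraMap K Ω q * s := by
    rw [hw', ← map_pow, mul_pow, hcube, one_mul, hpq, map_add, map_mul, AlgEquiv.commutes,
      AlgEquiv.commutes, htinv]
    ring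
  -- the action on w'
  have hgw' : ∀ g : Ω ≃ₐ[K] Ω, g s = s → g w' = ω ^ (-(a g)).val * w' := by
    intro g hg
    have hconj : (t * g * t⁻¹) s = s := by
      rw [AlgEquiv.mul_apply, AlgEquiv.mul_apply, htinv, map_neg, hg, map_neg, hts, neg_neg]
    have hσ : sg (2 * ω + 1) (t * g * t⁻¹) = sg (2 * ω + 1) g := by
      rw [hmul, hmul, hinv]
      have h0 := sg_sq (2 * ω + 1) t
      linear_combination sg (2 * ω + 1) g * h0
    have hpt := sg_prod hθr hsr hθ0 hs0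
    have hsg : sg s g = 1 := (sg_one_iff _ _).2 hg
    have e1 := ha.mul t g
    have e2 : a (t * g) = a (t * g * t⁻¹) + (sg ((2 * ω + 1) * s) (t * g * t⁻¹) : ZMod 3) * a t := by
      rw [← ha.mul, inv_mul_cancel_right]
    have hsc : sg s (t * g * t⁻¹) = 1 := (sg_one_iff _ _).2 hconj
    rw [hpt, ht] at e1
    rw [hpt, hsc, hσ] at e2
    have e3 : a (t * g * t⁻¹) = a t - (sg (2 * ω + 1) t : ZMod 3) * a g - (sg (2 * ω + 1) g : ZMod 3) * a t := by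
      rw [e1] at e2
      push_cast at e2
      linear_combination -e2
    have e4 : (g w' : Ω) = t⁻¹ ((t * g * t⁻¹) (ω ^ (a t).val * w)) := by
      rw [hw', AlgEquiv.mul_apply, AlgEquiv.mul_apply, htt']
    rw [e4, map_mul, om_act hω, hw _ hconj, hσ, ← mul_assoc, ← om_pow_add hω, e3]
    have e5 : (sg (2 * ω + 1) g : ZMod 3) * a t + (a t - (sg (2 * ω + 1) t : ZMod 3) * a g -
        (sg (2 * ω + 1) g : ZMod 3) * a t) = -((sg (2 * ω + 1) t : ZMod 3) * a g) + a t := by ring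
    rw [e5, om_pow_add hω, mul_assoc, map_mul, ← hw', om_act hω, hinv]
    congr 3
    have e6 : (sg (2 * ω + 1) t : ZMod 3) * (sg (2 * ω + 1) t : ZMod 3) = 1 := by
      have h0 := sg_sq (2 * ω + 1) t
      exact_mod_cast congrArg (Int.cast : ℤ → ZMod 3) h0
    linear_combination (-a g) * e6
  -- n0
  obtain ⟨n0, hn0⟩ : ∃ n0 : Ω, n0 = w * w' := ⟨_, rfl⟩
  have hn00 : n0 ≠ 0 := by
    rw [hn0]
    exact mul_ne_zero hw0 hw'0
  obtain ⟨α, β, hab⟩ := fixs hs hB0 (x := n0) (by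
    intro g hg
    rw [hn0, map_mul, hw g hg, hgw' g hg]
    have h0 : ω ^ (a g).val * ω ^ (-(a g)).val = 1 := by
      rw [← om_pow_add hω, add_neg_cancel, ZMod.val_zero, pow_zero]
    linear_combination w * w' * h0)
  have hM : n0 ^ 3 = algebraMap K Ω (p ^ 2 - B * q ^ 2) := by
    rw [hn0, mul_pow, hpq, hw'3, map_sub, map_mul, map_pow, map_pow, ← hs]
    ring
  have htn : t n0 = algebraMap K Ω α - algebraMap K Ω β * s := by
    rw [hab, map_add, map_mul, AlgEquiv.commutes, AlgEquiv.commutes, hts]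
    ring
  have htn3 : (t n0) ^ 3 = algebraMap K Ω (p ^ 2 - B * q ^ 2) := by
    rw [← map_pow, hM, AlgEquiv.commutes]
  have hν : n0 * t n0 = algebraMap K Ω (α ^ 2 - B * β ^ 2) := by
    rw [htn, hab, map_sub, map_mul, map_pow, map_pow, ← hs]
    ring
  have hν3 : (α ^ 2 - B * β ^ 2) ^ 3 = (p ^ 2 - B * q ^ 2) ^ 2 := by
    apply (algebraMap K Ω).injective
    rw [map_pow, ← hν, mul_pow, hM, htn3, map_pow]
    ring
  have hM0 : p ^ 2 - B * q ^ 2 ≠ 0 := by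
    intro h0
    rw [h0, map_zero] at hM
    exact hn00 (pow_eq_zero_iff (by norm_num) |>.1 hM)
  have hν0 : α ^ 2 - B * β ^ 2 ≠ 0 := by
    intro h0
    rw [h0] at hν3
    apply hM0
    have h1 : (p ^ 2 - B * q ^ 2) ^ 2 = 0 := by
      rw [← hν3]
      ring
    exact pow_eq_zero_iff (by norm_num) |>.1 h1
  refine ⟨p, q, (p ^ 2 - B * q ^ 2) / (α ^ 2 - B * β ^ 2), hpq, ?_, div_ne_zero hM0 hν0⟩
  rw [div_pow, hν3]
  generalize p ^ 2 - B * q ^ 2 = M at hM0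
  field_simp

end H35Q
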