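import Mathlib
import Pool.Agent.Lib.H35Q.K0

/-! Chunk K3 (M): k_conv. t = (2 ω + 1) s, χ(g) = sg t g. Cub B p q gives α, β: p + q s = (α + β s)^3 = w^3 (nonzero), so w = ω^j (α + β s) (om_root). For g s = s: g w = ω^(sg (2ω+1) g j) (α + β s) (om_act), so ω^(a g) = ω^((sg (2ω+1) g - 1) j), om_inj:
a g = (χ(g) - 1) j (sg_prod, sg s g = 1). f(g) = a g - (χ(g) - 1) j satisfies f(g h) = f(g) + χ(g) f(h) (both a and (χ - 1) j do; sg_mul) and vanishes on the g with g s = s. Choose τ with τ s = -s (exists_neg). For g s = -s: g = τ (τ^-1 g) with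
τ^-1 g s = s, f(g) = f(τ) =: c. For g s = s, g τ moves s, so c = f(g τ) = χ(g) c; so (χ(g) - 1) c = 0. 0 = f(τ τ) = c + χ(τ) c: if c is nonzero then χ(τ) = -1 and χ(g) = 1 for all g with g s = s; then j' = j + c works: for g s = s:
χ(g) = 1, both sides 0; for g s = -s: χ(g) = χ(τ) χ(τ^-1 g) = -1 and a g = (-2) j + c = -2 (j + c) in ZMod 3. If c = 0: j.
k_triv: conversely a g = (χ(g) - 1) j for all g: for g s = s: g w = ω^((sg (2ω+1) g - 1) j) w, so w' = w/ω^j is fixed by these g, w'^3 = p + q s: cub_of_fix. -/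

namespace H35Q

variable {K Ω : Type*} [Field K] [Field Ω] [Algebra K Ω] [CharZero Ω] [IsAlgClosure K Ω]

theorem k_conv {ω s : Ω} (hω : ω ^ 2 + ω + 1 = 0) {B : K} (hs : s ^ 2 = algebraMap K Ω B)
    (hB : ∀ x : K, x ^ 2 ≠ B) (a : (Ω ≃ₐ[K] Ω) → ZMod 3) (ha : Coc ((2 * ω + 1) * s) a)
    {w : Ω} (hw0 : w ≠ 0) (hw : ∀ g : Ω ≃ₐ[K] Ω, g s = s → g w = ω ^ (a g).val * w) {p q : K}
    (hpq : w ^ 3 = algebraMap K Ω p + algebraMap K Ω q * s) (hc : Cub B p q) :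
    ∃ j : ZMod 3, ∀ g, a g = ((sg ((2 * ω + 1) * s) g : ZMod 3) - 1) * j := by
  have hB0 : B ≠ 0 := by
    intro h
    exact hB 0 (by rw [h]; ring)
  have hs0 : s ≠ 0 := by
    intro h
    apply hB0
    apply (algebraMap K Ω).injective
    rw [← hs, h, map_zero]; ring
  have hcase : ∀ g : Ω ≃ₐ[K] Ω, g s = s ∨ g s = -s := by
    intro g
    have h1 := sg_spec ⟨B, hs⟩ g
    rcases sg_cases s g with h | h
    · left; rw [h1, h]; push_cast; ring
    · right; rw [h1, h]; push_cast; ring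
  have hθ : ∃ c : K, (2 * ω + 1) ^ 2 = algebraMap K Ω c := theta_rat K hω
  have hsgθs : ∀ g : Ω ≃ₐ[K] Ω, sg ((2 * ω + 1) * s) g = sg (2 * ω + 1) g * sg s g := fun g =>
    sg_prod hθ ⟨B, hs⟩ (theta_ne hω) hs0 g
  have hθs : ∃ c : K, ((2 * ω + 1) * s) ^ 2 = algebraMap K Ω c := by
    obtain ⟨c, hc⟩ := hθ
    exact ⟨c * B, by rw [mul_pow, hc, hs, map_mul]⟩
  have hθs0 : (2 * ω + 1) * s ≠ 0 := mul_ne_zero (theta_ne hω) hs0
  have hsg1 : ∀ g : Ω ≃ₐ[K] Ω, g s = s → sg s g = 1 := fun g h => (sg_one_iff s g).2 h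
  obtain ⟨α, β, hα, hβ⟩ := hc
  set z : Ω := algebraMap K Ω α + algebraMap K Ω β * s with hz
  have hz3 : w ^ 3 = z ^ 3 := by
    rw [hpq, hα, hβ, hz]
    simp only [map_add, map_mul, map_pow, map_ofNat]
    rw [← hs]; ring
  have hz0 : z ≠ 0 := by
    intro h
    apply hw0
    rw [h] at hz3
    exact pow_eq_zero_iff (n := 3) (by norm_num) |>.1 (by rw [hz3]; ring)
  obtain ⟨j, hj⟩ := om_root hω (z := w / z) (by rw [div_pow, hz3]; exact div_self (pow_ne_zero _ hz0))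
  have hwz : w = ω ^ j.val * z := by rw [← hj, div_mul_cancel₀ _ hz0]
  have hf1 : ∀ g : Ω ≃ₐ[K] Ω, g s = s → a g = ((sg ((2 * ω + 1) * s) g : ZMod 3) - 1) * j := by
    intro g hg
    have h1 := hw g hg
    have h2 : g z = z := by
      rw [hz, map_add, map_mul, AlgEquiv.commutes, AlgEquiv.commutes, hg]
    rw [hwz, map_mul, om_act hω, h2, ← mul_assoc, ← om_pow_add hω] at h1
    have h3 := om_inj hω (mul_right_cancel₀ hz0 h1)
    rw [hsgθs, hsg1 g hg, mul_one]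
    linear_combination -h3
  have hχmul : ∀ g h : Ω ≃ₐ[K] Ω, (sg ((2 * ω + 1) * s) (g * h) : ZMod 3) =
      (sg ((2 * ω + 1) * s) g : ZMod 3) * (sg ((2 * ω + 1) * s) h : ZMod 3) := by
    intro g h
    rw [sg_mul hθs hθs0]; push_cast; ring
  set f : (Ω ≃ₐ[K] Ω) → ZMod 3 := fun g => a g - ((sg ((2 * ω + 1) * s) g : ZMod 3) - 1) * j with hf
  have hfmul : ∀ g h, f (g * h) = f g + (sg ((2 * ω + 1) * s) g : ZMod 3) * f h := by
    intro g h
    simp only [hf]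
    rw [ha.mul, hχmul]; ring
  have hf0 : ∀ g : Ω ≃ₐ[K] Ω, g s = s → f g = 0 := by
    intro g hg
    simp only [hf]
    rw [hf1 g hg, sub_self]
  obtain ⟨τ, hτ⟩ := exists_neg hs hB
  have hτs : τ s = -s := by
    rw [sg_spec ⟨B, hs⟩ τ, hτ]; push_cast; ring
  have hτi : τ⁻¹ s = -s := by
    have h1 : τ (-s) = s := by rw [map_neg, hτs, neg_neg]
    have h2 : τ⁻¹ (τ (-s)) = -s := by
      rw [← AlgEquiv.mul_apply, inv_mul_cancel, AlgEquiv.one_apply]
    rw [h1] at h2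
    exact h2
  have hdec : ∀ g : Ω ≃ₐ[K] Ω, g s = -s → (τ⁻¹ * g) s = s := by
    intro g hg
    rw [AlgEquiv.mul_apply, hg, map_neg, hτi, neg_neg]
  have hfm : ∀ g : Ω ≃ₐ[K] Ω, g s = -s → f g = f τ := by
    intro g hg
    have h1 : g = τ * (τ⁻¹ * g) := by rw [← mul_assoc, mul_inv_cancel, one_mul]
    rw [h1, hfmul, hf0 _ (hdec g hg)]; ring
  have hcommon : ∀ g : Ω ≃ₐ[K] Ω, g s = s → f τ = (sg ((2 * ω + 1) * s) g : ZMod 3) * f τ := by
    intro g hg
    have h1 : (g * τ) s = -s := by rw [AlgEquiv.mul_apply, hτs, map_neg, hg]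
    have h2 := hfm _ h1
    rw [hfmul, hf0 g hg, zero_add] at h2
    exact h2.symm
  have hττ : f τ + (sg ((2 * ω + 1) * s) τ : ZMod 3) * f τ = 0 := by
    rw [← hfmul]
    apply hf0
    rw [AlgEquiv.mul_apply, hτs, map_neg, hτs, neg_neg]
  by_cases hc0 : f τ = 0
  · refine ⟨j, fun g => ?_⟩
    have h1 : f g = 0 := by
      rcases hcase g with hg | hg
      · exact hf0 g hg
      · rw [hfm g hg, hc0]
    simp only [hf] at h1
    exact sub_eq_zero.1 h1
  · have key : ∀ c : ZMod 3, c ≠ 0 → c + c ≠ 0 := by decide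
    have hχ1 : ∀ g : Ω ≃ₐ[K] Ω, g s = s → (sg ((2 * ω + 1) * s) g : ZMod 3) = 1 := by
      intro g hg
      rcases sg_cases ((2 * ω + 1) * s) g with h | h
      · rw [h]; push_cast; rfl
      · exfalso
        have h1 := hcommon g hg
        rw [h] at h1
        push_cast at h1
        exact key _ hc0 (by linear_combination h1)
    have hχτ : (sg ((2 * ω + 1) * s) τ : ZMod 3) = -1 := by
      rcases sg_cases ((2 * ω + 1) * s) τ with h | h
      · exfalso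
        rw [h] at hττ
        push_cast at hττ
        exact key _ hc0 (by linear_combination hττ)
      · rw [h]; push_cast; rfl
    refine ⟨j + f τ, fun g => ?_⟩
    rcases hcase g with hg | hg
    · rw [hf1 g hg, hχ1 g hg]; ring
    · have h1 : (sg ((2 * ω + 1) * s) g : ZMod 3) = -1 := by
        have h2 : g = τ * (τ⁻¹ * g) := by rw [← mul_assoc, mul_inv_cancel, one_mul]
        rw [h2, hχmul, hχτ, hχ1 _ (hdec g hg)]; ring
      have h3 : f g = f τ := hfm g hg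
      have h4 : a g = f g + ((sg ((2 * ω + 1) * s) g : ZMod 3) - 1) * j := by
        simp only [hf]; ring
      rw [h4, h3, h1]
      have h5 : (3 : ZMod 3) = 0 := by decide
      linear_combination (f τ) * h5

theorem k_triv {ω s : Ω} (hω : ω ^ 2 + ω + 1 = 0) {B : K} (hs : s ^ 2 = algebraMap K Ω B)
    (hB : B ≠ 0) (a : (Ω ≃ₐ[K] Ω) → ZMod 3)
    {w : Ω} (hw0 : w ≠ 0) (hw : ∀ g : Ω ≃ₐ[K] Ω, g s = s → g w = ω ^ (a g).val * w) {p q n : K}
    (hpq : w ^ 3 = algebraMap K Ω p + algebraMap K Ω q * s) (hn : p ^ 2 - B * q ^ 2 = n ^ 3) (hn0 : n ≠ 0)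
    (j : ZMod 3) (hj : ∀ g, a g = ((sg ((2 * ω + 1) * s) g : ZMod 3) - 1) * j) : Cub B p q := by
  have hs0 : s ≠ 0 := by
    intro h
    apply hB
    apply (algebraMap K Ω).injective
    rw [← hs, h, map_zero]; ring
  have hθ : ∃ c : K, (2 * ω + 1) ^ 2 = algebraMap K Ω c := theta_rat K hω
  have hsgθs : ∀ g : Ω ≃ₐ[K] Ω, sg ((2 * ω + 1) * s) g = sg (2 * ω + 1) g * sg s g := fun g =>
    sg_prod hθ ⟨B, hs⟩ (theta_ne hω) hs0 g
  have hsg1 : ∀ g : Ω ≃ₐ[K] Ω, g s = s → sg s g = 1 := fun g h => (sg_one_iff s g).2 h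
  have hom3 : ∀ c : ZMod 3, (ω ^ c.val) ^ 3 = 1 := by
    intro c
    rw [← pow_mul, mul_comm, pow_mul, om_cube hω, one_pow]
  refine cub_of_fix hs hB (κ := ω ^ (-j).val * w) ?_ hn hn0 ?_
  · rw [mul_pow, hom3, one_mul, hpq]
  · intro g hg
    rw [map_mul, om_act hω, hw g hg, ← mul_assoc, ← om_pow_add hω, hj g, hsgθs, hsg1 g hg]
    congr 3
    push_cast; ring

end H35Q
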