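import Mathlib
import Pool.Agent.Lib.H35Q.G2

/-! Chunk G4 (M): translation by T. shift1: P = (x, y), x nonzero, T = (0, δ), θ = 2 ω + 1. l = (y - δ)/x, x' = xc (P + T) = l^2 - x (D1_xc_add), y' = -(l x' + δ). x^2 x' = (y - δ)^2 - x^3 = 2 δ (δ - y) (y^2 = x^3 + δ^2, δ^2 = a₆).
x' is nonzero: δ is nonzero (delta_ne), and y = δ would give x^3 = 0. (y' - θ δ)/x' = -l - (1 + θ) δ/x' and 1 + θ = 2 ω + 2 = -2 ω^2; 2 δ/x' = x^2/(δ - y); so it is -[(y - δ)^2 + ω^2 x^3]/(x (y - δ)) =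
-[(y - δ) + ω^2 (y + δ)]/x (x^3 = (y - δ)(y + δ)) = [ω y + (1 - ω^2) δ]/x = ω (y - θ δ)/x. Second: with -θ instead of θ (replace ω by ω^2 = -1 - ω, which changes the sign of θ).
P + T is not 0 because xc P <> xc T = 0. shift: a = 0: trivial; a = 1: shift1; a = 2: shift1 twice (2 • T = T + T).
det: from the two relations: (y - θ δ) x' = (y' - θ δ) x and (y + θ δ) x' = (y' + θ δ) x, subtract: 2 θ δ x' = 2 θ δ x, x = x', y = y', pt_ext. -/

namespace H35Q

open H16C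

variable {F : Type*} [Field F] [CharZero F] [DecidableEq F] {V : WeierstrassCurve.Affine F} [V.IsShortNF]
  [V.IsElliptic] {ω δ : F} {φ : V.Point →+ V.Point} {T : V.Point}

theorem Geo.shift1 (G : Geo V ω δ φ T) {P : V.Point} (h0 : P ≠ 0) (hx : xc P ≠ 0) :
    P + T ≠ 0 ∧ xc (P + T) ≠ 0 ∧
      (yc (P + T) - (2 * ω + 1) * δ) * xc P = ω * (yc P - (2 * ω + 1) * δ) * xc (P + T) ∧
      (yc (P + T) + (2 * ω + 1) * δ) * xc P = ω ^ 2 * (yc P + (2 * ω + 1) * δ) * xc (P + T) := by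
  have hxT := G.xT
  have hyT := G.yT
  have hne : xc P ≠ xc T := by
    rw [hxT]
    exact hx
  have hδ := G.delta_ne
  have hω := G.om
  have hE : yc P ^ 2 = xc P ^ 3 + δ ^ 2 := by
    rw [eqn h0, G.a4, G.sq]
    ring
  have hS := (ne_zero_of_xc_ne h0 G.ne hne).1
  have e1 := D1_xc_add h0 G.ne hne
  have e2 := g2_yc_add h0 G.ne hne
  rw [hxT, hyT, sub_zero, sub_zero] at e1
  rw [hxT, hyT, sub_zero] at e2
  generalize xc (P + T) = X at *
  generalize yc (P + T) = Y at *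
  generalize xc P = x at *
  generalize yc P = y at *
  have hX : x ^ 2 * X = 2 * δ * (δ - y) := by
    rw [e1]
    field_simp
    linear_combination hE
  have hY : x * Y = -((y - δ) * (X - x) + x * y) := by
    rw [e2]
    field_simp
  have hyd : δ - y ≠ 0 := by
    intro h
    apply hx
    have h3 : x ^ 3 = 0 := by linear_combination -hE - (y + δ) * h
    exact pow_eq_zero_iff (by norm_num) |>.mp h3
  have hXne : X ≠ 0 := by
    intro h
    rw [h, mul_zero] at hX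
    rcases mul_eq_zero.mp hX.symm with h5 | h5
    · rcases mul_eq_zero.mp h5 with h6 | h6
      · exact absurd h6 two_ne_zero
      · exact hδ h6
    · exact hyd h5
  refine ⟨hS, hXne, ?_, ?_⟩
  · apply mul_left_cancel₀ (pow_ne_zero 2 hx)
    linear_combination x ^ 2 * hY + (-(y - δ) - ω * (y - (2 * ω + 1) * δ)) * hX +
      (1 + (2 * ω + 1)) * δ * hE + (-4 * δ ^ 2 * (y - δ)) * hω
  · apply mul_left_cancel₀ (pow_ne_zero 2 hx)
    linear_combination x ^ 2 * hY + (-(y - δ) - ω ^ 2 * (y + (2 * ω + 1) * δ)) * hX +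
      (1 - (2 * ω + 1)) * δ * hE + (δ * (y - δ) * (2 * y + δ * (4 * ω - 2))) * hω

theorem Geo.shift (G : Geo V ω δ φ T) (a : ZMod 3) {P : V.Point} (h0 : P ≠ 0) (hx : xc P ≠ 0) :
    P + a.val • T ≠ 0 ∧ xc (P + a.val • T) ≠ 0 ∧
      (yc (P + a.val • T) - (2 * ω + 1) * δ) * xc P = ω ^ a.val * (yc P - (2 * ω + 1) * δ) * xc (P + a.val • T) ∧
      (yc (P + a.val • T) + (2 * ω + 1) * δ) * xc P =
        (ω ^ 2) ^ a.val * (yc P + (2 * ω + 1) * δ) * xc (P + a.val • T) := by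
  have hlt : a.val < 3 := ZMod.val_lt a
  generalize a.val = n at *
  interval_cases n
  · rw [zero_nsmul, add_zero, pow_zero, pow_zero, one_mul, one_mul]
    exact ⟨h0, hx, rfl, rfl⟩
  · rw [one_nsmul, pow_one, pow_one]
    exact G.shift1 h0 hx
  · obtain ⟨a1, a2, a3, a4⟩ := G.shift1 h0 hx
    obtain ⟨b1, b2, b3, b4⟩ := G.shift1 a1 a2
    rw [two_nsmul, ← add_assoc]
    refine ⟨b1, b2, ?_, ?_⟩
    · apply mul_left_cancel₀ a2
      linear_combination xc P * b3 + ω * xc (P + T + T) * a3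
    · apply mul_left_cancel₀ a2
      linear_combination xc P * b4 + ω ^ 2 * xc (P + T + T) * a4

theorem Geo.det (G : Geo V ω δ φ T) {P Q : V.Point} (h0 : P ≠ 0) (h0' : Q ≠ 0) (hx : xc P ≠ 0)
    (h1 : (yc P - (2 * ω + 1) * δ) * xc Q = (yc Q - (2 * ω + 1) * δ) * xc P)
    (h2 : (yc P + (2 * ω + 1) * δ) * xc Q = (yc Q + (2 * ω + 1) * δ) * xc P) : P = Q := by
  have hδ := G.delta_ne
  have hθ : (2 : F) * ω + 1 ≠ 0 := theta_ne G.om
  have hX : xc P = xc Q := by
    have h3 : (2 * ((2 * ω + 1) * δ)) * (xc P - xc Q) = 0 := by linear_combination h1 - h2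
    rcases mul_eq_zero.mp h3 with h4 | h4
    · exact absurd h4 (mul_ne_zero two_ne_zero (mul_ne_zero hθ hδ))
    · exact sub_eq_zero.mp h4
  have hY : yc P = yc Q := by
    rw [← hX] at h1
    have h5 := mul_right_cancel₀ hx h1
    linear_combination h5
  exact pt_ext h0 h0' hX hY

end H35Q
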