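import Mathlib
import Pool.Agent.Lib.H16C.TR2
import Pool.Agent.Lib.H35Q.G3
import Pool.Agent.Lib.H35Q.G4
import Pool.Agent.Lib.H35Q.K0
import Pool.Agent.Lib.H35Q.L1

/-! Chunk L2 (M): the local computation, stage A. Ω' = AlgebraicClosure L, ι : Ω → Ω'. sgσ: for σ in Gal(Ω'/L), g its restriction to Ω (H16C.exists_restrict), t in Ω: sg (ι t) (σ.restrictScalars K) = sg t g (ι injective). geo_map: Geo for the curve over Ω' with
ι ω, ι δ, φ', T' = map ι T, map ι (pim φ P) = pim φ' (map ι P). hloc gives Q with map ι (c g) = σ Q - Q; by avoid replace Q by Q + S: 3 Q <> 0, xc (3 Q) <> 0. R = pim φ' Q. pim φ' R = -3 Q (pim_pim), so R is nonzero with xc R <> 0 (otherwise pim R = 0, Geo.ker / xzero, pim_T).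
σ R = sg θ' σ • pim φ' (σ Q) = ε • (R + b(g) • T') (rho_pim; σ Q = Q + map ι (c g); map ι (pim φ (c g)) = b(g) • T'). Let (X, Y) be the coordinates of pim φ' R = -3 Q; 3 σ Q = 3 Q (3 c = 0), so X, Y are fixed by all σ: X, Y in L (fix_mem); X <> 0; Y^2 = X^3 + D.
h = (yc R - θ δ)/(θ xc R) (θ, δ, ω: images in Ω'). cube (G3): h^3 = Y + δ. For σ with σ δ = δ: σ h = ω^(b g) h: ε = 1: shift (G4) for R + b T'; ε = -1: xc (σ R) = xc (R + b T'), yc (σ R) = -yc (R + b T'), σ θ = -θ. κ = ι w X/h: κ^3 = (p + q δ) X^3/(Y + δ) = (p + q δ)(Y - δ)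
(X^3 = Y^2 - δ^2; Y + δ <> 0 since X <> 0) = (p Y - D q) + (q Y - p) δ; for σ δ = δ: g δ = δ, g w = ω^(b g) w, so σ κ = κ. cub_of_fix over L (B = D, P = p Y - D q, Q = q Y - p, N = n X: P^2 - D Q^2 = (p^2 - D q^2)(Y^2 - D)). -/

namespace H35Q

open H16C

open Classical in
theorem sg_restrict {K Ω : Type*} [Field K] [Field Ω] [Algebra K Ω] {L : Type*} [Field L] [Algebra K L]
    (ι : Ω →ₐ[K] AlgebraicClosure L) {σ : AlgebraicClosure L ≃ₐ[L] AlgebraicClosure L} {g : Ω ≃ₐ[K] Ω}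
    (h : ∀ x, ι (g x) = σ (ι x)) (t : Ω) : sg (ι t) (σ.restrictScalars K) = sg t g := by
  have hinj : Function.Injective ι := (ι : Ω →+* AlgebraicClosure L).injective
  have h1 : (σ.restrictScalars K) (ι t) = ι t ↔ g t = t := by
    constructor
    · intro h2
      apply hinj
      rw [h]
      exact h2
    · intro h2
      show σ (ι t) = ι t
      rw [← h, h2]
  unfold sg
  by_cases h2 : g t = t
  · rw [if_pos h2, if_pos (h1.2 h2)]
  · rw [if_neg h2, if_neg (fun h3 => h2 (h1.1 h3))]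

theorem l2_lim {L Ω' : Type*} [Field L] [Field Ω'] [Algebra L Ω'] [IsAlgClosure L Ω'] [CharZero Ω']
    {D p q n X Y : L} {s h w : Ω'} (hs : s ^ 2 = algebraMap L Ω' D) (hD : D ≠ 0) (hXY : Y ^ 2 = X ^ 3 + D)
    (hX : X ≠ 0) (hh : h ^ 3 = algebraMap L Ω' Y + s) (hw : w ^ 3 = algebraMap L Ω' p + algebraMap L Ω' q * s)
    (hn : p ^ 2 - D * q ^ 2 = n ^ 3) (hn0 : n ≠ 0)
    (H : ∀ σ : Ω' ≃ₐ[L] Ω', σ s = s → ∃ c : Ω', c ≠ 0 ∧ σ h = c * h ∧ σ w = c * w) : LIm L D p q := by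
  have hXY' : algebraMap L Ω' Y ^ 2 = algebraMap L Ω' X ^ 3 + algebraMap L Ω' D := by
    rw [← map_pow, ← map_pow, hXY, map_add]
  have hX' : algebraMap L Ω' X ≠ 0 := (_root_.map_ne_zero _).2 hX
  have h1 : h ^ 3 * (algebraMap L Ω' Y - s) = algebraMap L Ω' X ^ 3 := by
    rw [hh]
    linear_combination hXY' - hs
  have h0 : h ≠ 0 := by
    intro h2
    rw [h2] at h1
    apply pow_ne_zero 3 hX'
    rw [← h1]
    ring
  refine ⟨X, Y, hXY, hX, ?_⟩
  have hκ : (w * algebraMap L Ω' X / h) ^ 3 = algebraMap L Ω' (p * Y - D * q) + algebraMap L Ω' (q * Y - p) * s := by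
    rw [div_pow, mul_pow, hw, ← h1]
    have h3 : h ^ 3 ≠ 0 := pow_ne_zero 3 h0
    rw [div_eq_iff h3]
    rw [map_sub, map_sub, map_mul, map_mul, map_mul]
    linear_combination (-(h ^ 3) * algebraMap L Ω' q) * hs
  have hN : (p * Y - D * q) ^ 2 - D * (q * Y - p) ^ 2 = (n * X) ^ 3 := by
    rw [mul_pow, ← hn]
    linear_combination (p ^ 2 - D * q ^ 2) * hXY
  refine cub_of_fix hs hD hκ hN (mul_ne_zero hn0 hX) (fun σ hσ => ?_)
  obtain ⟨c, hc0, hch, hcw⟩ := H σ hσ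
  rw [map_div₀, map_mul, hch, hcw, σ.commutes, mul_assoc, mul_div_mul_left _ _ hc0]

section

variable {K : Type*} [Field K] [CharZero K] {W : WeierstrassCurve.Affine K} [W.IsShortNF] [W.IsElliptic]
  {L Ω' : Type*} [Field L] [Algebra K L] [Field Ω'] [Algebra L Ω'] [Algebra K Ω'] [IsScalarTower K L Ω']
  [IsAlgClosure L Ω'] [CharZero Ω']

open Classical in
omit [CharZero K] in
theorem l2_core {ω δ : Ω'} {φ : Pt W Ω' →+ Pt W Ω'} {T : Pt W Ω'}
    (G : Geo (WeierstrassCurve.Affine.baseChange W Ω') ω δ φ T) {Q : Pt W Ω'}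
    (h0 : (3 : ℕ) • Q ≠ 0) (hx0 : xc ((3 : ℕ) • Q) ≠ 0)
    (H3 : ∀ σ : Ω' ≃ₐ[L] Ω', (3 : ℕ) • rho W (σ.restrictScalars K) Q = (3 : ℕ) • Q) :
    ∃ (X Y : L) (h : Ω'), Y ^ 2 = X ^ 3 + algebraMap K L W.a₆ ∧ X ≠ 0 ∧ h ^ 3 = algebraMap L Ω' Y + δ ∧
      ∀ (σ : Ω' ≃ₐ[L] Ω') (b : ZMod 3), pim φ (rho W (σ.restrictScalars K) Q) = pim φ Q + b.val • T →
        σ δ = δ → σ h = ω ^ b.val * h := by
  have hR : pim φ (pim φ Q) = -((3 : ℕ) • Q) := G.pim_pim Q
  have hR2 : pim φ (pim φ Q) ≠ 0 := by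
    rw [hR]
    exact neg_ne_zero.mpr h0
  have hR0 : pim φ Q ≠ 0 := by
    intro h
    rw [h, map_zero] at hR2
    exact hR2 rfl
  have hRx : xc (pim φ Q) ≠ 0 := by
    intro h
    apply hR2
    rcases G.xzero hR0 h with h1 | h1
    · rw [h1, G.pim_T]
    · rw [h1, map_neg, G.pim_T, neg_zero]
  have hfix : ∀ σ : Ω' ≃ₐ[L] Ω', rho W (σ.restrictScalars K) (pim φ (pim φ Q)) = pim φ (pim φ Q) := by
    intro σ
    rw [hR, map_neg, map_nsmul, H3]
  obtain ⟨X, hX⟩ := fix_mem (K := L) (x := xc (pim φ (pim φ Q))) (fun σ => by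
    have h1 := rx (W := W) (σ.restrictScalars K) (pim φ (pim φ Q))
    rw [hfix] at h1
    exact h1.symm)
  obtain ⟨Y, hY⟩ := fix_mem (K := L) (x := yc (pim φ (pim φ Q))) (fun σ => by
    have h1 := ry (W := W) (σ.restrictScalars K) (pim φ (pim φ Q))
    rw [hfix] at h1
    exact h1.symm)
  have ha6 : (WeierstrassCurve.Affine.baseChange W Ω').a₆ = algebraMap L Ω' (algebraMap K L W.a₆) := by
    rw [← IsScalarTower.algebraMap_apply]
    rfl
  have hXY : Y ^ 2 = X ^ 3 + algebraMap K L W.a₆ := by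
    apply (algebraMap L Ω').injective
    rw [map_pow, map_add, map_pow, hX, hY, eqn hR2, G.a4, ha6]
    ring
  have hX0 : X ≠ 0 := by
    intro h
    rw [h, map_zero, hR, xc_neg] at hX
    exact hx0 hX.symm
  have hθ : 2 * ω + 1 ≠ 0 := theta_ne G.om
  have hcube := G.cube hR0 hRx
  refine ⟨X, Y, (yc (pim φ Q) - (2 * ω + 1) * δ) / ((2 * ω + 1) * xc (pim φ Q)), hXY, hX0, ?_, ?_⟩
  · rw [div_pow, hcube, hY, mul_pow, mul_div_cancel_left₀]
    exact mul_ne_zero (pow_ne_zero 3 hθ) (pow_ne_zero 3 hRx)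
  · intro σ b hb hδ
    obtain ⟨hP0, hPx, hP1, -⟩ := G.shift b hR0 hRx
    have hrho := rho_pim G (σ.restrictScalars K) Q
    rw [hb] at hrho
    have hx := rx (W := W) (σ.restrictScalars K) (pim φ Q)
    have hy := ry (W := W) (σ.restrictScalars K) (pim φ Q)
    rw [hrho] at hx hy
    have hst : (σ.restrictScalars K) (2 * ω + 1) = (sg (2 * ω + 1) (σ.restrictScalars K) : Ω') * (2 * ω + 1) :=
      sg_spec (theta_rat K G.om) _
    change _ = σ _ at hx hy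
    change σ _ = _ at hst
    rw [map_div₀, map_sub, map_mul, map_mul, ← hx, ← hy, hδ, hst]
    rcases sg_cases (2 * ω + 1) (σ.restrictScalars K) with h1 | h1
    · rw [h1, one_smul, Int.cast_one, one_mul, mul_div_assoc', div_eq_div_iff (mul_ne_zero hθ hPx) (mul_ne_zero hθ hRx)]
      linear_combination (2 * ω + 1) * hP1
    · rw [h1, neg_smul, one_smul, xc_neg, yc_neg, Int.cast_neg, Int.cast_one, mul_div_assoc',
        div_eq_div_iff (mul_ne_zero (mul_ne_zero (by norm_num) hθ) hPx) (mul_ne_zero hθ hRx)]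
      linear_combination (-(2 * ω + 1)) * hP1

end

open Classical in
theorem locA {K Ω : Type*} [Field K] [CharZero K] [Field Ω] [Algebra K Ω] [IsAlgClosure K Ω] [CharZero Ω]
    (W : WeierstrassCurve.Affine K) [W.IsShortNF] [W.IsElliptic] {ω δ : Ω} {φ : Pt W Ω →+ Pt W Ω} {T : Pt W Ω}
    (G : Geo (WeierstrassCurve.Affine.baseChange W Ω) ω δ φ T) (L : Type*) [Field L] [Algebra K L]
    [Infinite (Pt W L)] (c : (Ω ≃ₐ[K] Ω) → Pt W Ω) (hloc : LocTriv W Ω L c) (h3 : ∀ g, (3 : ℕ) • c g = 0)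
    (b : (Ω ≃ₐ[K] Ω) → ZMod 3) (hb : ∀ g, pim φ (c g) = (b g).val • T) {w : Ω} (hw0 : w ≠ 0) {p q n : K}
    (hn : p ^ 2 - W.a₆ * q ^ 2 = n ^ 3) (hn0 : n ≠ 0) (hpq : w ^ 3 = algebraMap K Ω p + algebraMap K Ω q * δ)
    (hw : ∀ g : Ω ≃ₐ[K] Ω, g δ = δ → g w = ω ^ (b g).val * w) :
    LIm L (algebraMap K L W.a₆) (algebraMap K L p) (algebraMap K L q) := by
  have hΩ : IsAlgClosed Ω := IsAlgClosure.isAlgClosed K
  have hΩa : Algebra.IsAlgebraic K Ω := IsAlgClosure.isAlgebraic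
  have hcL : CharZero L := charZero_of_injective_algebraMap (algebraMap K L).injective
  have hcL' : CharZero (AlgebraicClosure L) := charZero_of_injective_algebraMap
    (algebraMap L (AlgebraicClosure L)).injective
  let ι : Ω →ₐ[K] AlgebraicClosure L := IsAlgClosed.lift
  have hinj : Function.Injective ι := (ι : Ω →+* AlgebraicClosure L).injective
  obtain ⟨φ', G', hpm⟩ := geo_map ι G
  obtain ⟨Q0, hQ0⟩ := hloc ι
  obtain ⟨S, hS, hS0, hSx⟩ := avoid (L := L) W Q0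
  have hres := exists_restrict (K := K) (Ω := Ω) (L := L) ι
  have hQ : ∀ (σ : AlgebraicClosure L ≃ₐ[L] AlgebraicClosure L) (g : Ω ≃ₐ[K] Ω), (∀ x, ι (g x) = σ (ι x)) →
      rho W (σ.restrictScalars K) (Q0 + S) = Q0 + S + WeierstrassCurve.Affine.Point.map ι (c g) := by
    intro σ g h
    rw [map_add, hS σ, hQ0 σ g h]
    change rho W (σ.restrictScalars K) Q0 + S = Q0 + S + (rho W (σ.restrictScalars K) Q0 - Q0)
    abel
  obtain ⟨X, Y, h, hXY, hX, hh, hσ⟩ := l2_core (L := L) G' hS0 hSx (fun σ => by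
    obtain ⟨g, hg, -⟩ := hres σ
    rw [hQ σ g hg, nsmul_add, ← map_nsmul, h3, map_zero, add_zero])
  have hδ2 : (ι δ) ^ 2 = algebraMap L (AlgebraicClosure L) (algebraMap K L W.a₆) := by
    rw [← IsScalarTower.algebraMap_apply]
    exact G'.sq
  have hD : algebraMap K L W.a₆ ≠ 0 := by
    intro hz
    rw [hz, map_zero] at hδ2
    exact G'.delta_ne (pow_eq_zero_iff (two_ne_zero)|>.1 hδ2)
  have hw3 : (ι w) ^ 3 = algebraMap L (AlgebraicClosure L) (algebraMap K L p) +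
      algebraMap L (AlgebraicClosure L) (algebraMap K L q) * ι δ := by
    rw [← map_pow, hpq, map_add, map_mul, ι.commutes, ι.commutes, ← IsScalarTower.algebraMap_apply,
      ← IsScalarTower.algebraMap_apply]
  refine l2_lim (n := algebraMap K L n) (w := ι w) hδ2 hD hXY hX hh hw3 ?_ ((_root_.map_ne_zero _).2 hn0) ?_
  · rw [← map_pow, ← map_pow, ← map_pow, ← hn, map_sub, map_mul]
  · intro σ hσδ
    obtain ⟨g, hg, -⟩ := hres σ
    refine ⟨(ι ω) ^ (b g).val, pow_ne_zero _ (om_ne G'.om), hσ σ (b g) ?_ hσδ, ?_⟩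
    · rw [hQ σ g hg, map_add, ← hpm, hb, map_nsmul]
    · rw [← hg w, hw g, map_mul, map_pow]
      apply hinj
      rw [hg, hσδ]

end H35Q
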