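import Mathlib
import Pool.Agent.Lib.H16C.T1
import Pool.Agent.Lib.H35Q.K1
import Pool.Agent.Lib.H35Q.K2
import Pool.Agent.Lib.H35Q.K3
import Pool.Agent.Lib.H35Q.L2
import Pool.Agent.Lib.H35Q.S1

/-! Chunk A1 (M): stage A. stA_b: pim φ (pim φ (c g)) = -(3 c g) = 0, so pim φ (c g) = b(g) • T (Geo.ker); b(g h) = b(g) + sg(θ δ)(g) b(h): pim φ (c (g h)) = pim φ (c g) + pim φ (g c h) (c is a cocycle, act_eq), pim φ (g P) = sg θ g • g (pim φ P) (rho_pim, sg_sq),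
rho_aT, sg_prod, val_zsmul, val_add, val_inj (T nonzero, Geo.three_T); continuity from that of c. pim_surj: Ω algebraically closed, every R is pim φ S: divisible (H16C.T1): 3 S' = R, S = -pim φ S' (pim_pim).
stA: b from stA_b; w from k_h90 with s = δ; p, q, n from k_norm with B = a₆ (sq: δ^2 = algebraMap a₆, rfl-form of (baseChange W Ω).a₆); locA at every finite place (hinf) ; SelT gives Cub; k_conv gives j; pim_surj S for j • T; c'(g) = c g - (g S - S): pim φ c'(g) = b(g) T - (sg θ g g(j T) - j T) =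
(b(g) - (sg(θδ) g - 1) j) T = 0, so c' g = a(g) • T (Geo.ker). -/

open NumberField IsDedekindDomain

namespace H35Q

open H16C

section

variable {K Ω : Type*} [Field K] [CharZero K] [Field Ω] [Algebra K Ω] [IsAlgClosure K Ω] [CharZero Ω]
  {W : WeierstrassCurve.Affine K} [W.IsShortNF] [W.IsElliptic]

open Classical in
theorem a1_pim_rho {ω δ : Ω} {φ : Pt W Ω →+ Pt W Ω} {T : Pt W Ω}
    (G : Geo (WeierstrassCurve.Affine.baseChange W Ω) ω δ φ T) (g : Ω ≃ₐ[K] Ω) (P : Pt W Ω) :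
    pim φ (rho W g P) = sg (2 * ω + 1) g • rho W g (pim φ P) := by
  rw [rho_pim G, smul_smul, sg_sq, one_smul]

open Classical in
theorem stA_b {ω δ : Ω} {φ : Pt W Ω →+ Pt W Ω} {T : Pt W Ω}
    (G : Geo (WeierstrassCurve.Affine.baseChange W Ω) ω δ φ T) (c : (Ω ≃ₐ[K] Ω) → Pt W Ω)
    (hc : IsCocycle W Ω c) (h3 : ∀ g, (3 : ℕ) • c g = 0) :
    ∃ b : (Ω ≃ₐ[K] Ω) → ZMod 3, Coc ((2 * ω + 1) * δ) b ∧ ∀ g, pim φ (c g) = (b g).val • T := by
  have h1 : ∀ g, ∃ b : ZMod 3, pim φ (c g) = b.val • T := by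
    intro g
    rw [← G.ker, G.pim_pim, h3 g, neg_zero]
  choose b hb using h1
  refine ⟨b, ⟨fun g h => ?_, ?_⟩, hb⟩
  · apply val_inj G.three_T G.ne
    rw [val_add G.three_T, ← hb, hc.1 g h, act_eq, map_add, hb g, a1_pim_rho G, hb h, rho_aT G,
      sg_prod (theta_rat K G.om) ⟨W.a₆, G.sq⟩ (theta_ne G.om) G.delta_ne, Int.cast_mul, mul_assoc,
      val_zsmul G.three_T, val_zsmul G.three_T, val_zsmul G.three_T]
  · obtain ⟨F, hF, h2⟩ := hc.2
    refine ⟨F, hF, fun g hg => ?_⟩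
    apply val_inj G.three_T G.ne
    rw [← hb, h2 g hg, map_zero]
    simp

open Classical in
theorem pim_surj {ω δ : Ω} {φ : Pt W Ω →+ Pt W Ω} {T : Pt W Ω}
    (G : Geo (WeierstrassCurve.Affine.baseChange W Ω) ω δ φ T) (R : Pt W Ω) : ∃ S, pim φ S = R := by
  have hcl : IsAlgClosed Ω := IsAlgClosure.isAlgClosed K
  obtain ⟨S', hS'⟩ := divisible 3 (by norm_num) R
  refine ⟨-pim φ S', ?_⟩
  rw [map_neg, G.pim_pim, neg_neg, hS']

end

open Classical in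
theorem stA {K : Type} {Ω : Type*} [Field K] [NumberField K] [Field Ω] [Algebra K Ω] [IsAlgClosure K Ω] [CharZero Ω]
    {W : WeierstrassCurve.Affine K} [W.IsShortNF] [W.IsElliptic] {ω δ : Ω} {φ : Pt W Ω →+ Pt W Ω} {T : Pt W Ω}
    (G : Geo (WeierstrassCurve.Affine.baseChange W Ω) ω δ φ T) (h1 : ∀ x : K, x ^ 2 ≠ W.a₆)
    (hinf : ∀ w : HeightOneSpectrum (𝓞 K), Infinite (Pt W (w.adicCompletion K)))
    (hA : SelT K W.a₆) (c : (Ω ≃ₐ[K] Ω) → Pt W Ω)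
    (hc : IsCocycle W Ω c) (hl : EverywhereTriv W Ω c) (h3 : ∀ g, (3 : ℕ) • c g = 0) :
    ∃ (S : Pt W Ω) (a : (Ω ≃ₐ[K] Ω) → ZMod 3), ∀ g, c g = (rho W g S - S) + (a g).val • T := by
  obtain ⟨b, hb, hbT⟩ := stA_b G c hc h3
  have ha6 : W.a₆ ≠ 0 := by
    intro h0
    apply h1 0
    rw [h0]
    ring
  have hsq : δ ^ 2 = algebraMap K Ω W.a₆ := G.sq
  obtain ⟨w, hw0, hw⟩ := k_h90 G.om ⟨W.a₆, ha6, hsq⟩ b hb
  obtain ⟨p, q, n, hpq, hn, hn0⟩ := k_norm G.om hsq h1 b hb hw0 hw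
  have hcub : Cub W.a₆ p q := hA p q n hn hn0 fun v => by
    have := hinf v
    exact locA W G (v.adicCompletion K) c (hl.1 v) h3 b hbT hw0 hn hn0 hpq hw
  obtain ⟨j, hj⟩ := k_conv G.om hsq h1 b hb hw0 hw hpq hcub
  obtain ⟨S, hS⟩ := pim_surj G (j.val • T)
  have h4 : ∀ g, ∃ a : ZMod 3, c g - (rho W g S - S) = a.val • T := by
    intro g
    rw [← G.ker, map_sub, map_sub, a1_pim_rho G, hS, hbT, rho_aT G, hj g,
      sg_prod (theta_rat K G.om) ⟨W.a₆, hsq⟩ (theta_ne G.om) G.delta_ne, ← val_zsmul G.three_T,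
      sub_mul, one_mul, Int.cast_mul, mul_assoc, sub_eq_zero, eq_sub_iff_add_eq,
      ← val_add G.three_T, sub_add_cancel]
  choose a ha using h4
  refine ⟨S, a, fun g => ?_⟩
  rw [← ha g]
  abel

end H35Q
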