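import Mathlib
import Pool.Agent.Lib.H16C.TR2
import Pool.Agent.Lib.H35Q.L2

/-! Chunk L3 (M): the local computation, stage B (see L2 for the notation; θ = 2 ω + 1, s = 3 θ δ, s^2 = -27 D; images under ι are denoted by the same letters). hloc gives Q, σ Q - Q = map ι (c g) = (a g) • T'; by avoid: 3 Q <> 0, xc (3 Q) <> 0. R = Q: R <> 0, xc R <> 0 (otherwise pim R = 0,
3 R = -pim (pim R) = 0), and the same for pim φ' R =: (X, Y): X <> 0 (otherwise 3 R = 0). σ (pim R) = ε pim (σ R) = ε pim R (ε = sg θ σ; pim T' = 0). So X is in L, σ Y = ε Y, v = -3 θ Y is in L. u = -3 X, v^2 = u^3 - 27 D (Y^2 = X^3 + D, θ^2 = -3).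
h = (yc R - θ δ)/xc R: cube: h^3 = θ^3 (Y + δ) = v - s (θ^3 = -3 θ). For σ with σ s = s (i.e. σ (θ δ) = θ δ): σ h = (yc (σ R) - θ δ)/xc (σ R) = ω^(a g) h (shift, σ R = R + a T'), σ (ι w) = ω^(a g) ι w. κ = -ι w u/h: fixed by these σ;
κ^3 = -(p + q s) u^3/(v - s) = -(p + q s)(v + s) (u^3 = v^2 - s^2; v - s <> 0) = (p + q s)(v' - s) with v' = -v: = (p v' - (-27 D) q) + (q v' - p) s. cub_of_fix over L with B = -27 D, P = p v' + 27 D q, Q = q v' - p, N = n u. Point (u, v'). -/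

namespace H35Q

open H16C

section

variable {K : Type*} [Field K] [CharZero K] {W : WeierstrassCurve.Affine K} [W.IsShortNF] [W.IsElliptic]
  {L Ω' : Type*} [Field L] [Algebra K L] [Field Ω'] [Algebra L Ω'] [Algebra K Ω'] [IsScalarTower K L Ω']
  [IsAlgClosure L Ω'] [CharZero Ω']

open Classical in
omit [CharZero K] in
theorem l3_core {ω δ : Ω'} {φ : Pt W Ω' →+ Pt W Ω'} {T : Pt W Ω'}
    (G : Geo (WeierstrassCurve.Affine.baseChange W Ω') ω δ φ T) {Q : Pt W Ω'}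
    (h0 : (3 : ℕ) • Q ≠ 0) (H : ∀ σ : Ω' ≃ₐ[L] Ω', ∃ a : ZMod 3, rho W (σ.restrictScalars K) Q = Q + a.val • T) :
    ∃ (X Y : L) (h : Ω'), Y ^ 2 = X ^ 3 + algebraMap K L (-27 * W.a₆) ∧ X ≠ 0 ∧
      h ^ 3 = algebraMap L Ω' Y + 3 * (2 * ω + 1) * δ ∧
      ∀ (σ : Ω' ≃ₐ[L] Ω') (a : ZMod 3), rho W (σ.restrictScalars K) Q = Q + a.val • T →
        σ (3 * (2 * ω + 1) * δ) = 3 * (2 * ω + 1) * δ → σ h = ω ^ a.val * h := by
  have hPP : pim φ (pim φ Q) = -((3 : ℕ) • Q) := G.pim_pim Q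
  have hPP0 : pim φ (pim φ Q) ≠ 0 := by
    rw [hPP]
    exact neg_ne_zero.mpr h0
  have hP0 : pim φ Q ≠ 0 := by
    intro h
    rw [h, map_zero] at hPP0
    exact hPP0 rfl
  have hPx : xc (pim φ Q) ≠ 0 := by
    intro h
    apply hPP0
    rcases G.xzero hP0 h with h1 | h1
    · rw [h1, G.pim_T]
    · rw [h1, map_neg, G.pim_T, neg_zero]
  have hQ0 : Q ≠ 0 := by
    intro h
    rw [h, map_zero] at hP0
    exact hP0 rfl
  have hQx : xc Q ≠ 0 := by
    intro h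
    apply hP0
    rcases G.xzero hQ0 h with h1 | h1
    · rw [h1, G.pim_T]
    · rw [h1, map_neg, G.pim_T, neg_zero]
  have hpim : ∀ σ : Ω' ≃ₐ[L] Ω', rho W (σ.restrictScalars K) (pim φ Q) =
      sg (2 * ω + 1) (σ.restrictScalars K) • pim φ Q := by
    intro σ
    obtain ⟨a, ha⟩ := H σ
    rw [rho_pim G, ha, map_add, map_nsmul, G.pim_T, smul_zero, add_zero]
  have hst : ∀ σ : Ω' ≃ₐ[L] Ω', σ (2 * ω + 1) = (sg (2 * ω + 1) (σ.restrictScalars K) : Ω') * (2 * ω + 1) := by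
    intro σ
    exact sg_spec (theta_rat K G.om) (σ.restrictScalars K)
  obtain ⟨X, hX⟩ := fix_mem (K := L) (x := xc (pim φ Q)) (fun σ => by
    have h1 := rx (W := W) (σ.restrictScalars K) (pim φ Q)
    rw [hpim] at h1
    change _ = σ _ at h1
    rw [← h1]
    rcases sg_cases (2 * ω + 1) (σ.restrictScalars K) with h2 | h2
    · rw [h2, one_smul]
    · rw [h2, neg_smul, one_smul, xc_neg])
  obtain ⟨Y, hY⟩ := fix_mem (K := L) (x := 3 * (2 * ω + 1) * yc (pim φ Q)) (fun σ => by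
    have h1 := ry (W := W) (σ.restrictScalars K) (pim φ Q)
    rw [hpim] at h1
    change _ = σ _ at h1
    rw [map_mul, map_mul, hst, ← h1, map_ofNat]
    rcases sg_cases (2 * ω + 1) (σ.restrictScalars K) with h2 | h2
    · rw [h2, one_smul, Int.cast_one, one_mul]
    · rw [h2, neg_smul, one_smul, yc_neg, Int.cast_neg, Int.cast_one]
      ring)
  have ha6 : (WeierstrassCurve.Affine.baseChange W Ω').a₆ = algebraMap L Ω' (algebraMap K L W.a₆) := by
    rw [← IsScalarTower.algebraMap_apply]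
    rfl
  have hθ : 2 * ω + 1 ≠ 0 := theta_ne G.om
  have hθ2 : (2 * ω + 1) ^ 2 = -3 := theta_sq G.om
  have hE := eqn hP0
  rw [G.a4, ha6] at hE
  refine ⟨-3 * X, Y, -((yc Q - (2 * ω + 1) * δ) / xc Q), ?_, ?_, ?_, ?_⟩
  · apply (algebraMap L Ω').injective
    rw [map_pow, map_add, map_pow, map_mul, map_neg, map_ofNat, hX, hY, map_mul, map_mul, map_neg, map_neg,
      map_ofNat, map_ofNat, mul_pow, mul_pow, hθ2, hE]
    ring
  · apply mul_ne_zero (neg_ne_zero.mpr _)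
    · intro h
      rw [h, map_zero] at hX
      exact hPx hX.symm
    · intro h
      have h1 : algebraMap L Ω' 3 = 0 := by rw [h, map_zero]
      rw [map_ofNat] at h1
      exact three_ne_zero h1
  · rw [hY, Odd.neg_pow (by decide), div_pow, G.cube hQ0 hQx]
    have h3 : xc Q ^ 3 ≠ 0 := pow_ne_zero 3 hQx
    have h4 : (2 * ω + 1) ^ 3 * xc Q ^ 3 * (yc (pim φ Q) + δ) / xc Q ^ 3 = (2 * ω + 1) ^ 3 * (yc (pim φ Q) + δ) := by
      rw [mul_right_comm, mul_div_assoc, div_self h3, mul_one]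
    rw [h4]
    linear_combination (-(2 * ω + 1) * yc (pim φ Q) - (2 * ω + 1) * δ) * hθ2
  · intro σ a ha hs
    obtain ⟨hP0, hPx, hP1, -⟩ := G.shift a hQ0 hQx
    have hx := rx (W := W) (σ.restrictScalars K) Q
    have hy := ry (W := W) (σ.restrictScalars K) Q
    rw [ha] at hx hy
    change _ = σ _ at hx hy
    have hs' : σ ((2 * ω + 1) * δ) = (2 * ω + 1) * δ := by
      rw [mul_assoc, map_mul, map_ofNat] at hs
      exact mul_left_cancel₀ three_ne_zero hs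
    rw [map_neg, map_div₀, map_sub, ← hx, ← hy, hs', mul_neg, neg_inj, mul_div_assoc', div_eq_div_iff hPx hQx]
    exact hP1

end

open Classical in
theorem locB {K Ω : Type*} [Field K] [CharZero K] [Field Ω] [Algebra K Ω] [IsAlgClosure K Ω] [CharZero Ω]
    (W : WeierstrassCurve.Affine K) [W.IsShortNF] [W.IsElliptic] {ω δ : Ω} {φ : Pt W Ω →+ Pt W Ω} {T : Pt W Ω}
    (G : Geo (WeierstrassCurve.Affine.baseChange W Ω) ω δ φ T) (L : Type*) [Field L] [Algebra K L]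
    [Infinite (Pt W L)] (c : (Ω ≃ₐ[K] Ω) → Pt W Ω) (hloc : LocTriv W Ω L c)
    (a : (Ω ≃ₐ[K] Ω) → ZMod 3) (hc : ∀ g, c g = (a g).val • T) {w : Ω} (hw0 : w ≠ 0) {p q n : K}
    (hn : p ^ 2 - (-27 * W.a₆) * q ^ 2 = n ^ 3) (hn0 : n ≠ 0)
    (hpq : w ^ 3 = algebraMap K Ω p + algebraMap K Ω q * (3 * (2 * ω + 1) * δ))
    (hw : ∀ g : Ω ≃ₐ[K] Ω, g (3 * (2 * ω + 1) * δ) = 3 * (2 * ω + 1) * δ → g w = ω ^ (a g).val * w) :
    LIm L (algebraMap K L (-27 * W.a₆)) (algebraMap K L p) (algebraMap K L q) := by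
  have hΩ : IsAlgClosed Ω := IsAlgClosure.isAlgClosed K
  have hΩa : Algebra.IsAlgebraic K Ω := IsAlgClosure.isAlgebraic
  have hcL : CharZero L := charZero_of_injective_algebraMap (algebraMap K L).injective
  have hcL' : CharZero (AlgebraicClosure L) := charZero_of_injective_algebraMap
    (algebraMap L (AlgebraicClosure L)).injective
  let ι : Ω →ₐ[K] AlgebraicClosure L := IsAlgClosed.lift
  have hinj : Function.Injective ι := (ι : Ω →+* AlgebraicClosure L).injective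
  obtain ⟨φ', G', hpm⟩ := geo_map ι G
  obtain ⟨Q0, hQ0⟩ := hloc ι
  obtain ⟨S, hS, hS0, hSx⟩ := avoid (L := L) W Q0
  have hres := exists_restrict (K := K) (Ω := Ω) (L := L) ι
  have hQ : ∀ (σ : AlgebraicClosure L ≃ₐ[L] AlgebraicClosure L) (g : Ω ≃ₐ[K] Ω), (∀ x, ι (g x) = σ (ι x)) →
      rho W (σ.restrictScalars K) (Q0 + S) = Q0 + S + (a g).val • WeierstrassCurve.Affine.Point.map ι T := by
    intro σ g h
    rw [← map_nsmul, ← hc, map_add, hS σ, hQ0 σ g h]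
    change rho W (σ.restrictScalars K) Q0 + S = Q0 + S + (rho W (σ.restrictScalars K) Q0 - Q0)
    abel
  obtain ⟨X, Y, h, hXY, hX, hh, hσ⟩ := l3_core (L := L) G' hS0 (fun σ => by
    obtain ⟨g, hg, -⟩ := hres σ
    exact ⟨a g, hQ σ g hg⟩)
  have hs : ι (3 * (2 * ω + 1) * δ) = 3 * (2 * ι ω + 1) * ι δ := by
    rw [map_mul, map_mul, map_add, map_mul, map_one, map_ofNat, map_ofNat]
  have hs2 : (3 * (2 * ι ω + 1) * ι δ) ^ 2 = algebraMap L (AlgebraicClosure L) (algebraMap K L (-27 * W.a₆)) := by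
    rw [← IsScalarTower.algebraMap_apply, mul_pow, mul_pow, theta_sq G'.om, G'.sq]
    change 3 ^ 2 * -3 * algebraMap K (AlgebraicClosure L) W.a₆ = _
    rw [map_mul, map_neg, map_ofNat]
    ring
  have hs0 : 3 * (2 * ι ω + 1) * ι δ ≠ 0 :=
    mul_ne_zero (mul_ne_zero three_ne_zero (theta_ne G'.om)) G'.delta_ne
  have hD : algebraMap K L (-27 * W.a₆) ≠ 0 := by
    intro hz
    rw [hz, map_zero] at hs2
    exact hs0 (pow_eq_zero_iff (two_ne_zero)|>.1 hs2)
  have hw3 : (ι w) ^ 3 = algebraMap L (AlgebraicClosure L) (algebraMap K L p) +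
      algebraMap L (AlgebraicClosure L) (algebraMap K L q) * (3 * (2 * ι ω + 1) * ι δ) := by
    rw [← map_pow, hpq, map_add, map_mul, ι.commutes, ι.commutes, ← IsScalarTower.algebraMap_apply,
      ← IsScalarTower.algebraMap_apply, hs]
  refine l2_lim (n := algebraMap K L n) (w := ι w) hs2 hD hXY hX hh hw3 ?_ ((_root_.map_ne_zero _).2 hn0) ?_
  · rw [← map_pow, ← map_pow, ← map_pow, ← hn, ← map_mul, ← map_sub]
  · intro σ hσs
    obtain ⟨g, hg, -⟩ := hres σ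
    refine ⟨(ι ω) ^ (a g).val, pow_ne_zero _ (om_ne G'.om), hσ σ (a g) (hQ σ g hg) hσs, ?_⟩
    rw [← hg w, hw g, map_mul, map_pow]
    apply hinj
    rw [hg, hs, hσs]

end H35Q
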