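import Mathlib
import Pool.Agent.Lib.H35Q.K1
import Pool.Agent.Lib.H35Q.K2
import Pool.Agent.Lib.H35Q.K3
import Pool.Agent.Lib.H35Q.L3
import Pool.Agent.Lib.H35Q.S1

/-! Chunk A2 (M): stage B. sg_conv: (2 ω + 1) (3 (2 ω + 1) δ) = -9 δ (theta_sq), sg_smul (δ nonzero: delta_ne; δ^2 rational; -9 = algebraMap K Ω (-9)). coc_T: c(g) = a(g) • T is a cocycle: rho_aT, val_add, val_inj: a satisfies Coc δ, hence Coc ((2ω+1) * s) with s = 3 (2 ω + 1) δ;
continuity from that of c. s_sq: s^2 = 9 (-3) δ^2 = -27 a₆. -27 a₆ is not a square: x^2 = -27 a₆ gives (x/3)^2 = -3 a₆. stB: w from k_h90 (s), p, q, n from k_norm (B = -27 a₆), locB at all finite places, SelT, Cub, k_conv: a g = (sg δ g - 1) j,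
c g = ((sg δ g) j).val • T - j.val • T = rho (j.val • T) - j.val • T (rho_aT, val_add; (x - 1) * j = x * j - j, val_zsmul / additivity of a ↦ a.val • T). -/

open NumberField IsDedekindDomain

namespace H35Q

open H16C

section

variable {K Ω : Type*} [Field K] [CharZero K] [Field Ω] [Algebra K Ω] [CharZero Ω]
  {W : WeierstrassCurve.Affine K} [W.IsShortNF] [W.IsElliptic]

open Classical in
theorem s_sq {ω δ : Ω} {φ : Pt W Ω →+ Pt W Ω} {T : Pt W Ω}
    (G : Geo (WeierstrassCurve.Affine.baseChange W Ω) ω δ φ T) :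
    (3 * (2 * ω + 1) * δ) ^ 2 = algebraMap K Ω (-27 * W.a₆) := by
  have hsq : δ ^ 2 = algebraMap K Ω W.a₆ := G.sq
  rw [mul_pow, mul_pow, theta_sq G.om, hsq, map_mul, map_neg, map_ofNat]
  norm_num

open Classical in
theorem sg_conv {ω δ : Ω} {φ : Pt W Ω →+ Pt W Ω} {T : Pt W Ω}
    (G : Geo (WeierstrassCurve.Affine.baseChange W Ω) ω δ φ T) (g : Ω ≃ₐ[K] Ω) :
    sg ((2 * ω + 1) * (3 * (2 * ω + 1) * δ)) g = sg δ g := by
  have h1 : (2 * ω + 1) * (3 * (2 * ω + 1) * δ) = algebraMap K Ω (-9) * δ := by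
    have h2 := theta_sq G.om
    rw [map_neg, map_ofNat]
    linear_combination 3 * δ * h2
  rw [h1]
  exact sg_smul ⟨W.a₆, G.sq⟩ G.delta_ne (by norm_num) g

open Classical in
theorem coc_T {ω δ : Ω} {φ : Pt W Ω →+ Pt W Ω} {T : Pt W Ω}
    (G : Geo (WeierstrassCurve.Affine.baseChange W Ω) ω δ φ T) (a : (Ω ≃ₐ[K] Ω) → ZMod 3) :
    IsCocycle W Ω (fun g => ((a g).val • T : Pt W Ω)) ↔ Coc ((2 * ω + 1) * (3 * (2 * ω + 1) * δ)) a := by
  constructor
  · rintro ⟨h1, F, hF, h2⟩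
    refine ⟨fun g h => ?_, F, hF, fun g hg => ?_⟩
    · apply val_inj G.three_T G.ne
      have h3 : ((a (g * h)).val • T : Pt W Ω) = (a g).val • T + act W Ω g ((a h).val • T) := h1 g h
      rw [h3, act_eq, rho_aT G, val_add G.three_T, sg_conv G]
    · apply val_inj G.three_T G.ne
      have h3 : ((a g).val • T : Pt W Ω) = 0 := h2 g hg
      rw [h3]
      simp
  · rintro ⟨h1, F, hF, h2⟩
    refine ⟨fun g h => ?_, F, hF, fun g hg => ?_⟩
    · show ((a (g * h)).val • T : Pt W Ω) = (a g).val • T + act W Ω g ((a h).val • T)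
      rw [h1 g h, act_eq, rho_aT G, val_add G.three_T, sg_conv G]
    · show ((a g).val • T : Pt W Ω) = 0
      rw [h2 g hg]
      simp

open Classical in
theorem cob_T {ω δ : Ω} {φ : Pt W Ω →+ Pt W Ω} {T : Pt W Ω}
    (G : Geo (WeierstrassCurve.Affine.baseChange W Ω) ω δ φ T) (j : ZMod 3) (g : Ω ≃ₐ[K] Ω) :
    rho W g (j.val • T) - j.val • T = (((sg δ g : ZMod 3) - 1) * j).val • T := by
  rw [rho_aT G, sub_eq_iff_eq_add, ← val_add G.three_T, sub_mul, one_mul, sub_add_cancel]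

end

open Classical in
theorem stB {K : Type} {Ω : Type*} [Field K] [NumberField K] [Field Ω] [Algebra K Ω] [IsAlgClosure K Ω] [CharZero Ω]
    {W : WeierstrassCurve.Affine K} [W.IsShortNF] [W.IsElliptic] {ω δ : Ω} {φ : Pt W Ω →+ Pt W Ω} {T : Pt W Ω}
    (G : Geo (WeierstrassCurve.Affine.baseChange W Ω) ω δ φ T) (h2 : ∀ x : K, x ^ 2 ≠ -3 * W.a₆)
    (hinf : ∀ w : HeightOneSpectrum (𝓞 K), Infinite (Pt W (w.adicCompletion K)))
    (hB : SelT K (-27 * W.a₆)) (a : (Ω ≃ₐ[K] Ω) → ZMod 3)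
    (hc : IsCocycle W Ω (fun g => ((a g).val • T : Pt W Ω)))
    (hl : EverywhereTriv W Ω (fun g => ((a g).val • T : Pt W Ω))) :
    IsCoboundary W Ω (fun g => ((a g).val • T : Pt W Ω)) := by
  have hB' : ∀ x : K, x ^ 2 ≠ -27 * W.a₆ := by
    intro x hx
    apply h2 (x / 3)
    rw [div_pow, hx]
    ring
  have hB0 : -27 * W.a₆ ≠ 0 := by
    intro h0
    apply hB' 0
    rw [h0]
    ring
  have hs := s_sq (K := K) G
  have ha := (coc_T G a).1 hc
  obtain ⟨w, hw0, hw⟩ := k_h90 G.om ⟨-27 * W.a₆, hB0, hs⟩ a ha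
  obtain ⟨p, q, n, hpq, hn, hn0⟩ := k_norm G.om hs hB' a ha hw0 hw
  have hcub : Cub (-27 * W.a₆) p q := hB p q n hn hn0 fun v => by
    have := hinf v
    exact locB W G (v.adicCompletion K) (fun g => ((a g).val • T : Pt W Ω)) (hl.1 v) a
      (fun _ => rfl) hw0 hn hn0 hpq hw
  obtain ⟨j, hj⟩ := k_conv G.om hs hB' a ha hw0 hw hpq hcub
  refine ⟨j.val • T, fun g => ?_⟩
  show ((a g).val • T : Pt W Ω) = act W Ω g (j.val • T) - j.val • T
  rw [act_eq, cob_T G, hj g, sg_conv G]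

end H35Q
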