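import Mathlib
import Pool.Agent.Lib.H16C.T1
import Pool.Agent.Lib.H35Q.A2

/-! Chunk B1 (M): A = the subgroup of the R in Pt W Ω with rho g R = sg θ g • R for all g (θ = 2 ω + 1). fin_A: R = (X, Y) nonzero in A: g X = X, g Y = sg θ g Y (coordinates of ± P), so X and θ Y are fixed by all g, in K (fix_mem): u = -3 X, v = -3 θ Y, v^2 = -27 Y^2 = u^3 - 27 a₆: R ↦ (u, v) is an injection of
A without 0 into the finite set of FinE. no_three: R in A, 3 R = 0: pim φ (pim φ R) = 0, pim φ R = j • T (Geo.ker); g (pim φ R) = sg θ g • pim φ (g R) = pim φ R (rho_pim, sg_sq); so (sg δ g) j = j for all g (rho_aT, val_inj); exists_neg (a₆ is not a square): -j = j, j = 0 in ZMod 3. So pim φ R = 0,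
R = i • T, g R = (sg δ g) i T = (sg θ g) i T: sg δ g i = sg θ g i; choose g with sg (θ δ) g = -1 (exists_neg, (θ δ)^2 = -3 a₆): sg θ g = -sg δ g (sg_prod, sg_sq): i = -i, i = 0. twist_surj: A finite and without 3-torsion: multiplication by 3 is injective on A, so surjective
(Finite.injective_iff_surjective): R = 3 R', R' in A; S = -pim φ R': pim φ S = 3 R' = R (pim_pim), g S = -sg θ g • pim φ (g R') = -pim φ R' = S. -/

open NumberField IsDedekindDomain

namespace H35Q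

open H16C

open Classical in
/-- the action on multiples -/
theorem b1_smul {K Ω : Type*} [Field K] [Field Ω] [Algebra K Ω] {W : WeierstrassCurve.Affine K}
    {θ : Ω} (g : Ω ≃ₐ[K] Ω) {R : Pt W Ω} (hR : rho W g R = sg θ g • R) (ψ : Pt W Ω →+ Pt W Ω) :
    sg θ g • ψ (rho W g R) = ψ R := by
  rw [hR, map_zsmul, smul_smul, sg_sq, one_smul]

open Classical in
/-- coordinates of the fixed points of the twisted action -/
theorem b1_coord {K Ω : Type*} [Field K] [Field Ω] [Algebra K Ω] {W : WeierstrassCurve.Affine K}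
    [W.IsShortNF] {θ : Ω} (g : Ω ≃ₐ[K] Ω) {R : Pt W Ω} (hR : rho W g R = sg θ g • R) :
    g (xc R) = xc R ∧ g (yc R) = (sg θ g : Ω) * yc R := by
  rw [← rx, ← ry, hR]
  rcases sg_cases θ g with h | h
  · rw [h, one_smul]
    exact ⟨rfl, by rw [Int.cast_one, one_mul]⟩
  · rw [h, neg_smul, one_smul, xc_neg, yc_neg]
    exact ⟨rfl, by rw [Int.cast_neg, Int.cast_one, neg_mul, one_mul]⟩

open Classical in
theorem b1_fin {K Ω : Type*} [Field K] [CharZero K] [Field Ω] [Algebra K Ω] [IsAlgClosure K Ω] [CharZero Ω]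
    {W : WeierstrassCurve.Affine K} [W.IsShortNF] [W.IsElliptic] {ω δ : Ω} {φ : Pt W Ω →+ Pt W Ω} {T : Pt W Ω}
    (G : Geo (WeierstrassCurve.Affine.baseChange W Ω) ω δ φ T) (hF : FinE K (-27 * W.a₆)) :
    {R : Pt W Ω | ∀ g : Ω ≃ₐ[K] Ω, rho W g R = sg (2 * ω + 1) g • R}.Finite := by
  have hθ0 : 2 * ω + 1 ≠ 0 := theta_ne G.om
  have hfin : (⋃ q ∈ {q : K × K | q.2 ^ 2 = q.1 ^ 3 + (-27 * W.a₆)},
      {P : Pt W Ω | P ≠ 0 ∧ -3 * xc P = algebraMap K Ω q.1 ∧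
        -3 * ((2 * ω + 1) * yc P) = algebraMap K Ω q.2}).Finite := by
    apply Set.Finite.biUnion hF
    intro q _
    apply Set.Subsingleton.finite
    rintro P ⟨hP, h1, h2⟩ Q ⟨hQ, h3, h4⟩
    have h5 : (-3 : Ω) ≠ 0 := by norm_num
    apply pt_ext hP hQ
    · exact mul_left_cancel₀ h5 (h1.trans h3.symm)
    · exact mul_left_cancel₀ hθ0 (mul_left_cancel₀ h5 (h2.trans h4.symm))
  apply ((Set.finite_singleton (0 : Pt W Ω)).union hfin).subset
  intro R hR
  by_cases hR0 : R = 0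
  · exact Or.inl hR0
  · right
    obtain ⟨x, hx⟩ := fix_mem (K := K) (x := xc R) (fun g => (b1_coord g (hR g)).1)
    obtain ⟨y, hy⟩ := fix_mem (K := K) (x := (2 * ω + 1) * yc R) (fun g => by
      rw [map_mul, (b1_coord g (hR g)).2, sg_spec (theta_rat K G.om) g]
      have h1 := sg_sq (2 * ω + 1) g
      have h2 : (sg (2 * ω + 1) g : Ω) * (sg (2 * ω + 1) g : Ω) = 1 := by
        exact_mod_cast congrArg (Int.cast : ℤ → Ω) h1
      linear_combination ((2 * ω + 1) * yc R) * h2)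
    rw [Set.mem_iUnion₂]
    refine ⟨(-3 * x, -3 * y), ?_, hR0, ?_, ?_⟩
    · show (-3 * y) ^ 2 = (-3 * x) ^ 3 + -27 * W.a₆
      apply (algebraMap K Ω).injective
      have h1 := eqn hR0
      have h2 : (WeierstrassCurve.Affine.baseChange W Ω).a₆ = algebraMap K Ω W.a₆ := rfl
      rw [G.a4, h2] at h1
      simp only [map_add, map_mul, map_pow, map_neg, map_ofNat]
      rw [hx, hy]
      have h3 := theta_sq G.om
      linear_combination 9 * (yc R) ^ 2 * h3 - 27 * h1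
    · show -3 * xc R = algebraMap K Ω (-3 * x)
      rw [map_mul, hx, map_neg, map_ofNat]
    · show -3 * ((2 * ω + 1) * yc R) = algebraMap K Ω (-3 * y)
      rw [map_mul, hy, map_neg, map_ofNat]

open Classical in
theorem b1_three {K Ω : Type*} [Field K] [CharZero K] [Field Ω] [Algebra K Ω] [IsAlgClosure K Ω] [CharZero Ω]
    {W : WeierstrassCurve.Affine K} [W.IsShortNF] [W.IsElliptic] {ω δ : Ω} {φ : Pt W Ω →+ Pt W Ω} {T : Pt W Ω}
    (G : Geo (WeierstrassCurve.Affine.baseChange W Ω) ω δ φ T) (h1 : ∀ x : K, x ^ 2 ≠ W.a₆)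
    (h2 : ∀ x : K, x ^ 2 ≠ -3 * W.a₆) {R : Pt W Ω}
    (hR : ∀ g : Ω ≃ₐ[K] Ω, rho W g R = sg (2 * ω + 1) g • R) (h3 : (3 : ℕ) • R = 0) : R = 0 := by
  have hδ2 : δ ^ 2 = algebraMap K Ω W.a₆ := G.sq
  have hδ0 := G.delta_ne
  have hθ0 : 2 * ω + 1 ≠ 0 := theta_ne G.om
  have hp : pim φ (pim φ R) = 0 := by rw [G.pim_pim, h3, neg_zero]
  obtain ⟨j, hj⟩ := (G.ker (pim φ R)).1 hp
  have hj0 : j = 0 := by
    obtain ⟨g, hg⟩ := exists_neg hδ2 h1
    have e1 : rho W g (pim φ R) = pim φ R := by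
      rw [rho_pim G, b1_smul g (hR g)]
    rw [hj, rho_aT G, hg] at e1
    have e2 := val_inj G.three_T G.ne e1
    revert e2
    clear e1 hj
    revert j
    decide
  have hp2 : pim φ R = 0 := by rw [hj, hj0, ZMod.val_zero, zero_smul]
  obtain ⟨i, hi⟩ := (G.ker R).1 hp2
  have hi0 : i = 0 := by
    obtain ⟨g, hg⟩ := exists_neg (K := K) (t := (2 * ω + 1) * δ) (c := -3 * W.a₆) (by
      rw [mul_pow, theta_sq G.om, hδ2, map_mul, map_neg, map_ofNat]) h2
    rw [sg_prod (theta_rat K G.om) ⟨W.a₆, hδ2⟩ hθ0 hδ0] at hg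
    have e1 := hR g
    rw [hi, rho_aT G, ← val_zsmul G.three_T] at e1
    have e2 := val_inj G.three_T G.ne e1
    clear e1 hi
    rcases sg_cases (2 * ω + 1) g with h | h <;> rcases sg_cases δ g with h' | h' <;>
      rw [h, h'] at hg e2 <;> revert e2 <;> revert i
    · norm_num at hg
    · decide
    · decide
    · norm_num at hg
  rw [hi, hi0, ZMod.val_zero, zero_smul]

open Classical in
theorem twist_surj {K Ω : Type*} [Field K] [CharZero K] [Field Ω] [Algebra K Ω] [IsAlgClosure K Ω] [CharZero Ω]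
    {W : WeierstrassCurve.Affine K} [W.IsShortNF] [W.IsElliptic] {ω δ : Ω} {φ : Pt W Ω →+ Pt W Ω} {T : Pt W Ω}
    (G : Geo (WeierstrassCurve.Affine.baseChange W Ω) ω δ φ T) (h1 : ∀ x : K, x ^ 2 ≠ W.a₆)
    (h2 : ∀ x : K, x ^ 2 ≠ -3 * W.a₆) (hF : FinE K (-27 * W.a₆)) (R : Pt W Ω)
    (hR : ∀ g : Ω ≃ₐ[K] Ω, rho W g R = sg (2 * ω + 1) g • R) :
    ∃ S : Pt W Ω, (∀ g : Ω ≃ₐ[K] Ω, rho W g S = S) ∧ pim φ S = R := by
  have hfin := b1_fin G hF
  have hinj : Set.InjOn (fun R : Pt W Ω => (3 : ℕ) • R)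
      {R : Pt W Ω | ∀ g : Ω ≃ₐ[K] Ω, rho W g R = sg (2 * ω + 1) g • R} := by
    intro P hP Q hQ h
    have h3 : (3 : ℕ) • (P - Q) = 0 := by
      have h4 : (3 : ℕ) • P = (3 : ℕ) • Q := h
      rw [smul_sub, h4, sub_self]
    have h5 : ∀ g : Ω ≃ₐ[K] Ω, rho W g (P - Q) = sg (2 * ω + 1) g • (P - Q) := by
      intro g
      rw [map_sub, hP g, hQ g, smul_sub]
    exact sub_eq_zero.1 (b1_three G h1 h2 h5 h3)
  have hmaps : Set.MapsTo (fun R : Pt W Ω => (3 : ℕ) • R)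
      {R : Pt W Ω | ∀ g : Ω ≃ₐ[K] Ω, rho W g R = sg (2 * ω + 1) g • R}
      {R : Pt W Ω | ∀ g : Ω ≃ₐ[K] Ω, rho W g R = sg (2 * ω + 1) g • R} := by
    intro P hP g
    show rho W g ((3 : ℕ) • P) = sg (2 * ω + 1) g • ((3 : ℕ) • P)
    rw [map_nsmul, hP g, smul_comm]
  have hfinite : Finite {R : Pt W Ω | ∀ g : Ω ≃ₐ[K] Ω, rho W g R = sg (2 * ω + 1) g • R} := hfin
  have hsurj : Function.Surjective (hmaps.restrict _ _ _) :=
    Finite.injective_iff_surjective.1 (hmaps.restrict_inj.2 hinj)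
  obtain ⟨⟨R', hR'⟩, h3⟩ := hsurj ⟨R, hR⟩
  replace h3 := congrArg Subtype.val h3
  have h3' : (3 : ℕ) • R' = R := h3
  refine ⟨-pim φ R', ?_, ?_⟩
  · intro g
    rw [map_neg, rho_pim G, b1_smul g (hR' g)]
  · rw [map_neg, G.pim_pim, neg_neg, h3']

end H35Q
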