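import Mathlib
import Pool.Agent.Lib.H35Q.K0

/-! Chunk K4 (M): the cocycle attached to m = p + q s with norm n^3. w^3 = p + q s (algebraically closed), w nonzero (n nonzero). w' = n/w, w'^3 = n^3/(p + q s) = p - q s. For g s = s: (g w)^3 = p + q s, so g w = ω^c w for a unique c in ZMod 3 (om_root, om_inj);
for g s = -s: (g w')^3 = g(p - q s) = p + q s, so g w' = ω^c w. a(g) := this c (choose). So g(w_g) = ω^(a g) w, with w_g = w if g s = s and n/w if g s = -s. Cocycle relation a(g h) = a(g) + sg((2ω+1) s)(g) a(h): write κ = sg s, ε = sg (2ω+1).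
From the definition: if κ(g) = 1: g w = ω^(a g) w, g w' = ω^(-a g) w' (w w' = n). If κ(g) = -1: g w' = ω^(a g) w, g w = ω^(-a g) w'. Case κ(h) = 1: h w = ω^(a h) w, g h w = ω^(ε(g) a(h)) g w (om_act); κ(g) = 1: = ω^(ε(g) a(h) + a(g)) w; κ(g h) = 1,
so a(g h) = a(g) + ε(g) a(h), and sg((2ω+1) s) g = ε(g) κ(g) = ε(g). κ(g) = -1 (κ(g h) = -1): a(g h) is defined by (g h) w' = ω^(a(g h)) w; h w' = ω^(-a h) w', g h w' = ω^(-ε(g) a(h)) g w' = ω^(-ε(g) a(h) + a(g)) w. Case κ(h) = -1: h w' = ω^(a h) w,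
h w = ω^(-a h) w'. κ(g) = 1, κ(g h) = -1: g h w' = ω^(ε(g) a(h)) g w = ω^(ε(g) a(h) + a(g)) w. κ(g) = -1, κ(g h) = 1: g h w = ω^(-ε(g) a(h)) g w' = ω^(-ε(g) a(h) + a(g)) w. Continuity: F = K(w, s): g fixing w and s has a(g) = 0. -/

namespace H35Q

variable {K Ω : Type*} [Field K] [Field Ω] [Algebra K Ω] [CharZero Ω] [IsAlgClosure K Ω]

omit [CharZero Ω] in
theorem k4_E0 {ω : Ω} : ω ^ (0 : ZMod 3).val = 1 := by
  rw [ZMod.val_zero, pow_zero]

theorem k4_Eneg {ω : Ω} (hω : ω ^ 2 + ω + 1 = 0) (a : ZMod 3) :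
    ω ^ (-a).val * ω ^ a.val = 1 := by
  rw [← om_pow_add hω, neg_add_cancel, k4_E0]

theorem k_exists {ω s : Ω} (hω : ω ^ 2 + ω + 1 = 0) {B : K} (hs : s ^ 2 = algebraMap K Ω B)
    (hB : ∀ x : K, x ^ 2 ≠ B) {p q n : K} (hn : p ^ 2 - B * q ^ 2 = n ^ 3) (hn0 : n ≠ 0) :
    ∃ (w : Ω) (a : (Ω ≃ₐ[K] Ω) → ZMod 3), w ≠ 0 ∧ Coc ((2 * ω + 1) * s) a ∧
      w ^ 3 = algebraMap K Ω p + algebraMap K Ω q * s ∧
      (∀ g : Ω ≃ₐ[K] Ω, g s = s → g w = ω ^ (a g).val * w) ∧
      ∀ g : Ω ≃ₐ[K] Ω, g s = -s → g (algebraMap K Ω n / w) = ω ^ (a g).val * w := by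
  have hac : IsAlgClosed Ω := IsAlgClosure.isAlgClosed K
  have hint : ∀ x : Ω, IsIntegral K x := fun x =>
    (IsAlgClosure.isAlgebraic (R := K) (K := Ω)).isAlgebraic x |>.isIntegral
  have hB0 : B ≠ 0 := by
    intro h
    exact hB 0 (by rw [h]; ring)
  have hs0 : s ≠ 0 := by
    intro h
    apply hB0
    apply (algebraMap K Ω).injective
    rw [← hs, h, map_zero]; ring
  have hN0 : algebraMap K Ω n ≠ 0 := by
    intro h
    exact hn0 ((algebraMap K Ω).injective (by rw [h, map_zero]))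
  have hprod : (algebraMap K Ω p + algebraMap K Ω q * s) * (algebraMap K Ω p - algebraMap K Ω q * s) =
      algebraMap K Ω n ^ 3 := by
    rw [← map_pow, ← hn, map_sub, map_mul, map_pow, map_pow, ← hs]; ring
  obtain ⟨w, hw⟩ := IsAlgClosed.exists_pow_nat_eq (algebraMap K Ω p + algebraMap K Ω q * s)
    (n := 3) (by norm_num)
  have hw0 : w ≠ 0 := by
    intro h
    rw [← hw, h] at hprod
    apply hN0
    have : algebraMap K Ω n ^ 3 = 0 := by rw [← hprod]; ring
    exact pow_eq_zero_iff (by norm_num) |>.1 this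
  have hw3 : w ^ 3 ≠ 0 := pow_ne_zero _ hw0
  have hw' : (algebraMap K Ω n / w) ^ 3 = algebraMap K Ω p - algebraMap K Ω q * s := by
    rw [div_pow, div_eq_iff hw3, ← hprod, ← hw]; ring
  have hcase : ∀ g : Ω ≃ₐ[K] Ω, g s = s ∨ g s = -s := by
    intro g
    have h1 := sg_spec ⟨B, hs⟩ g
    rcases sg_cases s g with h | h
    · left; rw [h1, h]; push_cast; ring
    · right; rw [h1, h]; push_cast; ring
  have hsne : s ≠ -s := by
    intro h
    apply hs0
    have : 2 * s = 0 := by linear_combination h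
    rcases mul_eq_zero.1 this with h2 | h2
    · exact absurd h2 two_ne_zero
    · exact h2
  have hex : ∀ g : Ω ≃ₐ[K] Ω, ∃ c : ZMod 3, (g s = s → g w = ω ^ c.val * w) ∧
      (g s = -s → g (algebraMap K Ω n / w) = ω ^ c.val * w) := by
    intro g
    rcases hcase g with h | h
    · have h1 : (g w / w) ^ 3 = 1 := by
        rw [div_pow, ← map_pow, hw, map_add, map_mul, AlgEquiv.commutes, AlgEquiv.commutes, h, ← hw]
        exact div_self hw3
      obtain ⟨c, hc⟩ := om_root hω h1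
      refine ⟨c, fun _ => ?_, fun h2 => absurd (h.symm.trans h2) hsne⟩
      rw [← hc, div_mul_cancel₀ _ hw0]
    · have h1 : (g (algebraMap K Ω n / w) / w) ^ 3 = 1 := by
        rw [div_pow, ← map_pow, hw', map_sub, map_mul, AlgEquiv.commutes, AlgEquiv.commutes, h,
          mul_neg, sub_neg_eq_add, ← hw]
        exact div_self hw3
      obtain ⟨c, hc⟩ := om_root hω h1
      refine ⟨c, fun h2 => absurd (h2.symm.trans h) hsne, fun _ => ?_⟩
      rw [← hc, div_mul_cancel₀ _ hw0]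
  choose a ha1 ha2 using hex
  have hww : w * (algebraMap K Ω n / w) = algebraMap K Ω n := by
    rw [mul_comm, div_mul_cancel₀ _ hw0]
  have hw'0 : algebraMap K Ω n / w ≠ 0 := div_ne_zero hN0 hw0
  have hgN : ∀ g : Ω ≃ₐ[K] Ω, g w * g (algebraMap K Ω n / w) = algebraMap K Ω n := by
    intro g
    rw [← map_mul, hww, AlgEquiv.commutes]
  have hE0 : ∀ c : ZMod 3, ω ^ c.val ≠ 0 := fun c => pow_ne_zero _ (om_ne hω)
  have ha1' : ∀ g : Ω ≃ₐ[K] Ω, g s = s →
      g (algebraMap K Ω n / w) = ω ^ (-a g).val * (algebraMap K Ω n / w) := by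
    intro g h
    have h1 := hgN g
    rw [ha1 g h] at h1
    have h2 := k4_Eneg hω (a g)
    have h3 : ω ^ (a g).val * w * (g (algebraMap K Ω n / w)) =
        ω ^ (a g).val * w * (ω ^ (-a g).val * (algebraMap K Ω n / w)) := by
      rw [h1]
      linear_combination (-(w * (algebraMap K Ω n / w))) * h2 - hww
    exact mul_left_cancel₀ (mul_ne_zero (hE0 _) hw0) h3
  have ha2' : ∀ g : Ω ≃ₐ[K] Ω, g s = -s →
      g w = ω ^ (-a g).val * (algebraMap K Ω n / w) := by
    intro g h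
    have h1 := hgN g
    rw [ha2 g h] at h1
    have h2 := k4_Eneg hω (a g)
    have h3 : ω ^ (a g).val * w * (g w) =
        ω ^ (a g).val * w * (ω ^ (-a g).val * (algebraMap K Ω n / w)) := by
      linear_combination h1 + (-(w * (algebraMap K Ω n / w))) * h2 - hww
    exact mul_left_cancel₀ (mul_ne_zero (hE0 _) hw0) h3
  have hθ : ∃ c : K, (2 * ω + 1) ^ 2 = algebraMap K Ω c := theta_rat K hω
  have hsgθs : ∀ g : Ω ≃ₐ[K] Ω, sg ((2 * ω + 1) * s) g = sg (2 * ω + 1) g * sg s g := fun g =>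
    sg_prod hθ ⟨B, hs⟩ (theta_ne hω) hs0 g
  have hsg1 : ∀ g : Ω ≃ₐ[K] Ω, g s = s → sg s g = 1 := fun g h => (sg_one_iff s g).2 h
  have hsg2 : ∀ g : Ω ≃ₐ[K] Ω, g s = -s → sg s g = -1 := fun g h =>
    sg_eq hs0 g (Or.inr rfl) (by rw [h]; push_cast; ring)
  have hfin : ∀ x y c : ZMod 3, ω ^ c.val * w = ω ^ x.val * (ω ^ y.val * w) → c = y + x := by
    intro x y c h
    apply om_inj hω
    rw [om_pow_add hω]
    apply mul_right_cancel₀ hw0
    rw [h]; ring
  refine ⟨w, a, hw0, ⟨?_, ?_⟩, hw, ha1, ha2⟩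
  · intro g h
    rw [hsgθs]
    rcases hcase h with hh | hh <;> rcases hcase g with hg | hg
    · have h1 : (g * h) s = s := by rw [AlgEquiv.mul_apply, hh, hg]
      have h2 := ha1 _ h1
      rw [AlgEquiv.mul_apply, ha1 h hh, map_mul, om_act hω, ha1 g hg] at h2
      rw [hfin _ _ _ h2.symm, hsg1 g hg]
      push_cast; ring
    · have h1 : (g * h) s = -s := by rw [AlgEquiv.mul_apply, hh, hg]
      have h2 := ha2 _ h1
      rw [AlgEquiv.mul_apply, ha1' h hh, map_mul, om_act hω, ha2 g hg] at h2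
      rw [hfin _ _ _ h2.symm, hsg2 g hg]
      push_cast; ring
    · have h1 : (g * h) s = -s := by rw [AlgEquiv.mul_apply, hh, map_neg, hg]
      have h2 := ha2 _ h1
      rw [AlgEquiv.mul_apply, ha2 h hh, map_mul, om_act hω, ha1 g hg] at h2
      rw [hfin _ _ _ h2.symm, hsg1 g hg]
      push_cast; ring
    · have h1 : (g * h) s = s := by rw [AlgEquiv.mul_apply, hh, map_neg, hg, neg_neg]
      have h2 := ha1 _ h1
      rw [AlgEquiv.mul_apply, ha2' h hh, map_mul, om_act hω, ha2 g hg] at h2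
      rw [hfin _ _ _ h2.symm, hsg2 g hg]
      push_cast; ring
  · refine ⟨IntermediateField.adjoin K {w, s}, ?_, ?_⟩
    · exact IntermediateField.finiteDimensional_adjoin (fun x _ => hint x)
    · intro g hg
      have hmw : w ∈ IntermediateField.adjoin K ({w, s} : Set Ω) :=
        IntermediateField.subset_adjoin K _ (by simp)
      have hms : s ∈ IntermediateField.adjoin K ({w, s} : Set Ω) :=
        IntermediateField.subset_adjoin K _ (by simp)
      have h1 : g w = w := (IntermediateField.mem_fixingSubgroup_iff _ g).1 hg w hmw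
      have h2 : g s = s := (IntermediateField.mem_fixingSubgroup_iff _ g).1 hg s hms
      have h3 := ha1 g h2
      rw [h1] at h3
      apply om_inj hω
      rw [k4_E0]
      apply mul_right_cancel₀ hw0
      rw [← h3, one_mul]

end H35Q
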