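import Mathlib
import Pool.Agent.Lib.H16C.TR2
import Pool.Agent.Lib.H35Q.L2

/-! Chunk L4 (M): local triviality of the cocycle (a g) • T (see L2, L3 for the notation; s = 3 θ δ, s^2 = -27 D, κ(g) = sg s g). Let ι : Ω → Ω' be given. hL: x₀, y₀ in L with y₀^2 = x₀^3 - 27 D, x₀ <> 0, α, β in L: (p + q s)(y₀ - s) = (α + β s)^3, and conjugated
(p - q s)(y₀ + s) = (α - β s)^3 (these are polynomial identities from the two equations of Cub, s^2 = -27 D). k₁ = α + β s, k₂ = α - β s, u = x₀: (k₁ k₂)^3 = n^3 u^3, k₁ k₂ = z n u with z in L, z^3 = 1 (n, u nonzero; k₁ k₂ = α^2 + 27 D β^2). Replace (α, β) by (z α, z β):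
(z k₁)^3 = k₁^3, and z^2 k₁ k₂ = z^3 n u = n u. So k₁ k₂ = n u. w₁ = ι w, h = -w₁ u/k₁, h' = -k₁/w₁, h h' = u. h^3 = -(p + q s) u^3/((p + q s)(y₀ - s)) = -(y₀ + s) = v - s with v = -y₀ (u^3 = y₀^2 - s^2), h'^3 = u^3/h^3 = v + s. h <> h' (s <> 0).
R: x = 2 θ δ/(h' - h), y = (h + h') x/2; then (y - θ δ)/x = h, (y + θ δ)/x = h'; y^2 = x^3 + D: (h' - h)(h'^2 + h h' + h^2) = 2 s = 6 θ δ gives h'^2 + h h' + h^2 = 3 x, 4 y^2/x^2 - u = 3 x; and y^2 + 3 D = u x^2 ((θ δ)^2 = -3 D); so 4 y^2 - (y^2 + 3 D) = 3 x^3.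
R = the point (x, y) (exists_pt), nonzero, x nonzero. For σ in Gal(Ω'/L) with restriction g: claim σ R = R + (a g) • T' (Geo.det, Geo.shift): q-coordinates of R + a T': (yc - θ δ)/xc = ω^a h, (yc + θ δ)/xc = (ω^2)^a h' = ω^(-a) h'. Case g s = s: σ w₁ = ω^a w₁, σ k₁ = k₁: σ h = ω^a h, σ h' = ω^(-a) h';
σ (θ δ) = θ δ, so the q-coordinates of σ R are σ h, σ h'. Case g s = -s: g (n/w) = ω^a w so σ w₁ = ω^(-a) n/w₁; σ k₁ = k₂; σ h = -ω^(-a) (n/w₁) u/k₂ = -ω^(-a) k₁/w₁ = ω^(-a) h', σ h' = u/σ h = ω^a h; σ (θ δ) = -θ δ: the q-coordinates of σ R are σ h' = ω^a h and σ h = ω^(-a) h'.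
So map ι (c g) = (a g) • T' = σ R - R: Q = R. (g s = s or -s: s^2 rational.) -/

namespace H35Q

open H16C

theorem l4_norm {k : Type*} [Field k] {B p q n x y : k} (hn : p ^ 2 - B * q ^ 2 = n ^ 3) (hn0 : n ≠ 0)
    (hE : y ^ 2 = x ^ 3 + B) (hx : x ≠ 0) (hC : Cub B (p * y - B * q) (q * y - p)) :
    ∃ α β : k, p * y - B * q = α ^ 3 + 3 * B * α * β ^ 2 ∧ q * y - p = 3 * α ^ 2 * β + B * β ^ 3 ∧
      α ^ 2 - B * β ^ 2 = n * x := by
  obtain ⟨α, β, h1, h2⟩ := hC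
  have hnx : n * x ≠ 0 := mul_ne_zero hn0 hx
  have h3 : (α ^ 2 - B * β ^ 2) ^ 3 = (n * x) ^ 3 := by
    have e : (α ^ 2 - B * β ^ 2) ^ 3 = (α ^ 3 + 3 * B * α * β ^ 2) ^ 2 - B * (3 * α ^ 2 * β + B * β ^ 3) ^ 2 := by
      ring
    rw [e, ← h1, ← h2, mul_pow, ← hn]
    linear_combination (p ^ 2 - B * q ^ 2) * hE
  obtain ⟨z, hz⟩ : ∃ z, z = (α ^ 2 - B * β ^ 2) / (n * x) := ⟨_, rfl⟩
  have hz3 : z ^ 3 = 1 := by
    rw [hz, div_pow, h3, div_self (pow_ne_zero 3 hnx)]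
  have hz1 : α ^ 2 - B * β ^ 2 = z * (n * x) := by
    rw [hz, div_mul_cancel₀ _ hnx]
  refine ⟨z * α, z * β, ?_, ?_, ?_⟩
  · rw [h1]
    linear_combination (-(α ^ 3 + 3 * B * α * β ^ 2)) * hz3
  · rw [h2]
    linear_combination (-(3 * α ^ 2 * β + B * β ^ 3)) * hz3
  · linear_combination z ^ 2 * hz1 + (n * x) * hz3

/-- the point attached to h and h' -/
theorem l4_pt {k : Type*} [Field k] [CharZero k] {D x y t s h h' : k} (ht : t ^ 2 = -3 * D) (hs : s = 3 * t) (ht0 : t ≠ 0)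
    (hh : h * h' = x) (h1 : h ^ 3 = -y - s) (h2 : h' ^ 3 = -y + s) :
    ∃ X Y : k, X ≠ 0 ∧ Y ^ 2 = X ^ 3 + D ∧ Y - t = h * X ∧ Y + t = h' * X := by
  have hne : h' - h ≠ 0 := by
    intro h3
    have h4 : h' = h := sub_eq_zero.mp h3
    rw [h4, h1] at h2
    apply ht0
    have h5 : (6 : k) * t = 0 := by
      rw [hs] at h2
      linear_combination -h2
    exact (mul_eq_zero.mp h5).resolve_left (by norm_num)
  obtain ⟨X, hX⟩ : ∃ X, X = 2 * t / (h' - h) := ⟨_, rfl⟩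
  have hX1 : (h' - h) * X = 2 * t := by
    rw [hX, mul_div_cancel₀ _ hne]
  have h3 : h' ^ 2 + h * h' + h ^ 2 = 3 * X := by
    apply mul_left_cancel₀ hne
    rw [hs] at h1 h2
    linear_combination h2 - h1 - 3 * hX1
  obtain ⟨Y, hY⟩ : ∃ Y, Y = (h + h') * X / 2 := ⟨_, rfl⟩
  have hY1 : Y - t = h * X := by
    rw [hY]
    linear_combination (1 / 2 : k) * hX1
  have hY2 : Y + t = h' * X := by
    rw [hY]
    linear_combination (-1 / 2 : k) * hX1
  refine ⟨X, Y, ?_, ?_, hY1, hY2⟩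
  · rw [hX]
    exact div_ne_zero (mul_ne_zero two_ne_zero ht0) hne
  · have h4 : Y ^ 2 + 3 * D = x * X ^ 2 := by
      linear_combination (Y + t) * hY1 + h * X * hY2 + X ^ 2 * hh + ht
    have h5 : 4 * Y ^ 2 = (3 * X + x) * X ^ 2 := by
      have h6 : 2 * Y = (h + h') * X := by linear_combination hY1 + hY2
      linear_combination (2 * Y + (h + h') * X) * h6 + X ^ 2 * h3 + X ^ 2 * hh
    linear_combination (1 / 3 : k) * h5 - (1 / 3 : k) * h4

section

variable {K : Type*} [Field K] [CharZero K] {W : WeierstrassCurve.Affine K} [W.IsShortNF] [W.IsElliptic]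
  {L Ω' : Type*} [Field L] [Algebra K L] [Field Ω'] [Algebra L Ω'] [Algebra K Ω'] [IsScalarTower K L Ω']
  [CharZero Ω']

open Classical in
omit [CharZero K] in
theorem l4_core {ω δ : Ω'} {φ : Pt W Ω' →+ Pt W Ω'} {T : Pt W Ω'}
    (G : Geo (WeierstrassCurve.Affine.baseChange W Ω') ω δ φ T) {p q n : L} {w : Ω'}
    (hn : p ^ 2 - algebraMap K L (-27 * W.a₆) * q ^ 2 = n ^ 3) (hn0 : n ≠ 0)
    (hw : w ^ 3 = algebraMap L Ω' p + algebraMap L Ω' q * (3 * (2 * ω + 1) * δ)) (hw0 : w ≠ 0)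
    (hL : LIm L (algebraMap K L (-27 * W.a₆)) p q) :
    ∃ R : Pt W Ω', ∀ (σ : Ω' ≃ₐ[L] Ω') (a : ZMod 3),
      (σ (3 * (2 * ω + 1) * δ) = 3 * (2 * ω + 1) * δ → σ w = ω ^ a.val * w) →
      (σ (3 * (2 * ω + 1) * δ) = -(3 * (2 * ω + 1) * δ) → σ (algebraMap L Ω' n / w) = ω ^ a.val * w) →
      rho W (σ.restrictScalars K) R = R + a.val • T := by
  obtain ⟨x, y, hE, hx, hC⟩ := hL
  obtain ⟨α, β, h1, h2, h3⟩ := l4_norm hn hn0 hE hx hC
  obtain ⟨B, hB⟩ : ∃ B, B = algebraMap K L (-27 * W.a₆) := ⟨_, rfl⟩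
  rw [← hB] at hn hE h1 h2 h3
  obtain ⟨s, hs⟩ : ∃ s, s = 3 * (2 * ω + 1) * δ := ⟨_, rfl⟩
  have hθ2 : (2 * ω + 1) ^ 2 = -3 := theta_sq G.om
  have hθ : 2 * ω + 1 ≠ 0 := theta_ne G.om
  have hδ := G.delta_ne
  have hδ2 : δ ^ 2 = algebraMap K Ω' W.a₆ := G.sq
  have hs2 : s ^ 2 = algebraMap L Ω' B := by
    rw [hB, ← IsScalarTower.algebraMap_apply, hs, mul_pow, mul_pow, hθ2, hδ2, map_mul, map_neg, map_ofNat]
    ring
  rw [← hs] at hw
  rw [← hs]
  -- images in Ω'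
  have e1 := congrArg (algebraMap L Ω') h1
  have e2 := congrArg (algebraMap L Ω') h2
  have e3 := congrArg (algebraMap L Ω') h3
  have e4 := congrArg (algebraMap L Ω') hE
  simp only [map_sub, map_add, map_mul, map_pow, map_ofNat] at e1 e2 e3 e4
  have hk1 : (algebraMap L Ω' α + algebraMap L Ω' β * s) ^ 3 = w ^ 3 * (algebraMap L Ω' y - s) := by
    rw [hw]
    linear_combination (3 * algebraMap L Ω' α * algebraMap L Ω' β ^ 2 + algebraMap L Ω' β ^ 3 * s +
      algebraMap L Ω' q) * hs2 - e1 - s * e2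
  have hk12 : (algebraMap L Ω' α + algebraMap L Ω' β * s) * (algebraMap L Ω' α - algebraMap L Ω' β * s) =
      algebraMap L Ω' n * algebraMap L Ω' x := by
    linear_combination e3 - algebraMap L Ω' β ^ 2 * hs2
  have hn' : algebraMap L Ω' n ≠ 0 := (_root_.map_ne_zero _).2 hn0
  have hx' : algebraMap L Ω' x ≠ 0 := (_root_.map_ne_zero _).2 hx
  have hk1ne : algebraMap L Ω' α + algebraMap L Ω' β * s ≠ 0 := by
    intro h
    rw [h, zero_mul] at hk12
    exact mul_ne_zero hn' hx' hk12.symm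
  have hk2ne : algebraMap L Ω' α - algebraMap L Ω' β * s ≠ 0 := by
    intro h
    rw [h, mul_zero] at hk12
    exact mul_ne_zero hn' hx' hk12.symm
  have hys : (algebraMap L Ω' y - s) * (algebraMap L Ω' y + s) = algebraMap L Ω' x ^ 3 := by
    linear_combination e4 - hs2
  have hysne : algebraMap L Ω' y - s ≠ 0 := by
    intro h
    rw [h, zero_mul] at hys
    exact pow_ne_zero 3 hx' hys.symm
  obtain ⟨h', hh'⟩ : ∃ h', h' = -((algebraMap L Ω' α + algebraMap L Ω' β * s) / w) := ⟨_, rfl⟩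
  obtain ⟨h, hh⟩ : ∃ h, h = -(w * algebraMap L Ω' x / (algebraMap L Ω' α + algebraMap L Ω' β * s)) := ⟨_, rfl⟩
  have hhh : h * h' = algebraMap L Ω' x := by
    rw [hh, hh']
    field_simp
  have h'3 : h' ^ 3 = -algebraMap L Ω' y + s := by
    rw [hh', Odd.neg_pow (by decide), div_pow, hk1, mul_comm (w ^ 3), mul_div_assoc, div_self (pow_ne_zero 3 hw0), mul_one]
    ring
  have h'ne : h' ≠ 0 := by
    rw [hh']
    exact neg_ne_zero.mpr (div_ne_zero hk1ne hw0)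
  have hh3 : h ^ 3 = -algebraMap L Ω' y - s := by
    apply mul_right_cancel₀ (pow_ne_zero 3 h'ne)
    rw [← mul_pow, hhh, h'3, ← hys]
    ring
  have hst : s = 3 * ((2 * ω + 1) * δ) := by rw [hs]; ring
  have ht2 : ((2 * ω + 1) * δ) ^ 2 = -3 * algebraMap K Ω' W.a₆ := by
    rw [mul_pow, hθ2, hδ2]
  obtain ⟨X, Y, hX0, hXY, hY1, hY2⟩ := l4_pt ht2 hst (mul_ne_zero hθ hδ) hhh hh3 h'3
  have hXY' : Y ^ 2 = X ^ 3 + (WeierstrassCurve.Affine.baseChange W Ω').a₄ * X +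
      (WeierstrassCurve.Affine.baseChange W Ω').a₆ := by
    rw [G.a4, hXY]
    change _ = X ^ 3 + 0 * X + algebraMap K Ω' W.a₆
    ring
  obtain ⟨R, hR0, hRx, hRy⟩ := exists_pt _ _ hXY'
  refine ⟨R, fun σ a H1 H2 => ?_⟩
  have hRx0 : xc R ≠ 0 := by
    rw [hRx]
    exact hX0
  obtain ⟨hP0, hPx, hP1, hP2⟩ := G.shift a hR0 hRx0
  have hx2 := rx (W := W) (σ.restrictScalars K) R
  have hy2 := ry (W := W) (σ.restrictScalars K) R
  change _ = σ _ at hx2 hy2
  rw [hRx] at hx2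
  rw [hRy] at hy2
  rw [hRx, hRy, hY1] at hP1
  rw [hRx, hRy, hY2] at hP2
  have hP1' : yc (R + a.val • T) - (2 * ω + 1) * δ = ω ^ a.val * h * xc (R + a.val • T) := by
    apply mul_right_cancel₀ hX0
    rw [hP1]
    ring
  have hP2' : yc (R + a.val • T) + (2 * ω + 1) * δ = (ω ^ 2) ^ a.val * h' * xc (R + a.val • T) := by
    apply mul_right_cancel₀ hX0
    rw [hP2]
    ring
  have hom : ω ^ a.val * (ω ^ 2) ^ a.val = 1 := by
    rw [← mul_pow, ← pow_succ', om_cube G.om, one_pow]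
  have homne : ω ^ a.val ≠ 0 := pow_ne_zero _ (om_ne G.om)
  -- the key claim
  have key : σ Y - (2 * ω + 1) * δ = ω ^ a.val * h * σ X ∧ σ Y + (2 * ω + 1) * δ = (ω ^ 2) ^ a.val * h' * σ X := by
    have hσs : σ s = s ∨ σ s = -s := by
      apply sq_eq_sq_iff_eq_or_eq_neg.mp
      rw [← map_pow, hs2, σ.commutes]
    rcases hσs with h5 | h5
    · have hσt : σ ((2 * ω + 1) * δ) = (2 * ω + 1) * δ := by
        rw [hst, map_mul, map_ofNat] at h5
        exact mul_left_cancel₀ three_ne_zero h5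
      have hσw := H1 h5
      have hσk : σ (algebraMap L Ω' α + algebraMap L Ω' β * s) = algebraMap L Ω' α + algebraMap L Ω' β * s := by
        rw [map_add, map_mul, σ.commutes, σ.commutes, h5]
      have hσh : σ h = ω ^ a.val * h := by
        rw [hh, map_neg, map_div₀, map_mul, hσw, σ.commutes, hσk]
        ring
      have hσh' : σ h' = (ω ^ 2) ^ a.val * h' := by
        apply mul_left_cancel₀ homne
        rw [← mul_assoc, hom, one_mul, hh', map_neg, map_div₀, hσk, hσw]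
        field_simp
      constructor
      · rw [← hσh, ← map_mul, ← hY1, map_sub, hσt]
      · rw [← hσh', ← map_mul, ← hY2, map_add, hσt]
    · have hσt : σ ((2 * ω + 1) * δ) = -((2 * ω + 1) * δ) := by
        rw [hst, map_mul, map_ofNat] at h5
        apply mul_left_cancel₀ (three_ne_zero (α := Ω'))
        rw [h5]
        ring
      have hσw := H2 h5
      rw [map_div₀, σ.commutes] at hσw
      have hσw0 : σ w ≠ 0 := (_root_.map_ne_zero _).2 hw0
      rw [div_eq_iff hσw0] at hσw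
      have hσk : σ (algebraMap L Ω' α + algebraMap L Ω' β * s) = algebraMap L Ω' α - algebraMap L Ω' β * s := by
        rw [map_add, map_mul, σ.commutes, σ.commutes, h5]
        ring
      have hσh' : σ h' = ω ^ a.val * h := by
        rw [hh', hh, map_neg, map_div₀, hσk, mul_neg, neg_inj, div_eq_iff hσw0]
        field_simp
        linear_combination hk12 + algebraMap L Ω' x * hσw
      have hσh : σ h = (ω ^ 2) ^ a.val * h' := by
        apply mul_left_cancel₀ homne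
        rw [← mul_assoc, hom, one_mul, hh', hh, map_neg, map_div₀, map_mul, σ.commutes, hσk, mul_neg, neg_inj]
        field_simp
        linear_combination -hk12 - algebraMap L Ω' x * hσw
      constructor
      · rw [← hσh', ← map_mul, ← hY2, map_add, hσt]
        ring
      · rw [← hσh, ← map_mul, ← hY1, map_sub, hσt]
        ring
  apply G.det (rne _ hR0) hP0
  · rw [hx2]
    intro h
    exact hX0 ((_root_.map_eq_zero σ).1 h)
  · rw [hx2, hy2, key.1, hP1']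
    ring
  · rw [hx2, hy2, key.2, hP2']
    ring

end

open Classical in
theorem locC {K Ω : Type*} [Field K] [CharZero K] [Field Ω] [Algebra K Ω] [IsAlgClosure K Ω] [CharZero Ω]
    (W : WeierstrassCurve.Affine K) [W.IsShortNF] [W.IsElliptic] {ω δ : Ω} {φ : Pt W Ω →+ Pt W Ω} {T : Pt W Ω}
    (G : Geo (WeierstrassCurve.Affine.baseChange W Ω) ω δ φ T) (L : Type*) [Field L] [Algebra K L]
    (a : (Ω ≃ₐ[K] Ω) → ZMod 3) {w : Ω} (hw0 : w ≠ 0) {p q n : K}
    (hn : p ^ 2 - (-27 * W.a₆) * q ^ 2 = n ^ 3) (hn0 : n ≠ 0)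
    (hpq : w ^ 3 = algebraMap K Ω p + algebraMap K Ω q * (3 * (2 * ω + 1) * δ))
    (hw : ∀ g : Ω ≃ₐ[K] Ω, g (3 * (2 * ω + 1) * δ) = 3 * (2 * ω + 1) * δ → g w = ω ^ (a g).val * w)
    (hw' : ∀ g : Ω ≃ₐ[K] Ω, g (3 * (2 * ω + 1) * δ) = -(3 * (2 * ω + 1) * δ) →
      g (algebraMap K Ω n / w) = ω ^ (a g).val * w)
    (hL : LIm L (algebraMap K L (-27 * W.a₆)) (algebraMap K L p) (algebraMap K L q)) :
    LocTriv W Ω L (fun g => ((a g).val • T : Pt W Ω)) := by
  intro ι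
  have hcL : CharZero L := charZero_of_injective_algebraMap (algebraMap K L).injective
  have hcL' : CharZero (AlgebraicClosure L) := charZero_of_injective_algebraMap
    (algebraMap L (AlgebraicClosure L)).injective
  have hinj : Function.Injective ι := (ι : Ω →+* AlgebraicClosure L).injective
  obtain ⟨φ', G', -⟩ := geo_map ι G
  have hs : ι (3 * (2 * ω + 1) * δ) = 3 * (2 * ι ω + 1) * ι δ := by
    rw [map_mul, map_mul, map_add, map_mul, map_one, map_ofNat, map_ofNat]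
  obtain ⟨R, hR⟩ := l4_core (L := L) (w := ι w) (n := algebraMap K L n) G'
    (by rw [← map_pow, ← map_pow, ← map_pow, ← hn, ← map_mul, ← map_sub])
    ((_root_.map_ne_zero _).2 hn0) (by
      rw [← map_pow, hpq, map_add, map_mul, ι.commutes, ι.commutes, ← IsScalarTower.algebraMap_apply,
        ← IsScalarTower.algebraMap_apply, hs]) ((_root_.map_ne_zero _).2 hw0) hL
  refine ⟨R, fun σ g hg => ?_⟩
  have h1 := hR σ (a g) (fun h => by
    rw [← hs, ← hg] at h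
    rw [← hg, hw g (hinj h), map_mul, map_pow]) (fun h => by
    rw [← hs, ← hg, ← map_neg] at h
    rw [← IsScalarTower.algebraMap_apply, ← ι.commutes, ← map_div₀, ← hg, hw' g (hinj h), map_mul, map_pow])
  change _ = rho W (σ.restrictScalars K) R - R
  rw [h1, map_nsmul, add_sub_cancel_left]

end H35Q
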