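import Mathlib
import Pool.Agent.Lib.H35Q.A1
import Pool.Agent.Lib.H35Q.A2
import Pool.Agent.Lib.H35Q.B1
import Pool.Agent.Lib.H35Q.F1
import Pool.Agent.Lib.H35Q.K4
import Pool.Agent.Lib.H35Q.L4
import Pool.Agent.Lib.H35Q.L5

/-! Assembly of the two directions (helper35). -/

open NumberField IsDedekindDomain

namespace H35Q

open H16C

section

variable {K : Type} {Ω : Type*} [Field K] [NumberField K] [Field Ω] [Algebra K Ω] [IsAlgClosure K Ω] [CharZero Ω]
  (W : WeierstrassCurve.Affine K) [W.IsShortNF] [W.IsElliptic]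

omit [NumberField K] [CharZero Ω] [W.IsShortNF] [W.IsElliptic] [IsAlgClosure K Ω] in
theorem a4_map (h4 : W.a₄ = 0) : (WeierstrassCurve.Affine.baseChange W Ω).a₄ = 0 := by
  change algebraMap K Ω W.a₄ = 0
  rw [h4, map_zero]

omit [NumberField K] in
open Classical in
theorem exists_G [CharZero K] (h4 : W.a₄ = 0) : ∃ (ω δ : Ω) (φ : Pt W Ω →+ Pt W Ω) (T : Pt W Ω),
    Geo (WeierstrassCurve.Affine.baseChange W Ω) ω δ φ T := by
  have hcl : IsAlgClosed Ω := IsAlgClosure.isAlgClosed K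
  obtain ⟨t, ht⟩ := IsAlgClosed.exists_pow_nat_eq (-3 : Ω) (n := 2) (by norm_num)
  obtain ⟨δ, hδ⟩ := IsAlgClosed.exists_pow_nat_eq ((WeierstrassCurve.Affine.baseChange W Ω).a₆) (n := 2)
    (by norm_num)
  have hω : ((t - 1) / 2) ^ 2 + (t - 1) / 2 + 1 = 0 := by
    field_simp
    linear_combination ht
  obtain ⟨φ, T, G⟩ := exists_geo (V := WeierstrassCurve.Affine.baseChange W Ω) (a4_map W h4) hω hδ
  exact ⟨_, δ, φ, T, G⟩

open Classical in
/-- Direction 1: trivial Selmer groups imply that the Tate-Shafarevich group has no 3-torsion. -/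
theorem dirA (h4 : W.a₄ = 0) (h1 : ∀ x : K, x ^ 2 ≠ W.a₆) (h2 : ∀ x : K, x ^ 2 ≠ -3 * W.a₆)
    (hA : SelT K W.a₆) (hB : SelT K (-27 * W.a₆)) : CocZ W Ω := by
  obtain ⟨ω, δ, φ, T, G⟩ := exists_G (Ω := Ω) W h4
  intro c hc hl h3
  have hinf : ∀ w : HeightOneSpectrum (𝓞 K), Infinite (Pt W (w.adicCompletion K)) := inf_loc W h4
  have halg : Algebra.IsAlgebraic K Ω := IsAlgClosure.isAlgebraic
  obtain ⟨S, a, hS⟩ := stA G h1 hinf hA c hc hl h3
  have hcS : IsCocycle W Ω (fun g => rho W g S - S) := cob_coc W S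
  have hlS : EverywhereTriv W Ω (fun g => rho W g S - S) :=
    ⟨fun v => cob_loc W S _, fun v => cob_loc W S _⟩
  have he : (fun g => ((a g).val • T : Pt W Ω)) = c + -(fun g => rho W g S - S) := by
    funext g
    rw [Pi.add_apply, Pi.neg_apply, hS g]
    abel
  obtain ⟨Q, hQ⟩ := stB G h2 hinf hB a (by rw [he]; exact isCocycle_add W Ω hc (isCocycle_neg W Ω hcS))
    (by rw [he]; exact everywhereTriv_add W Ω hl (everywhereTriv_neg W Ω hlS))
  refine ⟨S + Q, fun g => ?_⟩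
  have hQg : ((a g).val • T : Pt W Ω) = rho W g Q - Q := hQ g
  rw [hS g, hQg, map_add]
  change rho W g S - S + (rho W g Q - Q) = rho W g S + rho W g Q - (S + Q)
  abel

open Classical in
/-- Direction 2: if the Tate-Shafarevich group has no 3-torsion and the isogenous curve has finitely many points then
the Selmer group is trivial. -/
theorem dirB (h4 : W.a₄ = 0) (h1 : ∀ x : K, x ^ 2 ≠ W.a₆) (h2 : ∀ x : K, x ^ 2 ≠ -3 * W.a₆)
    (hF : FinE K (-27 * W.a₆)) (hz : CocZ W Ω) : SelT K (-27 * W.a₆) := by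
  obtain ⟨ω, δ, φ, T, G⟩ := exists_G (Ω := Ω) W h4
  have halg : Algebra.IsAlgebraic K Ω := IsAlgClosure.isAlgebraic
  intro p q n hn hn0 hL
  have hsB := s_sq G
  have hns : ∀ x : K, x ^ 2 ≠ -27 * W.a₆ := by
    intro x hx
    apply h2 (x / 3)
    rw [div_pow, hx]
    ring
  have hB0 : -27 * W.a₆ ≠ 0 := by
    intro h0
    apply hns 0
    rw [h0]
    ring
  obtain ⟨w, a, hw0, ha, hpq, hw, hw'⟩ := k_exists (Ω := Ω) G.om hsB hns hn hn0
  have hcoc : IsCocycle W Ω (fun g => ((a g).val • T : Pt W Ω)) := (coc_T G a).2 ha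
  have h3 : ∀ g, (3 : ℕ) • ((fun g => ((a g).val • T : Pt W Ω)) g) = 0 := fun g => val_three G.three_T _
  have hev : EverywhereTriv W Ω (fun g => ((a g).val • T : Pt W Ω)) := by
    refine ⟨fun v => ?_, fun v => loc_inf W _ hcoc h3 v⟩
    exact locC W G _ a hw0 hn hn0 hpq hw hw' (hL v)
  obtain ⟨P, hP⟩ := hz _ hcoc hev h3
  have hP' : ∀ g : Ω ≃ₐ[K] Ω, rho W g P = P + (a g).val • T := fun g => by
    have h : ((a g).val • T : Pt W Ω) = rho W g P - P := hP g
    rw [h]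
    abel
  -- π P is in the twisted subgroup
  have hR : ∀ g : Ω ≃ₐ[K] Ω, rho W g (pim φ P) = sg (2 * ω + 1) g • pim φ P := by
    intro g
    rw [rho_pim G, hP' g, map_add, map_nsmul, G.pim_T, smul_zero, add_zero]
  obtain ⟨S, hS, hSP⟩ := twist_surj G h1 h2 hF (pim φ P) hR
  obtain ⟨j, hj⟩ := (G.ker (P - S)).1 (by rw [map_sub, hSP, sub_self])
  refine k_triv G.om hsB hB0 a hw0 hw hpq hn hn0 j fun g => ?_
  rw [sg_conv G]
  apply val_inj G.three_T G.ne
  rw [← cob_T G, ← hj, map_sub, hP' g, hS g]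
  abel

end

end H35Q
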