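import Mathlib
import Pool.Agent.Lib.H35Q.Defs

/-! Chunk C1 (S): scaling. cub_scale: p + q T, T^2 = t^6 D, is a cube iff p + q t^3 T, T^2 = D, is: (α, β) ↦ (α, t^3 β): p = α^3 + 3 t^6 D α β^2 = α^3 + 3 D α (t^3 β)^2, q t^3 = 3 α^2 (t^3 β) + D (t^3 β)^3. cub_mul: c^3 (p + q T) is a cube iff p + q T is (c nonzero).
lim_scale: point (x, y) for D ↦ (t^2 x, t^3 y) for t^6 D: (p + q T')(t^3 y - T') with T' = t^3 T is t^3 (p + q t^3 T)(y - T). sel_scale: SelT K (t^6 D) iff SelT K D: norms: p^2 - t^6 D q^2 = p^2 - D (t^3 q)^2. -/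

open NumberField IsDedekindDomain

namespace H35Q

theorem cub_scale {k : Type*} [Field k] {D t p q : k} (ht : t ≠ 0) : Cub (t ^ 6 * D) p q ↔ Cub D p (t ^ 3 * q) := by
  constructor
  · rintro ⟨α, β, h1, h2⟩
    refine ⟨α, t ^ 3 * β, ?_, ?_⟩
    · rw [h1]; ring
    · rw [h2]; ring
  · rintro ⟨α, β, h1, h2⟩
    have ht3 : t ^ 3 ≠ 0 := pow_ne_zero _ ht
    refine ⟨α, β / t ^ 3, ?_, ?_⟩
    · rw [h1]
      field_simp
    · have h3 : q = (3 * α ^ 2 * β + D * β ^ 3) / t ^ 3 := by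
        rw [← h2, mul_div_cancel_left₀ _ ht3]
      rw [h3]
      field_simp

theorem cub_mul {k : Type*} [Field k] {D c p q : k} (hc : c ≠ 0) : Cub D (c ^ 3 * p) (c ^ 3 * q) ↔ Cub D p q := by
  have hc3 : c ^ 3 ≠ 0 := pow_ne_zero _ hc
  constructor
  · rintro ⟨α, β, h1, h2⟩
    refine ⟨α / c, β / c, ?_, ?_⟩
    · have h3 : p = (α ^ 3 + 3 * D * α * β ^ 2) / c ^ 3 := by
        rw [← h1, mul_div_cancel_left₀ _ hc3]
      rw [h3]
      field_simp
    · have h3 : q = (3 * α ^ 2 * β + D * β ^ 3) / c ^ 3 := by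
        rw [← h2, mul_div_cancel_left₀ _ hc3]
      rw [h3]
      field_simp
  · rintro ⟨α, β, h1, h2⟩
    refine ⟨c * α, c * β, ?_, ?_⟩
    · rw [h1]; ring
    · rw [h2]; ring

theorem lim_scale {k : Type*} [Field k] {D t p q : k} (ht : t ≠ 0) : LIm k (t ^ 6 * D) p q ↔ LIm k D p (t ^ 3 * q) := by
  have ht2 : t ^ 2 ≠ 0 := pow_ne_zero _ ht
  have ht3 : t ^ 3 ≠ 0 := pow_ne_zero _ ht
  constructor
  · rintro ⟨x, y, h1, h2, h3⟩
    refine ⟨x / t ^ 2, y / t ^ 3, ?_, div_ne_zero h2 ht2, ?_⟩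
    · have h4 : (y / t ^ 3) ^ 2 = y ^ 2 / t ^ 6 := by
        rw [div_pow]
        congr 1
        ring
      rw [h4, h1]
      field_simp
    · rw [cub_scale ht] at h3
      rw [← cub_mul ht]
      have e1 : t ^ 3 * (p * (y / t ^ 3) - D * (t ^ 3 * q)) = p * y - t ^ 6 * D * q := by
        field_simp
      have e2 : t ^ 3 * (t ^ 3 * q * (y / t ^ 3) - p) = t ^ 3 * (q * y - p) := by
        field_simp
      rw [e1, e2]
      exact h3
  · rintro ⟨x, y, h1, h2, h3⟩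
    refine ⟨t ^ 2 * x, t ^ 3 * y, ?_, mul_ne_zero ht2 h2, ?_⟩
    · have h4 : (t ^ 3 * y) ^ 2 = t ^ 6 * y ^ 2 := by ring
      rw [h4, h1]
      ring
    · rw [cub_scale ht]
      rw [← cub_mul ht] at h3
      have e1 : t ^ 3 * (p * y - D * (t ^ 3 * q)) = p * (t ^ 3 * y) - t ^ 6 * D * q := by ring
      have e2 : t ^ 3 * (t ^ 3 * q * y - p) = t ^ 3 * (q * (t ^ 3 * y) - p) := by ring
      rw [e1, e2] at h3
      exact h3

theorem sel_scale {K : Type} [Field K] [NumberField K] {D t : K} (ht : t ≠ 0) : SelT K (t ^ 6 * D) ↔ SelT K D := by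
  have ht3 : t ^ 3 ≠ 0 := pow_ne_zero _ ht
  have hw : ∀ w : HeightOneSpectrum (𝓞 K), algebraMap K (w.adicCompletion K) t ≠ 0 := by
    intro w
    rwa [Ne, FaithfulSMul.algebraMap_eq_zero_iff]
  constructor
  · intro h p q n h1 h2 h3
    have h4 : t ^ 3 * (q / t ^ 3) = q := by field_simp
    have h5 : p ^ 2 - t ^ 6 * D * (q / t ^ 3) ^ 2 = n ^ 3 := by
      rw [← h1]
      have : t ^ 6 * D * (q / t ^ 3) ^ 2 = D * (t ^ 3 * (q / t ^ 3)) ^ 2 := by ring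
      rw [this, h4]
    have h6 := h p (q / t ^ 3) n h5 h2 (fun w => by
      rw [map_mul, map_pow, lim_scale (hw w), ← map_pow, ← map_mul, h4]
      exact h3 w)
    rw [cub_scale ht, h4] at h6
    exact h6
  · intro h p q n h1 h2 h3
    have h5 : p ^ 2 - D * (t ^ 3 * q) ^ 2 = n ^ 3 := by
      rw [← h1]
      ring
    rw [cub_scale ht]
    refine h p (t ^ 3 * q) n h5 h2 (fun w => ?_)
    have h6 := h3 w
    rw [map_mul, map_pow, lim_scale (hw w), ← map_pow, ← map_mul] at h6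
    exact h6

end H35Q
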