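import Mathlib
import Pool.Agent.Lib.H35Z.D5
import Pool.Agent.Lib.H35Z.P9
import Pool.Agent.Lib.H35Q.C1

/-! Chunk C2 (M): from the Selmer groups of H35Z to coordinates. cub_iff: L1_cube (H35X.L1) gives the coordinates of a cube in QA k B = QuadraticAlgebra k B 0 (re = α^3 + 3 B α β^2, im = 3 α^2 β + B β^3). cub_sq: T_D = d T: Cub (d^2 B) p q iff Cub B p (d q) (β ↦ d β).
lim_iff: LIm k (B d^2) p q iff LId k B d ⟨p, d q⟩: (p + q T_D)(y - T_D) = (p + d q T)(y - d T) (product in QA: re = p y - B d q d .., L1_mul or QuadraticAlgebra.ext); same points. selZ_iff_selT: d nonzero. SelZ.1 for m = of p + of (d q) root (SG_repr for the converse; IsUnit by P9_unit-like / norm nonzero: SG_norm, H13E.S2Gen,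
see the proof of seld_eq in H35Z/D5.lean: norm m = p^2 + (d q)^2 = p^2 - (-d^2) q^2); image in the completion: qmap of the element is of (f p) + of (f (d q)) root (see D5); locImd_iff (D5) and lim_iff; m is a cube in Qd K iff ⟨p, d q⟩ is a cube in QA K (-1) (d5_iff-type argument, P9_star in H35Z/P9.lean or
the two ring homomorphisms) iff Cub. The same for T^2 = 27 (SelZ.2, 27 d^2). -/

open NumberField IsDedekindDomain Polynomial

namespace H35Q

open H35Z H35X H35T H13E

theorem cub_iff {k : Type} [Field k] {B p q : k} : Cub B p q ↔ ∃ β : QA k B, (⟨p, q⟩ : QA k B) = β ^ 3 := by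
  constructor
  · rintro ⟨α, β, h1, h2⟩
    refine ⟨⟨α, β⟩, ?_⟩
    rw [L1_cube, h1, h2]
  · rintro ⟨⟨α, β⟩, h⟩
    rw [L1_cube] at h
    exact ⟨α, β, congrArg QuadraticAlgebra.re h, congrArg QuadraticAlgebra.im h⟩

theorem cub_sq {k : Type*} [Field k] {B d p q : k} (hd : d ≠ 0) : Cub (B * d ^ 2) p q ↔ Cub B p (d * q) := by
  constructor
  · rintro ⟨α, β, h1, h2⟩
    refine ⟨α, d * β, ?_, ?_⟩
    · rw [h1]; ring
    · rw [h2]; ring
  · rintro ⟨α, β, h1, h2⟩
    refine ⟨α, β / d, ?_, ?_⟩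
    · rw [h1]; field_simp
    · apply mul_left_cancel₀ hd
      rw [h2]
      field_simp

theorem lim_iff {k : Type} [Field k] {B d p q : k} (hd : d ≠ 0) : LIm k (B * d ^ 2) p q ↔ LId k B d ⟨p, d * q⟩ := by
  have e : ∀ y : k, (⟨p, d * q⟩ : QA k B) * (⟨y, -d⟩ : QA k B) = ⟨p * y - B * d ^ 2 * q, d * (q * y - p)⟩ := by
    intro y
    refine QuadraticAlgebra.ext ?_ ?_
    · rw [QuadraticAlgebra.re_mul]
      show p * y + B * (d * q) * -d = p * y - B * d ^ 2 * q
      ring
    · rw [QuadraticAlgebra.im_mul]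
      show p * -d + d * q * y + 0 * (d * q) * -d = d * (q * y - p)
      ring
  constructor
  · rintro ⟨x, y, h1, h2, h3⟩
    refine ⟨x, y, h1, h2, ?_⟩
    rw [e]
    exact cub_iff.1 ((cub_sq hd).1 h3)
  · rintro ⟨x, y, h1, h2, h3⟩
    refine ⟨x, y, h1, h2, ?_⟩
    rw [e] at h3
    exact (cub_sq hd).2 (cub_iff.2 h3)

theorem adj_iff {k : Type} [Field k] {f : k[X]} {c : k} (hf : f = X ^ 2 + C c) (B : k) (hB : B = -c) (a b : k) :
    (∃ β : AdjoinRoot f, AdjoinRoot.of f a + AdjoinRoot.of f b * AdjoinRoot.root f = β ^ 3) ↔ Cub B a b := by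
  have h := d5_iff hf B hB a b 1 0
  rw [map_one, map_zero, zero_mul, sub_zero, mul_one, neg_zero] at h
  rw [h, cub_iff]
  have e : (⟨a, b⟩ : QA k B) * (⟨1, 0⟩ : QA k B) = ⟨a, b⟩ := by
    refine QuadraticAlgebra.ext ?_ ?_
    · rw [QuadraticAlgebra.re_mul]
      show a * 1 + B * b * 0 = a
      ring
    · rw [QuadraticAlgebra.im_mul]
      show a * 0 + b * 1 + 0 * b * 0 = b
      ring
  rw [e]

theorem half1 (d : ℤ) (hd : d ≠ 0) (K : Type) [Field K] [NumberField K] :
    (∀ m ∈ Seld d K, ∃ b : Qd K, m = b ^ 3) ↔ SelT K (-(d : K) ^ 2) := by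
  have hdK : (d : K) ≠ 0 := Int.cast_ne_zero.2 hd
  have eD : (-(d : K) ^ 2) = (-1) * (d : K) ^ 2 := by ring
  have e2 : ∀ (w : HeightOneSpectrum (𝓞 K)) (a b : K), qmap (algebraMap K (w.adicCompletion K))
        (AdjoinRoot.of _ a + AdjoinRoot.of _ b * AdjoinRoot.root _ : Qd K) =
        AdjoinRoot.of _ (algebraMap K (w.adicCompletion K) a) +
          AdjoinRoot.of _ (algebraMap K (w.adicCompletion K) b) * AdjoinRoot.root _ := by
    intro w a b
    unfold qmap
    rw [map_add, map_mul, AdjoinRoot.map_of, AdjoinRoot.map_of, AdjoinRoot.map_root]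
  have hloc : ∀ (w : HeightOneSpectrum (𝓞 K)) (p q : K),
      LIm (w.adicCompletion K) (algebraMap K (w.adicCompletion K) (-(d : K) ^ 2))
        (algebraMap K (w.adicCompletion K) p) (algebraMap K (w.adicCompletion K) q) ↔
      LocImd d (w.adicCompletion K) (qmap (algebraMap K (w.adicCompletion K))
        (AdjoinRoot.of _ p + AdjoinRoot.of _ ((d : K) * q) * AdjoinRoot.root _ : Qd K)) := by
    intro w p q
    have hdw : (d : w.adicCompletion K) ≠ 0 := by
      rw [← map_intCast (algebraMap K (w.adicCompletion K)), Ne, map_eq_zero]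
      exact hdK
    have e3 : algebraMap K (w.adicCompletion K) (-(d : K) ^ 2) = (-1) * (d : w.adicCompletion K) ^ 2 := by
      rw [map_neg, map_pow, map_intCast]
      ring
    rw [e2, locImd_iff, e3, lim_iff hdw, map_mul, map_intCast]
  constructor
  · intro hS p q n hn hn0 hL
    have hn' : p ^ 2 + 1 * ((d : K) * q) ^ 2 = n ^ 3 := by rw [← hn]; ring
    have h1 := hS (AdjoinRoot.of _ p + AdjoinRoot.of _ ((d : K) * q) * AdjoinRoot.root _)
      ⟨P9_unit (f := X ^ 2 + C 1) (c := 1) rfl p _ n hn0 hn', ⟨n, by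
        rw [SG_norm (f := X ^ 2 + C 1) (c := 1) rfl, hn']⟩, fun w => (hloc w p q).1 (hL w)⟩
    rw [eD, cub_sq hdK]
    exact (adj_iff (f := X ^ 2 + C 1) (c := 1) rfl (-1) rfl _ _).1 h1
  · rintro hS m ⟨hu, ⟨n, hn⟩, hw⟩
    obtain ⟨a, b, rfl⟩ := SG_repr (f := X ^ 2 + C 1) (c := 1) rfl m
    have hn0 : n ≠ 0 := by
      rintro rfl
      have h1 := hu.map (Algebra.norm K)
      rw [hn, zero_pow three_ne_zero] at h1
      exact not_isUnit_zero h1
    rw [SG_norm (f := X ^ 2 + C 1) (c := 1) rfl] at hn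
    have hb : (d : K) * (b / d) = b := mul_div_cancel₀ _ hdK
    have h1 := hS a (b / d) n (by
      rw [← hn, div_pow]
      field_simp
      ring) hn0 (fun w => (hloc w a (b / d)).2 (by rw [hb]; exact hw w))
    rw [eD, cub_sq hdK, hb] at h1
    exact (adj_iff (f := X ^ 2 + C 1) (c := 1) rfl (-1) rfl _ _).2 h1

theorem half2 (d : ℤ) (hd : d ≠ 0) (K : Type) [Field K] [NumberField K] :
    (∀ m ∈ SelEd d K, ∃ b : Qe K, m = b ^ 3) ↔ SelT K (27 * (d : K) ^ 2) := by
  have hdK : (d : K) ≠ 0 := Int.cast_ne_zero.2 hd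
  have e2 : ∀ (w : HeightOneSpectrum (𝓞 K)) (a b : K), emap (algebraMap K (w.adicCompletion K))
        (AdjoinRoot.of _ a + AdjoinRoot.of _ b * AdjoinRoot.root _ : Qe K) =
        AdjoinRoot.of _ (algebraMap K (w.adicCompletion K) a) +
          AdjoinRoot.of _ (algebraMap K (w.adicCompletion K) b) * AdjoinRoot.root _ := by
    intro w a b
    unfold emap
    rw [map_add, map_mul, AdjoinRoot.map_of, AdjoinRoot.map_of, AdjoinRoot.map_root]
  have hloc : ∀ (w : HeightOneSpectrum (𝓞 K)) (p q : K),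
      LIm (w.adicCompletion K) (algebraMap K (w.adicCompletion K) (27 * (d : K) ^ 2))
        (algebraMap K (w.adicCompletion K) p) (algebraMap K (w.adicCompletion K) q) ↔
      LocImEd d (w.adicCompletion K) (emap (algebraMap K (w.adicCompletion K))
        (AdjoinRoot.of _ p + AdjoinRoot.of _ ((d : K) * q) * AdjoinRoot.root _ : Qe K)) := by
    intro w p q
    have hdw : (d : w.adicCompletion K) ≠ 0 := by
      rw [← map_intCast (algebraMap K (w.adicCompletion K)), Ne, map_eq_zero]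
      exact hdK
    have e3 : algebraMap K (w.adicCompletion K) (27 * (d : K) ^ 2) = 27 * (d : w.adicCompletion K) ^ 2 := by
      rw [map_mul, map_pow, map_intCast, map_ofNat]
    rw [e2, locImEd_iff, e3, lim_iff hdw, map_mul, map_intCast]
  constructor
  · intro hS p q n hn hn0 hL
    have hn' : p ^ 2 + (-27) * ((d : K) * q) ^ 2 = n ^ 3 := by rw [← hn]; ring
    have h1 := hS (AdjoinRoot.of _ p + AdjoinRoot.of _ ((d : K) * q) * AdjoinRoot.root _)
      ⟨P9_unit (f := X ^ 2 - C 27) (c := -27) d5_f p _ n hn0 hn', ⟨n, by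
        rw [SG_norm (f := X ^ 2 - C 27) (c := -27) d5_f, hn']⟩, fun w => (hloc w p q).1 (hL w)⟩
    rw [cub_sq hdK]
    exact (adj_iff (f := X ^ 2 - C 27) (c := -27) d5_f 27 (by rw [neg_neg]) _ _).1 h1
  · rintro hS m ⟨hu, ⟨n, hn⟩, hw⟩
    obtain ⟨a, b, rfl⟩ := SG_repr (f := X ^ 2 - C 27) (c := -27) d5_f m
    have hn0 : n ≠ 0 := by
      rintro rfl
      have h1 := hu.map (Algebra.norm K)
      rw [hn, zero_pow three_ne_zero] at h1
      exact not_isUnit_zero h1
    rw [SG_norm (f := X ^ 2 - C 27) (c := -27) d5_f] at hn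
    have hb : (d : K) * (b / d) = b := mul_div_cancel₀ _ hdK
    have h1 := hS a (b / d) n (by
      rw [← hn, div_pow]
      field_simp
      ring) hn0 (fun w => (hloc w a (b / d)).2 (by rw [hb]; exact hw w))
    rw [cub_sq hdK, hb] at h1
    exact (adj_iff (f := X ^ 2 - C 27) (c := -27) d5_f 27 (by rw [neg_neg]) _ _).2 h1

theorem selZ_iff_selT (d : ℤ) (hd : d ≠ 0) (K : Type) [Field K] [NumberField K] :
    SelZ d K ↔ SelT K (-(d : K) ^ 2) ∧ SelT K (27 * (d : K) ^ 2) := by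
  unfold SelZ
  rw [half1 d hd K, half2 d hd K]

end H35Q
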