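import Mathlib
import Pool.Agent.Lib.H35Q.Defs

/-! Chunk F2 (S/M): finiteness of E_D(k) under isogenies and scaling. fin_iso: D nonzero, -27 D... : (u, v) with v^2 = u^3 - 27 D, u nonzero: x = (u^3 - 108 D)/(9 u^2), y = v (u^3 + 216 D)/(27 u^3) satisfy y^2 = x^3 + D (field_simp, ring). So u = 0 or u is a root of
X^3 - 9 x X^2 - 108 D for one of the finitely many x (nonzero polynomial: leading coefficient 1, finitely many roots); for every u at most two v. The set is a subset of a finite union of finite sets (Set.Finite.biUnion, Set.Finite.preimage; the y^2 = c part as in P9_northcott of H35Z/P9.lean).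
fin_scale: (x, y) ↦ (t^2 x, t^3 y) is a bijection from the solutions for D to those for t^6 D. -/

namespace H35Q

theorem f2_sq {k : Type*} [Field k] (c : k) : {v : k | v ^ 2 = c}.Finite := by
  by_cases h : ∃ v0 : k, v0 ^ 2 = c
  · obtain ⟨v0, hv0⟩ := h
    refine (Set.toFinite ({v0, -v0} : Set k)).subset fun v hv => ?_
    have hv' : v ^ 2 = v0 ^ 2 := by
      rw [hv0]
      exact hv
    rcases sq_eq_sq_iff_eq_or_eq_neg.1 hv' with h1 | h1
    · exact Or.inl h1
    · exact Or.inr h1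
  · refine Set.finite_empty.subset fun v hv => ?_
    exact h ⟨v, hv⟩

theorem f2_cub {k : Type*} [Field k] (a b : k) : {u : k | u ^ 3 - a * u ^ 2 - b = 0}.Finite := by
  set p : Polynomial k := Polynomial.X ^ 3 - Polynomial.C a * Polynomial.X ^ 2 - Polynomial.C b
    with hp
  have h3 : p.coeff 3 = 1 := by
    rw [hp]
    simp [Polynomial.coeff_X_pow, Polynomial.coeff_C]
  have hne : p ≠ 0 := by
    intro h
    rw [h, Polynomial.coeff_zero] at h3
    exact zero_ne_one h3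
  refine (Polynomial.finite_setOf_isRoot hne).subset fun u hu => ?_
  show p.IsRoot u
  rw [Polynomial.IsRoot, hp]
  simpa using hu

theorem fin_iso {k : Type*} [Field k] [CharZero k] {D : k} (hF : FinE k D) : FinE k (-27 * D) := by
  have hU : ({0} ∪ ⋃ q ∈ {q : k × k | q.2 ^ 2 = q.1 ^ 3 + D},
      {u : k | u ^ 3 - (9 * q.1) * u ^ 2 - 108 * D = 0}).Finite :=
    (Set.finite_singleton 0).union (hF.biUnion fun q _ => f2_cub _ _)
  have hV := hU.biUnion (t := fun u => (Prod.mk u) '' {v : k | v ^ 2 = u ^ 3 + -27 * D})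
    fun u _ => (f2_sq _).image _
  refine hV.subset ?_
  rintro ⟨u, v⟩ huv
  have huv' : v ^ 2 = u ^ 3 + -27 * D := huv
  rw [Set.mem_iUnion₂]
  refine ⟨u, ?_, v, huv', rfl⟩
  by_cases hu : u = 0
  · exact Or.inl hu
  · refine Or.inr ?_
    rw [Set.mem_iUnion₂]
    refine ⟨((u ^ 3 - 108 * D) / (9 * u ^ 2), v * (u ^ 3 + 216 * D) / (27 * u ^ 3)), ?_, ?_⟩
    · show (v * (u ^ 3 + 216 * D) / (27 * u ^ 3)) ^ 2 = ((u ^ 3 - 108 * D) / (9 * u ^ 2)) ^ 3 + D
      have e1 : (v * (u ^ 3 + 216 * D) / (27 * u ^ 3)) ^ 2 =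
          v ^ 2 * (u ^ 3 + 216 * D) ^ 2 / (27 * u ^ 3) ^ 2 := by
        rw [div_pow, mul_pow]
      rw [e1, huv']
      field_simp
      ring
    · show u ^ 3 - (9 * ((u ^ 3 - 108 * D) / (9 * u ^ 2))) * u ^ 2 - 108 * D = 0
      field_simp
      ring

theorem fin_scale {k : Type*} [Field k] {D t : k} (ht : t ≠ 0) (hF : FinE k D) : FinE k (t ^ 6 * D) := by
  refine (hF.image fun q => (t ^ 2 * q.1, t ^ 3 * q.2)).subset ?_
  rintro ⟨x, y⟩ h
  have h' : y ^ 2 = x ^ 3 + t ^ 6 * D := h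
  refine ⟨(x / t ^ 2, y / t ^ 3), ?_, ?_⟩
  · show (y / t ^ 3) ^ 2 = (x / t ^ 2) ^ 3 + D
    have e1 : (y / t ^ 3) ^ 2 = y ^ 2 / t ^ 6 := by
      rw [div_pow]
      congr 1
      ring
    rw [e1, h']
    field_simp
  · show (t ^ 2 * (x / t ^ 2), t ^ 3 * (y / t ^ 3)) = (x, y)
    rw [mul_div_cancel₀ _ (pow_ne_zero 2 ht), mul_div_cancel₀ _ (pow_ne_zero 3 ht)]

end H35Q
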