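import Mathlib
import Pool.Agent.Lib.H35Z.Defs
import Pool.Agent.Lib.H35Q.Defs

/-! Definitions used in the final statement. -/

open NumberField IsDedekindDomain

namespace H35Q

open H35Z H35X H35T H13E H19T

/-- The curve y^2 = x^3 + 27 d^2 over the rationals. -/
def Ei (d : ℤ) : WeierstrassCurve ℚ := ⟨0, 0, 0, 0, 27 * (d : ℚ) ^ 2⟩

/-- The Tate-Shafarevich group of W over K has no element of order 3. -/
def ShaZ (K : Type) [Field K] [NumberField K] (W : WeierstrassCurve K) : Prop :=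
  ∀ z : H16C.Sha W.toAffine (AlgebraicClosure K), (3 : ℕ) • z = 0 → z = 0

open Classical in
/-- The rank over K is 0. -/
def RankZ (K : Type) [Field K] (W : WeierstrassCurve K) : Prop :=
  Module.finrank ℤ W.toAffine.Point = 0

/-- The rank of y^2 = x^3 - d^2 over K is 0, and the Tate-Shafarevich groups over K of this curve and of the 3-isogenous
curve y^2 = x^3 + 27 d^2 have no element of order 3. -/
def AlgTriv (d : ℤ) (K : Type) [Field K] [NumberField K] : Prop :=
  RankZ K ((Ec d).baseChange K) ∧ ShaZ K ((Ec d).baseChange K) ∧ ShaZ K ((Ei d).baseChange K)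

/-- The rank of y^2 = x^3 - d^2 over K is 0 and its Tate-Shafarevich group has no element of order 3. -/
def AlgTriv1 (d : ℤ) (K : Type) [Field K] [NumberField K] : Prop :=
  RankZ K ((Ec d).baseChange K) ∧ ShaZ K ((Ec d).baseChange K)

/-- The 3-primary part of the Tate-Shafarevich group. -/
def Sha3 (K : Type) [Field K] [NumberField K] (W : WeierstrassCurve K) : Type _ :=
  {z : H16C.Sha W.toAffine (AlgebraicClosure K) // ∃ n : ℕ, (3 ^ n : ℕ) • z = 0}

open Classical in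
/-- The 3-part of the conjecture of Birch and Swinnerton-Dyer for y^2 = x^3 - d^2 over K: the order of vanishing at 1 is the rank,
the 3-primary part of the Tate-Shafarevich group is finite, and its order has the valuation of the analytic order for every valuation
above 3. -/
def BSD3 (d : ℤ) (K : Type) [Field K] [NumberField K] (Λ : ℂ → ℂ) (L : PeriodPair) : Prop :=
  analyticOrderAt Λ 1 = (Module.finrank ℤ ((Ec d).baseChange K).toAffine.Point : ℕ∞) ∧
    Finite (Sha3 K ((Ec d).baseChange K)) ∧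
    ∀ V : ValuationSubring ℂ, V.valuation 3 < 1 →
      V.valuation (shaD d K L (Λ 1)) = V.valuation ((Nat.card (Sha3 K ((Ec d).baseChange K)) : ℕ) : ℂ)

/-- The exact criterion. -/
def CritQ (d : ℤ) (K : Type) [Field K] [NumberField K] : Prop :=
  (∃ L : PeriodPair, L.g₂ = 0 ∧ L.g₃ = 4 * (d : ℂ) ^ 2) ∧
  ∃ Λ : ℂ → ℂ, ContD d K Λ ∧
    ∀ L : PeriodPair, L.g₂ = 0 → L.g₃ = 4 * (d : ℂ) ^ 2 →
      Int3 (shaD d K L (Λ 1)) ∧
      (AlgTriv d K ↔ Λ 1 ≠ 0 ∧ Unit3 (shaD d K L (Λ 1))) ∧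
      (AlgTriv d K ↔ GoodRam3 K) ∧
      ((∃ x : K, x ^ 2 + x + 1 = 0) → (AlgTriv1 d K ↔ GoodRam3 K)) ∧
      (GoodRam3 K → BSD3 d K Λ L ∧ Finite ((Ec d).baseChange K).toAffine.Point ∧
        ¬ 3 ∣ Nat.card ((Ec d).baseChange K).toAffine.Point) ∧
      (¬ GoodRam3 K → Non3 (shaD d K L (Λ 1)))

/-- The relative criterion. -/
def CritRelQ (d : ℤ) (M K : Type) [Field M] [NumberField M] [Field K] [NumberField K] [Algebra M K] : Prop :=
  ∃ ΛM ΛK : ℂ → ℂ, ContD d M ΛM ∧ ContD d K ΛK ∧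
    (∀ L : PeriodPair, L.g₂ = 0 → L.g₃ = 4 * (d : ℂ) ^ 2 →
      ∀ V : ValuationSubring ℂ, V.valuation 3 < 1 →
        V.valuation (shaD d M L (ΛM 1)) ≤ 1 ∧ V.valuation (shaD d K L (ΛK 1)) ≤ 1 ∧
        (V.valuation (shaD d K L (ΛK 1)) = 1 ↔
          V.valuation (shaD d M L (ΛM 1)) = 1 ∧ GoodRel M K)) ∧
    (AlgTriv1 d K ↔ AlgTriv1 d M ∧ GoodRel M K)

end H35Q
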