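import Mathlib
import Pool.Agent.Lib.H55P.S5
import Pool.Agent.Lib.H35Z.P8
import Pool.Agent.Lib.H35Q.Stat

/-! Chunk F3 (S/M): Mordell-Weil. rank_fin: W = (Ec d).baseChange K; H55P.mw (F = ℚ, Ec d elliptic by p8_ell) gives Module.Finite ℤ of the group of points; finrank 0 and finitely generated implies finite (e.g. every element is torsion: Module.finrank_eq_zero_iff_isTorsion or
the structure theorem; AddCommGroup.finite_of_fg_isAddTorsion / Module.finite_of_fg_torsion); the solutions (x, y) inject into the points (nonsingular since elliptic, H16C.exists_pt). fin_rank: a finite group has finrank 0 over ℤ (Module.finrank_eq_zero_of_..., torsion; or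
Module.finrank_eq_zero_iff: every element is killed by a nonzero integer). sha3: if 3 is injective on Sha then the 3-primary part is {0}: 3^n z = 0 implies z = 0 by induction; unique element: Finite, Nat.card = 1. -/

open NumberField IsDedekindDomain

namespace H35Q

open H35Z

theorem f3_ell (d : ℤ) (hd : d ≠ 0) : (Ec d).IsElliptic := by
  refine p8_ell (Ec d) rfl rfl rfl rfl ?_
  show -(d : ℚ) ^ 2 ≠ 0
  exact neg_ne_zero.2 (pow_ne_zero 2 (Int.cast_ne_zero.2 hd))

theorem rank_fin (d : ℤ) (hd : d ≠ 0) (K : Type) [Field K] [NumberField K] (h : RankZ K ((Ec d).baseChange K)) :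
    FinE K (-(d : K) ^ 2) := by
  classical
  have hel := f3_ell d hd
  have hfg : Module.Finite ℤ ((Ec d).baseChange K).toAffine.Point := H55P.mw (Ec d) K
  have hr : Module.finrank ℤ ((Ec d).baseChange K).toAffine.Point = 0 := by
    unfold RankZ at h
    convert h
  have hfin : Finite ((Ec d).baseChange K).toAffine.Point :=
    Module.finite_of_fg_torsion _ (Module.finrank_eq_zero_iff_isTorsion.1 hr)
  obtain ⟨h1, h2, h3, h4, h6⟩ := p8_coeffs d K
  have hdK : (d : K) ≠ 0 := Int.cast_ne_zero.2 hd
  have hel2 : ((Ec d).baseChange K).IsElliptic := p8_ell _ h1 h2 h3 h4 (by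
    rw [show ((Ec d).baseChange K).a₆ = _ from h6]
    exact neg_ne_zero.2 (pow_ne_zero 2 hdK))
  have hpt : ∀ q : {q : K × K | q.2 ^ 2 = q.1 ^ 3 + -(d : K) ^ 2},
      ((Ec d).baseChange K).toAffine.Nonsingular q.1.1 q.1.2 := by
    rintro ⟨⟨x, y⟩, hq⟩
    rw [← WeierstrassCurve.Affine.equation_iff_nonsingular, WeierstrassCurve.Affine.equation_iff, h1, h2, h3, h4, h6]
    have hq' : y ^ 2 = x ^ 3 + -(d : K) ^ 2 := hq
    linear_combination hq'
  unfold FinE
  rw [← Set.finite_coe_iff]
  refine Finite.of_injective (fun q => WeierstrassCurve.Affine.Point.some q.1.1 q.1.2 (hpt q)) ?_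
  intro q q' hqq
  rw [WeierstrassCurve.Affine.Point.some.injEq] at hqq
  exact Subtype.ext (Prod.ext hqq.1 hqq.2)

open Classical in
theorem fin_rank (K : Type) [Field K] [NumberField K] (W : WeierstrassCurve K) (h : Finite W.toAffine.Point) :
    RankZ K W := by
  unfold RankZ
  have : Module.Finite ℤ W.toAffine.Point := Module.Finite.of_finite
  rw [Module.finrank_eq_zero_iff_isTorsion]
  intro x
  have hx : IsOfFinAddOrder x := isOfFinAddOrder_of_finite x
  refine ⟨⟨(addOrderOf x : ℤ), ?_⟩, ?_⟩
  · rw [mem_nonZeroDivisors_iff_ne_zero]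
    exact_mod_cast (addOrderOf_pos_iff.2 hx).ne'
  · show (addOrderOf x : ℤ) • x = 0
    rw [natCast_zsmul]
    exact addOrderOf_nsmul_eq_zero x

theorem sha3_card (K : Type) [Field K] [NumberField K] (W : WeierstrassCurve K) (h : ShaZ K W) :
    Finite (Sha3 K W) ∧ Nat.card (Sha3 K W) = 1 := by
  have h0 : ∀ (n : ℕ) (z : H16C.Sha W.toAffine (AlgebraicClosure K)), (3 ^ n : ℕ) • z = 0 → z = 0 := by
    intro n
    induction n with
    | zero =>
      intro z hz
      rwa [pow_zero, one_nsmul] at hz
    | succ n ih =>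
      intro z hz
      rw [pow_succ, mul_nsmul] at hz
      exact ih z (h _ hz)
  have hsub : Subsingleton (Sha3 K W) := by
    refine ⟨fun a b => ?_⟩
    obtain ⟨a, n, ha⟩ := a
    obtain ⟨b, m, hb⟩ := b
    have e1 := h0 n a ha
    have e2 := h0 m b hb
    subst e1 e2
    rfl
  have hne : Nonempty (Sha3 K W) := ⟨⟨0, 0, nsmul_zero _⟩⟩
  exact ⟨Finite.of_subsingleton, Nat.card_eq_one_iff_unique.2 ⟨hsub, hne⟩⟩

end H35Q
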