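import Mathlib
import Pool.Agent.Lib.H35Z.FinA
import Pool.Agent.Lib.H35Q.Stat

/-! Chunk X1 (S): no square roots of -1 and 3 in the fields of the classes. cls_no: cls3T_cases K hK (see critD, critD_F, critD_0 in H35Z/FinA.lean): either K contains F with RelT F K, then baseF_rel baseF_F hS is BaseF K and no_i3, no_r3 (its odd field); or K is contained in K₁ of this type, and the
algebra map is injective (hi0, h30 in critD_0). -/

open NumberField IsDedekindDomain

namespace H35Q

open H35Z H55B H35T H55N H19T H13E H35X H13N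

theorem cls_no (K : Type) [Field K] [NumberField K] (hK : Cls3T K) :
    (∀ x : K, x ^ 2 ≠ -1) ∧ (∀ x : K, x ^ 2 ≠ 3) := by
  rcases cls3T_cases K hK with ⟨i, hS⟩ | ⟨K₁, h1, h2, h3, h4, hQ, hS⟩
  · have hB : BaseF K := baseF_rel baseF_F hS
    exact ⟨fun x => no_i3 hB.odd x, fun x => no_r3 hB.odd x⟩
  · have hB : BaseF K₁ := baseF_rel baseF_F hS
    refine ⟨fun x hx => no_i3 hB.odd (algebraMap K K₁ x) ?_, fun x hx => no_r3 hB.odd (algebraMap K K₁ x) ?_⟩
    · rw [← map_pow, hx, map_neg, map_one]
    · rw [← map_pow, hx, map_ofNat]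

end H35Q
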