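import Mathlib
import Pool.Agent.Lib.H35Z.Final
import Pool.Agent.Lib.H35Q.A3
import Pool.Agent.Lib.H35Q.C2
import Pool.Agent.Lib.H35Q.F2
import Pool.Agent.Lib.H35Q.F3
import Pool.Agent.Lib.H35Q.X1

/-! Final assembly (helper35). -/

open NumberField IsDedekindDomain

namespace H35Q

open H16C H35Z H35X H35T H13E H19T H55B

/-- The coefficients of the base change of Ei d. -/
theorem ei_coeffs (d : ℤ) (K : Type) [Field K] [NumberField K] :
    ((Ei d).baseChange K).toAffine.a₁ = 0 ∧ ((Ei d).baseChange K).toAffine.a₂ = 0 ∧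
    ((Ei d).baseChange K).toAffine.a₃ = 0 ∧ ((Ei d).baseChange K).toAffine.a₄ = 0 ∧
    ((Ei d).baseChange K).toAffine.a₆ = 27 * (d : K) ^ 2 := by
  refine ⟨?_, ?_, ?_, ?_, ?_⟩ <;>
  simp [Ei, WeierstrassCurve.baseChange, WeierstrassCurve.toAffine, WeierstrassCurve.map]

section

variable (d : ℤ) (K : Type) [Field K] [NumberField K]

theorem sh_c : (((Ec d).baseChange K).toAffine).IsShortNF :=
  ⟨(p8_coeffs d K).1, (p8_coeffs d K).2.1, (p8_coeffs d K).2.2.1⟩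

theorem sh_i : (((Ei d).baseChange K).toAffine).IsShortNF :=
  ⟨(ei_coeffs d K).1, (ei_coeffs d K).2.1, (ei_coeffs d K).2.2.1⟩

variable {d}

theorem ell_c (hd : d ≠ 0) : (((Ec d).baseChange K).toAffine).IsElliptic := by
  obtain ⟨h1, h2, h3, h4, h6⟩ := p8_coeffs d K
  have hdK : (d : K) ≠ 0 := Int.cast_ne_zero.2 hd
  exact p8_ell _ h1 h2 h3 h4 (by
    rw [show ((Ec d).baseChange K).a₆ = _ from h6]
    exact neg_ne_zero.2 (pow_ne_zero 2 hdK))

theorem ell_i (hd : d ≠ 0) : (((Ei d).baseChange K).toAffine).IsElliptic := by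
  obtain ⟨h1, h2, h3, h4, h6⟩ := ei_coeffs d K
  have hdK : (d : K) ≠ 0 := Int.cast_ne_zero.2 hd
  exact p8_ell _ h1 h2 h3 h4 (by
    rw [show ((Ei d).baseChange K).a₆ = _ from h6]
    exact mul_ne_zero (by norm_num) (pow_ne_zero 2 hdK))

variable {K}

theorem ns_c (hd : d ≠ 0) (hi : ∀ x : K, x ^ 2 ≠ -1) (x : K) : x ^ 2 ≠ -(d : K) ^ 2 := by
  have hdK : (d : K) ≠ 0 := Int.cast_ne_zero.2 hd
  intro h
  apply hi (x / d)
  rw [div_pow, h, neg_div, div_self (pow_ne_zero 2 hdK)]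

theorem ns_i (hd : d ≠ 0) (h3 : ∀ x : K, x ^ 2 ≠ 3) (x : K) : x ^ 2 ≠ 3 * (d : K) ^ 2 := by
  have hdK : (d : K) ≠ 0 := Int.cast_ne_zero.2 hd
  intro h
  apply h3 (x / d)
  rw [div_pow, h, mul_div_assoc, div_self (pow_ne_zero 2 hdK), mul_one]

/-- from the Selmer groups to the Tate-Shafarevich groups -/
theorem alg_of_sel (hd : d ≠ 0) (hi : ∀ x : K, x ^ 2 ≠ -1) (h3 : ∀ x : K, x ^ 2 ≠ 3) (h : SelZ d K) :
    AlgTriv d K := by
  have hdK : (d : K) ≠ 0 := Int.cast_ne_zero.2 hd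
  obtain ⟨hA, hB⟩ := (selZ_iff_selT d hd K).1 h
  have i1 := sh_c d K
  have i2 := sh_i d K
  have i3 := ell_c K hd
  have i4 := ell_i K hd
  have hc4 := (p8_coeffs d K).2.2.2.1
  have hc6 := (p8_coeffs d K).2.2.2.2
  have hi4 := (ei_coeffs d K).2.2.2.1
  have hi6 := (ei_coeffs d K).2.2.2.2
  refine ⟨fin_rank K _ (E_finite d hd K hi h), ?_, ?_⟩
  · refine (sha_iff (Ω := AlgebraicClosure K) ((Ec d).baseChange K).toAffine).2 (dirA _ hc4 ?_ ?_ ?_ ?_)
    · rw [hc6]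
      exact ns_c hd hi
    · rw [hc6, mul_neg, neg_mul, neg_neg]
      exact ns_i hd h3
    · rw [hc6]
      exact hA
    · rw [hc6]
      have e : (-27 : K) * -(d : K) ^ 2 = 27 * (d : K) ^ 2 := by ring
      rw [e]
      exact hB
  · refine (sha_iff (Ω := AlgebraicClosure K) ((Ei d).baseChange K).toAffine).2 (dirA _ hi4 ?_ ?_ ?_ ?_)
    · rw [hi6]
      intro x hx
      apply ns_i hd h3 (x / 3)
      rw [div_pow, hx]
      ring
    · rw [hi6]
      intro x hx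
      apply ns_c hd hi (x / 9)
      rw [div_pow, hx]
      ring
    · rw [hi6]
      exact hB
    · rw [hi6]
      have e : (-27 : K) * (27 * (d : K) ^ 2) = 3 ^ 6 * (-(d : K) ^ 2) := by ring
      rw [e]
      exact (sel_scale three_ne_zero).2 hA

/-- The Selmer group of T^2 = 27 is trivial. -/
theorem selB_of_alg1 (hd : d ≠ 0) (hi : ∀ x : K, x ^ 2 ≠ -1) (h3 : ∀ x : K, x ^ 2 ≠ 3) (h : AlgTriv1 d K) :
    SelT K (27 * (d : K) ^ 2) := by
  have i1 := sh_c d K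
  have i3 := ell_c K hd
  have hc4 := (p8_coeffs d K).2.2.2.1
  have hc6 := (p8_coeffs d K).2.2.2.2
  have hF := fin_iso (rank_fin d hd K h.1)
  have e : (-27 : K) * -(d : K) ^ 2 = 27 * (d : K) ^ 2 := by ring
  have h5 := dirB (Ω := AlgebraicClosure K) ((Ec d).baseChange K).toAffine hc4 (by
    rw [hc6]
    exact ns_c hd hi) (by
    rw [hc6, mul_neg, neg_mul, neg_neg]
    exact ns_i hd h3) (by
    rw [hc6]
    exact hF) ((sha_iff (Ω := AlgebraicClosure K) _).1 h.2)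
  rw [hc6, e] at h5
  exact h5

theorem selZ_iff_alg (hd : d ≠ 0) (hi : ∀ x : K, x ^ 2 ≠ -1) (h3 : ∀ x : K, x ^ 2 ≠ 3) :
    SelZ d K ↔ AlgTriv d K := by
  refine ⟨alg_of_sel hd hi h3, fun h => ?_⟩
  have hB := selB_of_alg1 hd hi h3 ⟨h.1, h.2.1⟩
  refine (selZ_iff_selT d hd K).2 ⟨?_, hB⟩
  have hdK : (d : K) ≠ 0 := Int.cast_ne_zero.2 hd
  have i2 := sh_i d K
  have i4 := ell_i K hd
  have hi4 := (ei_coeffs d K).2.2.2.1
  have hi6 := (ei_coeffs d K).2.2.2.2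
  have e : (-27 : K) * (27 * (d : K) ^ 2) = 3 ^ 6 * (-(d : K) ^ 2) := by ring
  have hF : FinE K (3 ^ 6 * (-(d : K) ^ 2)) := fin_scale three_ne_zero (rank_fin d hd K h.1)
  have h5 := dirB (Ω := AlgebraicClosure K) ((Ei d).baseChange K).toAffine hi4 (by
    rw [hi6]
    intro x hx
    apply ns_i hd h3 (x / 3)
    rw [div_pow, hx]
    ring) (by
    rw [hi6]
    intro x hx
    apply ns_c hd hi (x / 9)
    rw [div_pow, hx]
    ring) (by
    rw [hi6, e]
    exact hF) ((sha_iff (Ω := AlgebraicClosure K) _).1 h.2.2)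
  rw [hi6, e] at h5
  exact (sel_scale three_ne_zero).1 h5

theorem selZ_iff_alg1 (hd : d ≠ 0) (hi : ∀ x : K, x ^ 2 ≠ -1) (h3 : ∀ x : K, x ^ 2 ≠ 3)
    (hω : ∃ x : K, x ^ 2 + x + 1 = 0) : SelZ d K ↔ AlgTriv1 d K := by
  refine ⟨fun h => ?_, fun h => ?_⟩
  · obtain ⟨h1, h2, -⟩ := alg_of_sel hd hi h3 h
    exact ⟨h1, h2⟩
  have hB := selB_of_alg1 hd hi h3 h
  refine (selZ_iff_selT d hd K).2 ⟨?_, hB⟩
  obtain ⟨x, hx⟩ := hω
  have hθ : (2 * x + 1) ^ 2 = -3 := theta_sq hx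
  have hθ0 : 2 * x + 1 ≠ 0 := theta_ne hx
  have e : 27 * (d : K) ^ 2 = (2 * x + 1) ^ 6 * (-(d : K) ^ 2) := by
    have e6 : (2 * x + 1) ^ 6 = -27 := by
      rw [show (6 : ℕ) = 2 * 3 from rfl, pow_mul, hθ]
      norm_num
    rw [e6]
    ring
  rw [e] at hB
  exact (sel_scale hθ0).1 hB

end

open Classical in
/-- The exact criterion with the Tate-Shafarevich group. -/
theorem critQ (K : Type) [Field K] [NumberField K] (hK : Cls3T K) (d : ℤ) (hd : AdmAt d K) : CritQ d K := by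
  have hd0 : d ≠ 0 := admAt_ne hd
  obtain ⟨hi, h3⟩ := cls_no K hK
  obtain ⟨hL, Λ, hc, h⟩ := critD K hK d hd
  have hiff := selZ_iff_alg (K := K) hd0 hi h3
  refine ⟨hL, Λ, hc, fun L g2 g3 => ?_⟩
  obtain ⟨a1, a2, a3, a4, a5⟩ := h L g2 g3
  refine ⟨a1, by rw [← hiff]; exact a2, by rw [← hiff]; exact a3, fun hω => ?_, fun hg => ?_, fun hg => ?_⟩
  · rw [← selZ_iff_alg1 (K := K) hd0 hi h3 hω]
    exact a3
  · have hs := a3.2 hg
    obtain ⟨hr, hS, -⟩ := hiff.1 hs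
    obtain ⟨hne, hu⟩ := a2.1 hs
    obtain ⟨s1, s2⟩ := sha3_card K _ hS
    refine ⟨⟨?_, s1, fun V hV => ?_⟩, a4 hs⟩
    · have hr' : Module.finrank ℤ ((Ec d).baseChange K).toAffine.Point = 0 := hr
      rw [hr', Nat.cast_zero]
      refine AnalyticAt.analyticOrderAt_eq_zero ?_ |>.2 hne
      exact hc.1 1 (by
        show (1 : ℝ) / 2 < (1 : ℂ).re
        rw [Complex.one_re]
        norm_num)
    · rw [hu V hV, s2, Nat.cast_one, map_one]
  · exact a5 fun hs => hg (a3.1 hs)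

/-- The relative criterion with the Tate-Shafarevich group. -/
theorem critRelQ (M K : Type) [Field M] [NumberField M] [Algebra F M] [Field K] [NumberField K]
    [Algebra M K] (hM : BaseF M) (hS : RelT M K) (d : ℤ) (hd : AdmAt d K) : CritRelQ d M K := by
  have hd0 : d ≠ 0 := admAt_ne hd
  obtain ⟨ΛM, ΛK, h1, h2, h3, h4⟩ := critRel M K hM hS d hd
  let _ : Algebra F K := ((algebraMap M K).comp (algebraMap F M)).toAlgebra
  have _ : IsScalarTower F M K := IsScalarTower.of_algebraMap_eq fun _ => rfl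
  have hB : BaseF K := baseF_rel hM hS
  have hω : ∀ (N : Type) [Field N] [NumberField N] [Algebra F N], ∃ x : N, x ^ 2 + x + 1 = 0 := by
    intro N _ _ _
    refine ⟨algebraMap O N om, ?_⟩
    have h := congrArg (algebraMap O N) H55B.om_rel
    rw [map_add, map_add, map_pow, map_one, map_zero] at h
    exact h
  rw [selZ_iff_alg1 (K := K) hd0 (fun x => no_i3 hB.odd x) (fun x => no_r3 hB.odd x) (hω K),
    selZ_iff_alg1 (K := M) hd0 (fun x => no_i3 hM.odd x) (fun x => no_r3 hM.odd x) (hω M)] at h4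
  exact ⟨ΛM, ΛK, h1, h2, h3, h4⟩

end H35Q
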